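import Pool.Agent.Lib.RV7.Blue

/-! Block ASMA: analytic continuation along the ray above the CM point. -/

open Complex MeasureTheory Filter Topology RV5
open scoped Real ComplexConjugate

namespace RV7

namespace AsmA

/-- the vertical ray through the CM point -/
noncomputable def ray (v : ℝ) : ℂ := -1 / 8 + v * I

lemma ray_im (v : ℝ) : (ray v).im = v := by simp [ray]

lemma ray_zero : ray (√7 / 8) = tau0 := by
  rw [ray, tau0]; push_cast; ring

lemma cont_ray : Continuous ray := by unfold ray; fun_prop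

lemma cont_e : Continuous e := continuous_iff_continuousAt.2 fun τ => (hasDerivAt_e τ).continuousAt

lemma ell_tau0 (hC : CM) (hN : NUM) : ell tau0 = -(π * I) := by
  obtain ⟨n, hn⟩ := Complex.exp_eq_exp_iff_exists_int.1 (hC.trans Complex.exp_pi_mul_I.symm)
  have hp := Real.pi_pos
  have h1 := congrArg Complex.im hn
  simp at h1
  obtain ⟨a, b0⟩ := hN
  obtain ⟨b1, b2⟩ := b0 _ (lt_add_one _)
  have b := b1.trans b2
  have c1 : (-2 : ℝ) < n := by nlinarith
  have c2 : (n : ℝ) < 0 := by nlinarith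
  have c3 : (-2 : ℤ) < n := by exact_mod_cast c1
  have c4 : n < 0 := by exact_mod_cast c2
  have c5 : n = -1 := by omega
  subst c5
  push_cast at hn
  linear_combination hn

lemma zf_tau0 (hC : CM) (hN : NUM) : zf (e tau0) = 1 := by
  have := exp_ell tau0
  rw [ell_tau0 hC hN, Complex.exp_neg, Complex.exp_pi_mul_I] at this
  linear_combination this

lemma zf_im_pos (hC : CM) (hN : NUM) {v : ℝ} (hv : √7 / 8 < v) : 0 < (zf (e (ray v))).im := by
  obtain ⟨a, b⟩ := hN.2 v hv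
  rw [ell_tau0 hC hN] at a
  have a' : -π < (ell (ray v)).im := by simpa [ray] using a
  have h := congrArg Complex.im (exp_ell (ray v))
  rw [Complex.exp_im, Complex.neg_im] at h
  have h2 : Real.sin (ell (ray v)).im < 0 := Real.sin_neg_of_neg_of_neg_pi_lt b a'
  nlinarith [Real.exp_pos (ell (ray v)).re]

lemma diff_zfe {τ : ℂ} (h : 0 < τ.im) : DifferentiableAt ℂ (fun τ => zf (e τ)) τ :=
  (hasDerivAt_comp_e (diffAt_zf (norm_e_lt h))).differentiableAt

lemma open_dom : IsOpen {τ : ℂ | 0 < τ.im ∧ 0 < (zf (e τ)).im} := by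
  refine isOpen_iff_mem_nhds.2 fun τ h => ?_
  have h1 : ∀ᶠ t in 𝓝 τ, 0 < t.im :=
    Complex.continuous_im.continuousAt.eventually (lt_mem_nhds h.1)
  have h2 : ∀ᶠ t in 𝓝 τ, 0 < (zf (e t)).im :=
    (Complex.continuous_im.continuousAt.comp (diff_zfe h.1).continuousAt).eventually
      (lt_mem_nhds h.2)
  exact h1.and h2

lemma tendsto_e_ray : Tendsto (fun v => e (ray v)) atTop (𝓝 0) := by
  rw [tendsto_zero_iff_norm_tendsto_zero]
  simp only [norm_e, ray_im]
  refine Real.tendsto_exp_atBot.comp (tendsto_neg_atTop_atBot.comp ?_)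
  exact tendsto_id.const_mul_atTop (by positivity)

end AsmA

open RV7.AsmA in
theorem amain_of (hJ : JEN) (hM : MOM) (hB : BND) (hO : ODE2) (hC : CM) (hN : NUM) : AMAIN := by
  intro Ψ hΨ
  refine ⟨by simp [ell_tau0 hC hN], ?_⟩
  obtain ⟨F, hF, hS, hL⟩ := hB
  have hv0 : (0 : ℝ) < √7 / 8 := by positivity
  have dΨ : ∀ τ : ℂ, 0 < τ.im → DifferentiableAt ℂ (fun τ => Ψ (e τ)) τ := fun τ h =>
    (hasDerivAt_comp_e (hΨ.1.differentiableAt
      (Metric.isOpen_ball.mem_nhds (mem_ball_zero_iff.2 (norm_e_lt h))))).differentiableAt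
  have oH : IsOpen {z : ℂ | 0 < z.im} := isOpen_lt continuous_const Complex.continuous_im
  have hsub : ray '' Set.Ioi (√7 / 8) ⊆ {τ : ℂ | 0 < τ.im ∧ 0 < (zf (e τ)).im} := by
    rintro _ ⟨v, hv, rfl⟩
    exact ⟨by rw [ray_im]; exact hv0.trans hv, zf_im_pos hC hN hv⟩
  have a1 : AnalyticOnNhd ℂ (fun τ => Ψ (e τ)) (ray '' Set.Ioi (√7 / 8)) :=
    (DifferentiableOn.analyticOnNhd (fun τ h => (dΨ τ h.1).differentiableWithinAt)
      open_dom).mono hsub
  have a2 : AnalyticOnNhd ℂ (fun τ => F (zf (e τ))) (ray '' Set.Ioi (√7 / 8)) :=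
    (DifferentiableOn.analyticOnNhd (fun τ h =>
      ((hF.differentiableAt (oH.mem_nhds h.2)).comp τ (diff_zfe h.1)).differentiableWithinAt)
      open_dom).mono hsub
  have e1 := hO Ψ _ hΨ hM.1 hM.2
  have e2 : ∀ᶠ q in 𝓝 (0 : ℂ), ‖zf q‖ < 1 / 64 := by
    have : ContinuousAt (fun q => ‖zf q‖) 0 := (diffAt_zf (by simp)).continuousAt.norm
    exact this.eventually (gt_mem_nhds (by simp [zf_zero]))
  obtain ⟨v, hv, hv2⟩ := ((eventually_gt_atTop (√7 / 8)).and
    (tendsto_e_ray.eventually (e1.and e2).eventually_nhds)).exists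
  have hmem : ray v ∈ ray '' Set.Ioi (√7 / 8) := ⟨v, hv, rfl⟩
  have e3 : (fun τ => Ψ (e τ)) =ᶠ[𝓝 (ray v)] fun τ => F (zf (e τ)) := by
    filter_upwards [cont_e.continuousAt.eventually hv2, open_dom.mem_nhds (hsub hmem)]
      with τ h1 h2
    exact h1.1.unique (hS _ h2.2 h1.2)
  have e4 := a1.eqOn_of_preconnected_of_eventuallyEq a2
    (isPreconnected_Ioi.image _ cont_ray.continuousOn) hmem e3
  have r0 : Tendsto ray (𝓝[>] (√7 / 8)) (𝓝 tau0) := by
    rw [← ray_zero]
    exact cont_ray.continuousAt.tendsto.mono_left nhdsWithin_le_nhds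
  have t1 : Tendsto (fun v => (Ψ (e (ray v))).im) (𝓝[>] (√7 / 8)) (𝓝 (Ψ (e tau0)).im) :=
    (Complex.continuous_im.tendsto _).comp ((dΨ _ tau0_im_pos).continuousAt.tendsto.comp r0)
  have t2 : Tendsto (fun v => zf (e (ray v))) (𝓝[>] (√7 / 8)) (𝓝[{z : ℂ | 0 < z.im}] 1) := by
    refine tendsto_nhdsWithin_iff.2 ⟨?_, ?_⟩
    · rw [← zf_tau0 hC hN]
      exact (diff_zfe tau0_im_pos).continuousAt.tendsto.comp r0
    · filter_upwards [self_mem_nhdsWithin] with v hv using zf_im_pos hC hN hv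
  have t3 : Tendsto (fun v => (Ψ (e (ray v))).im) (𝓝[>] (√7 / 8)) (𝓝 (π * mP)) := by
    refine (hL.comp t2).congr' ?_
    filter_upwards [self_mem_nhdsWithin] with v hv
    exact congrArg Complex.im (e4 ⟨v, hv, rfl⟩).symm
  rw [tendsto_nhds_unique t1 t3, hJ]
  ring

end RV7
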