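import Pool.Agent.Lib.RV7.Blue
import Pool.Agent.Lib.RV5.Cm

/-! Block CM: `exp (ℓ(τ₀)) = -1` from the transformation laws of the discriminant. -/

open Complex RV5
open RV5.Cm (Dl Dl_ne Dl_add Dl_S Dl_dup poch_R)
open scoped Real

namespace RV7

namespace Cm

lemma exp_ell_mul {t : ℂ} (h : 0 < t.im) : exp (ell t) * Dl t = Dl (2 * t) := by
  have hq := norm_e_lt h
  have c : e (2 * t) = e t ^ 2 := by simpa using e_mul 2 t
  have a : exp (ell t) = e t * exp (l0 (e t)) := by rw [ell, Complex.exp_add, e]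
  have k : exp (l0 (e t)) * exp (-R 1 (e t)) ^ 24 = exp (-R 1 (e t ^ 2)) ^ 24 := by
    simp only [← Complex.exp_nat_mul, ← Complex.exp_add, l0]
    congr 1
    push_cast
    ring
  simp only [Dl, a, c, poch_R hq, poch_R (norm_pow_lt hq two_ne_zero)]
  linear_combination e t ^ 2 * k

lemma tau0_eq : 8 * tau0 ^ 2 + 2 * tau0 + 1 = 0 := by
  rw [tau0]
  linear_combination (I ^ 2 / 8) * sqrt7_sq + (7 / 8) * Complex.I_sq

lemma main {t : ℂ} (h : 0 < t.im) (ht : 8 * t ^ 2 + 2 * t + 1 = 0) : exp (ell t) = -1 := by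
  have i4 : 0 < (4 * t).im := by simpa using h
  have ip : 0 < (4 * t + (1 : ℕ)).im := by simpa using h
  have im : 0 < (4 * t - 1).im := by simpa using h
  have a := exp_ell_mul h
  have b := Dl_dup h
  have s1 := Dl_S (u := 2 * t) ip (by push_cast; linear_combination ht)
  have s2 := Dl_S (u := t + 1 / 2) im (by linear_combination (1 / 2) * ht)
  rw [Dl_add] at s1
  rw [← Dl_add (4 * t - 1) 1, show 4 * t - 1 + (1 : ℕ) = 4 * t by push_cast; ring,
    show 4 * t - 1 = (4 * t + (1 : ℕ)) ^ 2 by push_cast; linear_combination (-2) * ht,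
    ← pow_mul, mul_comm 2 12, pow_mul] at s2
  have n4 := Dl_ne i4
  have n1 := Dl_ne h
  have z : (4 * t + (1 : ℕ)) ^ 12 ≠ 0 := pow_ne_zero _ fun h0 => by
    rw [h0] at ip
    simp at ip
  generalize exp (ell t) = X at *
  generalize Dl t = D1 at *
  generalize Dl (2 * t) = D2 at *
  generalize Dl (4 * t) = D4 at *
  generalize Dl (t + 1 / 2) = Dr at *
  generalize (4 * t + (1 : ℕ)) ^ 12 = s at *
  have e1 : D1 = -D2 := by
    refine mul_right_cancel₀ (pow_ne_zero 2 (mul_ne_zero z n4)) ?_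
    rw [s2, s1] at b
    rw [s1]
    linear_combination b
  refine mul_right_cancel₀ n1 ?_
  linear_combination a + e1

end Cm

theorem cm : CM := Cm.main tau0_im_pos Cm.tau0_eq

end RV7
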