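import Pool.Agent.Lib.RV7.Blue
import Pool.Agent.Lib.RV5.Bound

/-! Pointwise identities for the hermitian area cocycle. -/

open Complex
open scoped ComplexConjugate

namespace RV7.Ct

open RV5 RV5.Ct

abbrev C4 : Type := ℂ × ℂ × ℂ × ℂ

lemma ch_eq (h : C4) (a b : ℂ) :
    ch h a b = hf h (gA a b) (gB a b) - hf h (gB a b) (gA a b) := by
  simp only [ch, hf, RCLike.star_def]
  ring

lemma ch_lin (k : ℂ) (q q' : C4) (a b : ℂ) :
    ch (k * q.1 + q'.1, k * q.2.1 + q'.2.1, k * q.2.2.1 + q'.2.2.1, k * q.2.2.2 + q'.2.2.2) a b =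
      k * ch q a b + ch q' a b := by
  simp only [ch]
  ring

/-- pull-back of a gradient -/
def pb (D : ℂ) (u v X : ℂ × ℂ) : ℂ × ℂ := (D * (X.1 * u.1 + X.2 * v.1), D * (X.1 * u.2 + X.2 * v.2))

lemma ch_pb (h : C4) (D : ℂ) (u v : ℂ × ℂ) (a b : ℂ) :
    D * conj D * ch (ph h u v) a b = hf h (pb D u v (gA a b)) (pb D u v (gB a b)) -
      hf h (pb D u v (gB a b)) (pb D u v (gA a b)) := by
  simp only [ch_eq]
  generalize gA a b = X
  generalize gB a b = Y
  simp only [hf, ph, pb, RCLike.star_def, map_mul, map_add]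
  ring

lemma ch_pb1 (h : C4) (u v : ℂ × ℂ) (a b : ℂ) :
    ch (ph h u v) a b = hf h (pb 1 u v (gA a b)) (pb 1 u v (gB a b)) -
      hf h (pb 1 u v (gB a b)) (pb 1 u v (gA a b)) := by
  rw [← ch_pb, map_one, one_mul, one_mul]

/-- the alternating pairing -/
noncomputable def al (h : C4) (X Y : ℂ × ℂ) : ℂ := hf h X Y - hf h Y X

def cb (i j : ℤ) (X Y : ℂ × ℂ) : ℂ × ℂ := (i * X.1 + j * Y.1, i * X.2 + j * Y.2)

lemma al_comb (h : C4) (X Y : ℂ × ℂ) (i j k l : ℤ) :
    al h (cb i j X Y) (cb k l X Y) = (i * l - j * k) * al h X Y := by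
  simp only [al, hf, cb, RCLike.star_def, map_mul, map_add, map_intCast]
  ring

lemma ch_perm (i : ℕ) (h : C4) (p : ℂ × ℂ) :
    ch h p.1 p.2 = pS i * ch (ph h (pU i) (pV i)) (dot (pU i) p) (dot (pV i) p) := by
  obtain ⟨a, b⟩ := p
  by_cases e : a = 0 ∨ b = 0 ∨ a + b = 0
  · rw [ch_zero h e, ch_zero, mul_zero]
    have e' : a = 0 ∨ b = 0 ∨ -a + -b = 0 := by
      rcases e with e | e | e
      exacts [.inl e, .inr (.inl e), .inr (.inr (by linear_combination -e))]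
    match i with
    | 0 | 1 | 2 | 3 | 4 | (n + 5) =>
      simp only [pU, pV, dot, one_mul, zero_mul, add_zero, zero_add, neg_mul]
      rcases e with e | e | e <;>
        first
        | (left; linear_combination e)
        | (left; linear_combination -e)
        | (right; left; linear_combination e)
        | (right; left; linear_combination -e)
        | (right; right; linear_combination e)
        | (right; right; linear_combination -e)
  push Not at e
  obtain ⟨ha, hb, hab⟩ := e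
  have k : ∀ (s : ℂ) (u v : ℂ × ℂ) (a' b' : ℂ) (i j k l : ℤ),
      pb 1 u v (gA a' b') = cb i j (gA a b) (gB a b) →
      pb 1 u v (gB a' b') = cb k l (gA a b) (gB a b) → s * (i * l - j * k) = 1 →
      ch h a b = s * ch (ph h u v) a' b' := by
    intro s u v a' b' i j k l e1 e2 e3
    rw [ch_pb1, e1, e2, ← al, al_comb, ← mul_assoc, e3, one_mul, ch_eq]
    rfl
  have n0 : -a - b = -(a + b) := by ring
  have n1 : -b - -(a + b) = a := by ring
  have n2 : - -(a + b) - a = b := by ring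
  have n3 : -b - a = -(a + b) := by ring
  have n4 : - -(a + b) - b = a := by ring
  have n5 : -a - -(a + b) = b := by ring
  have m : -1 * a + -1 * b = -(a + b) := by ring
  match i with
  | 0 =>
    refine k _ _ _ _ _ 1 0 0 1 ?_ ?_ (by simp [pS]) <;> simp [pb, pU, pV, dot, cb]
  | 1 =>
    refine k _ _ _ _ _ 0 1 (-1) (-1) ?_ ?_ (by simp [pS]) <;> ext <;>
      simp only [pb, pU, pV, dot, gA, gB, m, one_mul, zero_mul, zero_add, add_zero, n0, n1, n2, n3,
        n4, n5, cb] <;>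
      field_simp <;> push_cast <;> ring
  | 2 =>
    refine k _ _ _ _ _ (-1) (-1) 1 0 ?_ ?_ (by simp [pS]) <;> ext <;>
      simp only [pb, pU, pV, dot, gA, gB, m, one_mul, zero_mul, zero_add, add_zero, n0, n1, n2, n3,
        n4, n5, cb] <;>
      field_simp <;> push_cast <;> ring
  | 3 =>
    refine k _ _ _ _ _ 1 0 (-1) (-1) ?_ ?_ (by simp [pS]) <;> ext <;>
      simp only [pb, pU, pV, dot, gA, gB, m, one_mul, zero_mul, zero_add, add_zero, n0, n1, n2, n3,
        n4, n5, cb] <;>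
      field_simp <;> push_cast <;> ring
  | 4 =>
    refine k _ _ _ _ _ 0 1 1 0 ?_ ?_ (by simp [pS]) <;> ext <;>
      simp only [pb, pU, pV, dot, gA, gB, m, one_mul, zero_mul, zero_add, add_zero, n0, n1, n2, n3,
        n4, n5, cb] <;>
      field_simp <;> push_cast <;> ring
  | (n + 5) =>
    refine k _ _ _ _ _ (-1) (-1) 0 1 ?_ ?_ (by rw [pS, if_neg (by omega)]; simp) <;> ext <;>
      simp only [pb, pU, pV, dot, gA, gB, m, one_mul, zero_mul, zero_add, add_zero, n0, n1, n2, n3,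
        n4, n5, cb] <;>
      field_simp <;> push_cast <;> ring

lemma htet_gen {z : ℂ} (h0 : z ≠ 0) (h1 : 1 - z ≠ 0) (h : C4) {a b : ℂ} (ha : a ≠ 0)
    (hb : b ≠ 0) (hab : a + b ≠ 0) (hd : z * a + b ≠ 0) :
    faceH z h (a, b) 0 + faceH z h (a, b) 1 + faceH z h (a, b) 2 + faceH z h (a, b) 3 = 0 := by
  have h1' : z - 1 ≠ 0 := fun h => h1 (by linear_combination -h)
  obtain ⟨Xb, eb⟩ : ∃ X : ℂ × ℂ, X = (-1 / (a ^ 2 * b), -1 / (a * b ^ 2)) := ⟨_, rfl⟩
  obtain ⟨Xc, ec⟩ : ∃ X : ℂ × ℂ, X = (-1 / (a ^ 2 * (a + b)) - 1 / (a * (a + b) ^ 2),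
    -1 / (a * (a + b) ^ 2)) := ⟨_, rfl⟩
  obtain ⟨Xd, ed⟩ : ∃ X : ℂ × ℂ, X = (-1 / (a ^ 2 * (z * a + b)) - z / (a * (z * a + b) ^ 2),
    -1 / (a * (z * a + b) ^ 2)) := ⟨_, rfl⟩
  have k : ∀ (D s : ℂ) (u v : ℂ × ℂ) (a' b' : ℂ) (W1 W2 : ℂ × ℂ), pb D u v (gA a' b') = W1 →
      pb D u v (gB a' b') = W2 →
      s * (D * conj D) * ch (ph h u v) a' b' = s * (hf h W1 W2 - hf h W2 W1) := by
    intro D s u v a' b' W1 W2 e1 e2
    rw [mul_assoc, ch_pb, e1, e2]
  have n1 : -((1 - z) * b) - z * (a + b) = -(z * a + b) := by ring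
  have n2 : -((z - 1) * a) - (a + b) = -(z * a + b) := by ring
  have n3 : -(z * a) - b = -(z * a + b) := by ring
  have n4 : -a - b = -(a + b) := by ring
  have m1 : z * a + z * b = z * (a + b) := by ring
  simp only [faceH]
  rw [k _ _ _ _ _ _ (Xc - Xb) (Xd - Xc), k _ _ _ _ _ _ Xc (Xd - Xc),
    k _ _ _ _ _ _ Xb (Xd - Xb), k _ _ _ _ _ _ Xb (Xc - Xb)]
  · simp only [fS, hf, Prod.fst_sub, Prod.snd_sub, star_sub]
    ring
  all_goals
    ext <;>
    simp only [pb, fU, fV, dt, dot, gA, gB, m1, eb, ec, ed, zero_mul, mul_zero, one_mul, mul_one,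
      zero_add, add_zero, sub_zero, zero_sub, n1, n2, n3, n4, Prod.fst_sub, Prod.snd_sub] <;>
    field_simp <;> ring

open Classical in
lemma htet_pt {z : ℂ} (h0 : z ≠ 0) (h1 : 1 - z ≠ 0) (q : C4) (p : ℂ × ℂ) :
    ∑ i ∈ Finset.range 4, (if dot (fL z i) p = 0 then 0 else faceH z q p i) = 0 := by
  obtain ⟨a, b⟩ := p
  have z0 : b = 0 ∨ a + b = 0 ∨ z * a + b = 0 → faceH z q (a, b) 0 = 0 := fun h => by
    rw [faceH, ch_zero, mul_zero]
    simp only [fU, fV, dot]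
    rcases h with h | h | h
    · left; simp [h]
    · right; left; linear_combination z * h
    · right; right; linear_combination h
  have z1 : a = 0 ∨ a + b = 0 ∨ z * a + b = 0 → faceH z q (a, b) 1 = 0 := fun h => by
    rw [faceH, ch_zero, mul_zero]
    simp only [fU, fV, dot]
    rcases h with h | h | h
    · left; simp [h]
    · right; left; linear_combination h
    · right; right; linear_combination h
  have z2 : a = 0 ∨ b = 0 ∨ z * a + b = 0 → faceH z q (a, b) 2 = 0 := fun h => by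
    rw [faceH, ch_zero, mul_zero]
    simp only [fU, fV, dot]
    rcases h with h | h | h
    · left; simp [h]
    · right; left; linear_combination h
    · right; right; linear_combination h
  have z3 : a = 0 ∨ b = 0 ∨ a + b = 0 → faceH z q (a, b) 3 = 0 := fun h => by
    rw [faceH, ch_zero, mul_zero]
    simp only [fU, fV, dot]
    rcases h with h | h | h
    · left; simp [h]
    · right; left; linear_combination h
    · right; right; linear_combination h
  have e2 : (-1 * a + -1 * b = 0) ↔ a + b = 0 :=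
    ⟨fun h => by linear_combination -h, fun h => by linear_combination -h⟩
  simp only [Finset.sum_range_succ, Finset.sum_range_zero, fL, dot, one_mul, zero_mul, add_zero,
    zero_add, e2]
  by_cases ha : a = 0
  · simp [z1 (.inl ha), z2 (.inl ha), z3 (.inl ha), if_pos ha]
  by_cases hb : b = 0
  · simp [z0 (.inl hb), z2 (.inr (.inl hb)), z3 (.inr (.inl hb)), if_pos hb]
  by_cases hc : a + b = 0
  · simp [z0 (.inr (.inl hc)), z1 (.inr (.inl hc)), z3 (.inr (.inr hc)), if_pos hc]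
  by_cases hd : z * a + b = 0
  · simp [z0 (.inr (.inr hd)), z1 (.inr (.inr hd)), z2 (.inr (.inr hd)), if_pos hd]
  rw [if_neg ha, if_neg hb, if_neg hc, if_neg hd]
  exact htet_gen h0 h1 q ha hb hc hd

lemma ch_le (h : C4) (a b : ℂ) :
    ‖ch h a b‖ ≤ 4 * (‖h.1‖ + ‖h.2.1‖ + ‖h.2.2.1‖ + ‖h.2.2.2‖) * MM a b := by
  obtain ⟨h1, h2, h3, h4⟩ := h
  have hM := MM_nonneg a b
  have e : ch (h1, h2, h3, h4) a b =
      h1 * ((gA a b).1 * conj (gB a b).1 - (gB a b).1 * conj (gA a b).1) +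
      h2 * ((gA a b).1 * conj (gB a b).2 - (gB a b).1 * conj (gA a b).2) +
      h3 * ((gA a b).2 * conj (gB a b).1 - (gB a b).2 * conj (gA a b).1) +
      h4 * (om a b - conj (om a b)) := by
    rw [← ch_om]
    simp only [ch]
    ring
  have n0 : ‖-a - b‖ = ‖a + b‖ := by rw [← norm_neg]; congr 1; ring
  have a1 : ‖(gA a b).1‖ = ‖a‖⁻¹ ^ 2 * ‖b‖⁻¹ := by
    simp only [gA, norm_div, norm_neg, norm_one, norm_mul, norm_pow]; ring
  have a2 : ‖(gA a b).2‖ = ‖a‖⁻¹ * ‖b‖⁻¹ ^ 2 := by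
    simp only [gA, norm_div, norm_neg, norm_one, norm_mul, norm_pow]; ring
  have b1 : ‖(gB a b).1‖ = ‖b‖⁻¹ * ‖a + b‖⁻¹ ^ 2 := by
    simp only [gB, norm_div, norm_one, norm_mul, norm_pow, n0]; ring
  have b2 : ‖(gB a b).2‖ ≤ ‖b‖⁻¹ ^ 2 * ‖a + b‖⁻¹ + ‖b‖⁻¹ * ‖a + b‖⁻¹ ^ 2 := by
    refine (norm_add_le _ _).trans_eq ?_
    simp only [norm_div, norm_neg, norm_one, norm_mul, norm_pow, n0]; ring
  obtain ⟨-, m2, m3, -⟩ := Bound.mono a b
  have m0 : ‖a‖⁻¹ ^ 2 * ‖b‖⁻¹ ^ 2 * ‖a + b‖⁻¹ ^ 2 ≤ MM a b := by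
    rw [Bound.MM_eq]
    generalize hx : ‖a‖⁻¹ = x
    generalize hy : ‖b‖⁻¹ = y
    generalize hz : ‖a + b‖⁻¹ = z
    have x0 : 0 ≤ x := by rw [← hx]; positivity
    have y0 : 0 ≤ y := by rw [← hy]; positivity
    have z0 : 0 ≤ z := by rw [← hz]; positivity
    have p0 := mul_nonneg x0 y0
    have r0 := mul_nonneg y0 z0
    have s0 := mul_nonneg z0 x0
    have : x ^ 2 * y ^ 2 * z ^ 2 = (x * y) * (y * z) * (z * x) := by ring
    rw [this]
    generalize x * y = p at *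
    generalize y * z = r at *
    generalize z * x = s at *
    nlinarith [mul_nonneg (add_nonneg (add_nonneg p0 r0) s0)
      (add_nonneg (add_nonneg (sq_nonneg (p - r)) (sq_nonneg (r - s))) (sq_nonneg (s - p))),
      mul_nonneg (mul_nonneg p0 r0) s0]
  have c12 : ‖(gA a b).1‖ * ‖(gB a b).2‖ ≤ 2 * MM a b := by
    rw [a1]
    calc _ ≤ ‖a‖⁻¹ ^ 2 * ‖b‖⁻¹ * (‖b‖⁻¹ ^ 2 * ‖a + b‖⁻¹ + ‖b‖⁻¹ * ‖a + b‖⁻¹ ^ 2) := by gcongr
      _ ≤ _ := by nlinarith
  have c11 : ‖(gA a b).1‖ * ‖(gB a b).1‖ ≤ MM a b := by rw [a1, b1]; nlinarith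
  have c21 : ‖(gA a b).2‖ * ‖(gB a b).1‖ ≤ MM a b := by rw [a2, b1]; nlinarith
  have t : ∀ {c m : ℂ}, ‖m‖ ≤ 4 * MM a b → ‖c * m‖ ≤ ‖c‖ * (4 * MM a b) := fun h => by
    rw [norm_mul]; gcongr
  rw [e]
  refine (norm_add_le_of_le (norm_add_le_of_le (norm_add_le_of_le (t ?_) (t ?_)) (t ?_))
    (t ?_)).trans_eq (by ring)
  · refine (norm_sub_le _ _).trans ?_
    simp only [norm_mul, Complex.norm_conj]; nlinarith
  · refine (norm_sub_le _ _).trans ?_
    simp only [norm_mul, Complex.norm_conj]; nlinarith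
  · refine (norm_sub_le _ _).trans ?_
    simp only [norm_mul, Complex.norm_conj]; nlinarith
  · rw [Complex.sub_conj, norm_mul, Complex.norm_I, mul_one, Complex.norm_real, Real.norm_eq_abs,
      abs_mul, abs_two]
    linarith [Bound.om_le a b]

end RV7.Ct

theorem RV7.chp : RV7.CHP :=
  ⟨RV7.Ct.ch_perm, fun _ h0 h1 h p => by simpa using RV7.Ct.htet_pt h0 h1 h p⟩

theorem RV7.boundH : RV7.BOUNDH := ⟨4, by norm_num, RV7.Ct.ch_le⟩
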