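import Pool.Agent.Lib.RV7.CtD

/-! The certificate: a 3-chain of ideal tetrahedra for `ℚ(√-7)` with Hecke relations. -/

namespace RV7.Ct

def atoms : List L4 := [
  ⟨(⟨1,0⟩,⟨-1,0⟩),(⟨0,1⟩,⟨0,-1⟩),(⟨0,0⟩,⟨-1,1⟩),(⟨0,0⟩,⟨-2,0⟩)⟩,
  ⟨(⟨-1,1⟩,⟨0,0⟩),(⟨1,0⟩,⟨0,0⟩),(⟨0,0⟩,⟨-1,1⟩),(⟨0,0⟩,⟨4,0⟩)⟩,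
  ⟨(⟨-1,1⟩,⟨0,0⟩),(⟨2,0⟩,⟨0,0⟩),(⟨0,0⟩,⟨-1,1⟩),(⟨0,0⟩,⟨4,0⟩)⟩,
  ⟨(⟨1,0⟩,⟨0,0⟩),(⟨0,1⟩,⟨0,0⟩),(⟨0,0⟩,⟨1/2,0⟩),(⟨0,0⟩,⟨0,1/2⟩)⟩,
  ⟨(⟨1,0⟩,⟨0,0⟩),(⟨0,1⟩,⟨0,0⟩),(⟨0,0⟩,⟨-1/2,1/4⟩),(⟨0,0⟩,⟨-1/2,-1/4⟩)⟩,
  ⟨(⟨1,0⟩,⟨-1,0⟩),(⟨0,1⟩,⟨0,-1⟩),(⟨0,0⟩,⟨-2,2⟩),(⟨0,0⟩,⟨-4,0⟩)⟩,
  ⟨(⟨1,0⟩,⟨0,0⟩),(⟨0,1⟩,⟨0,0⟩),(⟨0,0⟩,⟨-1/2,1/2⟩),(⟨0,0⟩,⟨-1,0⟩)⟩,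
  ⟨(⟨1,0⟩,⟨0,0⟩),(⟨0,1⟩,⟨0,0⟩),(⟨0,0⟩,⟨1,0⟩),(⟨0,0⟩,⟨0,1⟩)⟩,
  ⟨(⟨1,0⟩,⟨0,1/2⟩),(⟨0,1⟩,⟨-1,1/2⟩),(⟨0,0⟩,⟨1,0⟩),(⟨0,0⟩,⟨0,1⟩)⟩,
  ⟨(⟨1,0⟩,⟨-1,0⟩),(⟨0,1⟩,⟨0,-1⟩),(⟨0,0⟩,⟨-1,1/2⟩),(⟨0,0⟩,⟨-1,-1/2⟩)⟩,
  ⟨(⟨1,0⟩,⟨-1/2,0⟩),(⟨0,1⟩,⟨0,-1/2⟩),(⟨0,0⟩,⟨-1/2,1/2⟩),(⟨0,0⟩,⟨-1,0⟩)⟩]

def atm (j : ℕ) : L4 := atoms.getD j ⟨0, 0, 0, 0⟩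

def tg1 : TC := ⟨0,2,⟨-1,0⟩,⟨(-1,1,0,0),(1,0,0,0),(-1,1,1,0),(2,0,0,-1)⟩,⟨(0,1,0,0),(1,1,0,0),(-1,0,1,0),(0,2,0,-1)⟩⟩

def tg2 : TC := ⟨1,0,⟨1,0⟩,⟨(1,0,0,0),(0,1,0,0),(0,0,1,0),(0,0,0,1)⟩,⟨(1,0,0,0),(0,1,0,0),(0,0,1,0),(0,0,0,1)⟩⟩

def tg3 : TC := ⟨2,0,⟨1,0⟩,⟨(1,0,0,0),(0,1,0,0),(0,0,1,0),(0,0,0,1)⟩,⟨(1,0,0,0),(0,1,0,0),(0,0,1,0),(0,0,0,1)⟩⟩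

def rz0 : R2 :=
  ⟨⟨(⟨0,0⟩,⟨-1,1⟩),(⟨0,0⟩,⟨2,0⟩),(⟨-1,1⟩,⟨0,0⟩),(⟨1,0⟩,⟨0,0⟩)⟩,
    ((⟨0,0⟩,⟨0,0⟩,⟨2,0⟩),
     (⟨0,0⟩,⟨0,0⟩,⟨0,0⟩,⟨2,0⟩)),
    (0,0,0,1),
    (0,0,1/2,1/2),
    ⟨3,1,⟨1/2,0⟩,⟨(-1,1,2,-2),(1,0,-2,0),(0,0,1,-1),(0,0,-1,0)⟩,⟨(0,1,0,-2),(1,1,-2,-2),(0,0,0,-1),(0,0,-1,-1)⟩⟩,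
    ⟨1,0,⟨1,0⟩,⟨(0,0,1,0),(0,0,0,1),(1,0,0,0),(0,1,0,0)⟩,⟨(0,0,1,0),(0,0,0,1),(1,0,0,0),(0,1,0,0)⟩⟩,
    ⟨4,1,⟨1/2,-1/4⟩,⟨(1,0,1,1),(2,-1,4,0),(0,0,-1,1),(0,0,1,0)⟩,⟨(1,0,-1,-2),(2,-1,-2,0),(0,0,0,1),(0,0,1,1)⟩⟩,
    ⟨0,2,⟨-1,0⟩,⟨(-1,1,1,0),(2,0,0,-1),(-1,1,0,0),(1,0,0,0)⟩,⟨(0,0,0,1),(0,0,1,1),(1,0,-1,0),(0,-1,0,2)⟩⟩,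
    ⟨5,2,⟨-1,0⟩,⟨(-2,2,1,0),(4,0,0,-1),(-1,1,0,0),(1,0,0,0)⟩,⟨(0,0,0,1),(0,0,1,1),(1,0,-2,0),(0,-1,0,4)⟩⟩⟩

def rz1 : R2 :=
  ⟨⟨(⟨0,0⟩,⟨-1,1⟩),(⟨0,0⟩,⟨2,0⟩),(⟨-1,1⟩,⟨0,0⟩),(⟨2,0⟩,⟨0,0⟩)⟩,
    ((⟨0,0⟩,⟨0,0⟩,⟨-10,0⟩),
     (⟨0,0⟩,⟨0,0⟩,⟨0,0⟩,⟨-10,0⟩)),
    (0,0,0,1),
    (0,0,1/2,1/2),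
    ⟨6,1,⟨1/2,0⟩,⟨(-1,1,-2,0),(1,0,0,1),(0,0,-1,0),(0,0,0,1)⟩,⟨(0,1,0,-1),(1,1,-2,-1),(0,0,-1,0),(0,0,0,1)⟩⟩,
    ⟨2,0,⟨1,0⟩,⟨(0,0,1,0),(0,0,0,1),(1,0,0,0),(0,1,0,0)⟩,⟨(0,0,1,0),(0,0,0,1),(1,0,0,0),(0,1,0,0)⟩⟩,
    ⟨0,2,⟨0,1/2⟩,⟨(1,-1,-1,0),(0,-2,-2,1),(1,0,0,0),(0,-1,0,0)⟩,⟨(0,0,1,0),(0,0,0,-1),(-1,0,1,1),(-2,1,2,0)⟩⟩,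
    ⟨7,0,⟨0,-1/2⟩,⟨(0,0,1,0),(0,0,0,-1),(1,0,0,0),(0,-1,0,0)⟩,⟨(0,0,1,0),(0,0,0,-1),(1,0,0,0),(0,-1,0,0)⟩⟩,
    ⟨3,1,⟨0,-1/4⟩,⟨(1,0,-2,0),(0,-1,0,2),(0,0,-1,0),(0,0,0,1)⟩,⟨(1,0,-2,0),(0,-1,0,2),(0,0,-1,0),(0,0,0,1)⟩⟩⟩

def rt0 : RT :=
  ⟨⟨-1,0⟩,
    ⟨(⟨1,0⟩,⟨-1,0⟩),(⟨0,1⟩,⟨0,-1⟩),(⟨0,0⟩,⟨-1,1/2⟩),(⟨0,0⟩,⟨-1,-1/2⟩)⟩,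
    ((⟨0,0⟩,⟨1/32,-3/64⟩,⟨0,0⟩),
     (⟨0,0⟩,⟨-25/128,7/128⟩,⟨41/128,-7/128⟩,⟨0,0⟩)),
    ⟨8,0,⟨-1/2,1/2⟩,⟨(1,-1,-1,0),(2,0,0,-1),(0,-1,-1,1),(2,-1,-2,0)⟩,⟨(-1,1,1,0),(-2,0,0,1),(0,1,1,-1),(-2,1,2,0)⟩⟩,
    ⟨4,0,⟨-1/2,0⟩,⟨(1,0,0,0),(0,1,0,0),(0,0,-1,0),(0,0,0,-1)⟩,⟨(1,0,0,0),(0,1,0,0),(0,0,-1,0),(0,0,0,-1)⟩⟩,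
    ⟨9,0,⟨-1,0⟩,⟨(1,0,-1,-1),(0,1,2,-2),(0,0,-1,0),(0,0,0,-1)⟩,⟨(1,0,-1,-1),(0,1,2,-2),(0,0,-1,0),(0,0,0,-1)⟩⟩,
    ⟨9,0,⟨1,0⟩,⟨(1,0,0,0),(0,1,0,0),(0,0,1,0),(0,0,0,1)⟩,⟨(1,0,0,0),(0,1,0,0),(0,0,1,0),(0,0,0,1)⟩⟩,
    ⟨⟨(1,0,0,0),(0,1,0,0),(0,0,1,0),(0,0,0,1)⟩,⟨(1,0,0,0),(0,1,0,0),(0,0,1,0),(0,0,0,1)⟩,⟨-2,1⟩,⟨1,-1/2⟩⟩,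
    ⟨⟨(-1,1,1,0),(-2,0,0,1),(0,1,1,-1),(-2,1,2,0)⟩,⟨(1,-1,-1,0),(2,0,0,-1),(0,-1,-1,1),(2,-1,-2,0)⟩,⟨0,-2⟩,⟨0,1⟩⟩,
    ⟨⟨(0,0,1,0),(0,0,0,1),(1,0,0,0),(0,1,0,0)⟩,⟨(0,0,1,0),(0,0,0,1),(1,0,0,0),(0,1,0,0)⟩,⟨-1,0⟩,⟨-1,0⟩⟩,
    ⟨⟨(0,0,1,0),(0,0,0,1),(1,0,-1,-1),(0,1,2,-2)⟩,⟨(1,1,1,0),(-2,2,0,1),(1,0,0,0),(0,1,0,0)⟩,⟨1,0⟩,⟨1,0⟩⟩⟩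

def rt1 : RT :=
  ⟨⟨-1,0⟩,
    ⟨(⟨1,0⟩,⟨0,0⟩),(⟨0,1⟩,⟨0,0⟩),(⟨0,0⟩,⟨-1,1⟩),(⟨0,0⟩,⟨-2,0⟩)⟩,
    ((⟨0,0⟩,⟨1/8,0⟩,⟨0,0⟩),
     (⟨0,0⟩,⟨1/4,0⟩,⟨0,0⟩,⟨0,0⟩)),
    ⟨5,1,⟨-1,0⟩,⟨(1,0,0,0),(0,1,0,0),(-1,1,1,0),(-2,0,0,1)⟩,⟨(1,0,0,0),(0,1,0,0),(1,-1,1,0),(2,0,0,1)⟩⟩,
    ⟨10,0,⟨-1/2,0⟩,⟨(1,0,0,0),(0,1,0,0),(0,0,-1,0),(0,0,0,-1)⟩,⟨(1,0,0,0),(0,1,0,0),(0,0,-1,0),(0,0,0,-1)⟩⟩,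
    ⟨0,2,⟨1,0⟩,⟨(1,0,0,0),(0,1,0,0),(1,-1,-1,0),(2,0,0,-1)⟩,⟨(1,0,0,0),(0,1,0,0),(1,-1,-1,0),(2,0,0,-1)⟩⟩,
    ⟨0,2,⟨-1,0⟩,⟨(1,0,0,0),(0,1,0,0),(-1,1,1,0),(-2,0,0,1)⟩,⟨(1,0,0,0),(0,1,0,0),(1,-1,1,0),(2,0,0,1)⟩⟩,
    ⟨⟨(1,0,0,0),(0,1,0,0),(0,0,1,0),(0,0,0,1)⟩,⟨(1,0,0,0),(0,1,0,0),(0,0,1,0),(0,0,0,1)⟩,⟨-2,2⟩,⟨1,-1⟩⟩,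
    ⟨⟨(0,0,1,0),(0,0,0,1),(1,0,0,0),(0,1,0,0)⟩,⟨(0,0,1,0),(0,0,0,1),(1,0,0,0),(0,1,0,0)⟩,⟨-2,0⟩,⟨1,0⟩⟩,
    ⟨⟨(1,0,0,0),(0,1,0,0),(-1,1,-1,0),(-2,0,0,-1)⟩,⟨(1,0,0,0),(0,1,0,0),(-1,1,-1,0),(-2,0,0,-1)⟩,⟨1,-1⟩,⟨1,-1⟩⟩,
    ⟨⟨(1,0,0,0),(0,1,0,0),(-1,1,1,0),(-2,0,0,1)⟩,⟨(1,0,0,0),(0,1,0,0),(1,-1,1,0),(2,0,0,1)⟩,⟨-1,1⟩,⟨-1,1⟩⟩⟩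

def rt2 : RT :=
  ⟨⟨0,1⟩,
    ⟨(⟨1,0⟩,⟨0,0⟩),(⟨0,1⟩,⟨0,0⟩),(⟨0,0⟩,⟨1,0⟩),(⟨0,0⟩,⟨0,1⟩)⟩,
    ((⟨-1/4,1/8⟩,⟨1/8,-1/16⟩,⟨0,0⟩),
     (⟨19/128,19/128⟩,⟨-19/128,-19/128⟩,⟨0,0⟩,⟨-7/32,0⟩)),
    ⟨9,5,⟨0,1/2⟩,⟨(0,0,-1,0),(0,0,0,-1),(1,0,-1,0),(0,1,0,-1)⟩,⟨(-1,0,1,0),(0,-1,0,1),(-1,0,0,0),(0,-1,0,0)⟩⟩,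
    ⟨0,1,⟨1,0⟩,⟨(1,0,-1,0),(0,1,0,-1),(1,0,0,0),(0,1,0,0)⟩,⟨(0,0,1,0),(0,0,0,1),(-1,0,1,0),(0,-1,0,1)⟩⟩,
    ⟨6,0,⟨1/2,-1/2⟩,⟨(1,0,0,0),(0,1,0,0),(0,0,-1,0),(0,0,0,-1)⟩,⟨(1,0,0,0),(0,1,0,0),(0,0,-1,0),(0,0,0,-1)⟩⟩,
    ⟨7,0,⟨1,0⟩,⟨(1,0,0,0),(0,1,0,0),(0,0,1,0),(0,0,0,1)⟩,⟨(1,0,0,0),(0,1,0,0),(0,0,1,0),(0,0,0,1)⟩⟩,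
    ⟨⟨(1,0,0,0),(0,1,0,0),(0,0,1,0),(0,0,0,1)⟩,⟨(1,0,0,0),(0,1,0,0),(0,0,1,0),(0,0,0,1)⟩,⟨1,-1⟩,⟨0,1⟩⟩,
    ⟨⟨(0,0,1,0),(0,0,0,1),(1,0,0,0),(0,1,0,0)⟩,⟨(0,0,1,0),(0,0,0,1),(1,0,0,0),(0,1,0,0)⟩,⟨-1,1⟩,⟨1,0⟩⟩,
    ⟨⟨(1,0,0,0),(0,1,0,0),(1,0,-1,0),(0,1,0,-1)⟩,⟨(1,0,0,0),(0,1,0,0),(1,0,-1,0),(0,1,0,-1)⟩,⟨0,1⟩,⟨-1,0⟩⟩,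
    ⟨⟨(0,0,1,0),(0,0,0,1),(1,0,0,-1),(0,1,2,-1)⟩,⟨(0,1,1,0),(-2,1,0,1),(1,0,0,0),(0,1,0,0)⟩,⟨1,0⟩,⟨0,-1⟩⟩⟩

def rh2 : R2 :=
  ⟨⟨(⟨1,0⟩,⟨-1,0⟩),(⟨0,0⟩,⟨-1,1⟩),(⟨0,1⟩,⟨0,-1⟩),(⟨0,0⟩,⟨-2,0⟩)⟩,
    ((⟨2,-1⟩,⟨0,0⟩,⟨0,0⟩),
     (⟨-1/4,0⟩,⟨-5/2,0⟩,⟨0,0⟩,⟨0,0⟩)),
    (1,0,0,0),
    (0,1,0,1),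
    ⟨9,4,⟨0,1/2⟩,⟨(0,0,-1,1),(1,0,0,0),(0,0,-1,0),(0,1,0,0)⟩,⟨(0,1,0,0),(0,0,0,1),(0,0,-1,0),(1,0,-1,0)⟩⟩,
    ⟨3,2,⟨1/2,0⟩,⟨(0,0,1,0),(1,-1,0,0),(0,0,0,1),(1,0,0,0)⟩,⟨(0,0,0,1),(0,-1,0,1),(1,0,0,0),(0,0,1,0)⟩⟩,
    ⟨9,2,⟨0,1/2⟩,⟨(1,0,0,-1),(2,0,-1,-1),(0,0,1,0),(0,1,1,-1)⟩,⟨(-1,1,1,0),(-2,1,0,1),(0,0,1,0),(-2,1,1,0)⟩⟩,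
    ⟨0,0,⟨1,0⟩,⟨(1,0,0,0),(0,0,1,0),(0,1,0,0),(0,0,0,1)⟩,⟨(1,0,0,0),(0,0,1,0),(0,1,0,0),(0,0,0,1)⟩⟩,
    ⟨0,0,⟨1/2,-1/2⟩,⟨(1,-1,0,0),(0,0,1,-1),(1,0,0,0),(0,0,1,0)⟩,⟨(0,0,1,0),(-1,0,1,0),(0,0,0,1),(0,-1,0,1)⟩⟩⟩

def rh3 : R2 :=
  ⟨⟨(⟨1,0⟩,⟨-1,0⟩),(⟨0,0⟩,⟨-1,1⟩),(⟨1,-1⟩,⟨-1,1⟩),(⟨0,0⟩,⟨1,1⟩)⟩,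
    ((⟨-1,0⟩,⟨0,0⟩,⟨0,0⟩),
     (⟨-1,0⟩,⟨33/8,-7/8⟩,⟨0,0⟩,⟨0,0⟩)),
    (1,1,0,0),
    (-1/2,1/2,-1/2,1/2),
    ⟨7,0,⟨0,1/2⟩,⟨(0,1,0,-1),(0,0,-1,0),(1,0,-1,0),(0,0,-1,1)⟩,⟨(0,-1,1,0),(1,-1,0,1),(0,-1,0,0),(0,-1,0,1)⟩⟩,
    ⟨4,2,⟨-1/2,1/4⟩,⟨(0,0,1,0),(0,1,0,0),(0,0,1,-1),(1,0,0,0)⟩,⟨(0,0,0,1),(0,1,0,0),(1,0,0,0),(1,0,-1,0)⟩⟩,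
    ⟨8,2,⟨0,1/2⟩,⟨(1,0,0,0),(2,0,0,-1),(0,0,1,0),(1,-1,-1,0)⟩,⟨(1,0,0,0),(1,0,-1,-1),(0,0,1,0),(2,-1,0,0)⟩⟩,
    ⟨0,0,⟨1,0⟩,⟨(1,0,0,0),(0,0,1,0),(1,-1,0,0),(0,0,1,-1)⟩,⟨(1,0,0,0),(1,0,-1,0),(0,1,0,0),(0,1,0,-1)⟩⟩,
    ⟨0,0,⟨0,1/2⟩,⟨(0,1,0,0),(0,0,0,1),(1,0,0,0),(0,0,1,0)⟩,⟨(0,0,1,0),(1,0,0,0),(0,0,0,1),(0,1,0,0)⟩⟩⟩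

def rh4 : R2 :=
  ⟨⟨(⟨1,0⟩,⟨0,0⟩),(⟨0,0⟩,⟨1/2,0⟩),(⟨1,-1⟩,⟨0,0⟩),(⟨0,0⟩,⟨1/2,-1/2⟩)⟩,
    ((⟨-1/32,0⟩,⟨0,0⟩,⟨0,0⟩),
     (⟨0,0⟩,⟨-1/32,0⟩,⟨0,0⟩,⟨0,0⟩)),
    (1,1,0,0),
    (0,0,2,2),
    ⟨5,1,⟨2,0⟩,⟨(0,0,0,1),(1,0,0,0),(0,0,1,0),(1,-1,0,0)⟩,⟨(0,1,0,0),(0,1,0,-1),(0,0,1,0),(1,0,0,0)⟩⟩,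
    ⟨6,0,⟨1,0⟩,⟨(1,0,0,0),(0,0,0,-1),(1,-1,0,0),(0,0,-1,0)⟩,⟨(1,0,0,0),(1,0,-1,0),(0,0,0,-1),(0,-1,0,0)⟩⟩,
    ⟨10,0,⟨1,0⟩,⟨(1,0,0,-1),(0,0,0,-1),(1,-1,-1,0),(0,0,-1,0)⟩,⟨(1,-1,0,0),(1,-1,-1,1),(0,0,0,-1),(0,-1,0,0)⟩⟩,
    ⟨3,0,⟨1,0⟩,⟨(1,0,0,0),(0,0,1,0),(1,-1,0,0),(0,0,1,-1)⟩,⟨(1,0,0,0),(1,0,-1,0),(0,1,0,0),(0,1,0,-1)⟩⟩,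
    ⟨3,0,⟨0,1/2⟩,⟨(0,1,0,0),(0,0,0,1),(1,0,0,0),(0,0,1,0)⟩,⟨(0,0,1,0),(1,0,0,0),(0,0,0,1),(0,1,0,0)⟩⟩⟩

def rs0 : RS :=
  ⟨⟨(⟨1,0⟩,⟨0,0⟩),(⟨0,1⟩,⟨0,0⟩),(⟨0,0⟩,⟨1,0⟩),(⟨0,0⟩,⟨0,1⟩)⟩,
    ((⟨-7/8,7/16⟩,⟨0,0⟩,⟨0,0⟩),
     (⟨223/256,19/256⟩,⟨0,0⟩,⟨0,0⟩,⟨0,0⟩)),
    ⟨7,0,⟨1,0⟩,⟨(1,0,0,0),(0,1,0,0),(0,0,1,0),(0,0,0,1)⟩,⟨(1,0,0,0),(0,1,0,0),(0,0,1,0),(0,0,0,1)⟩⟩,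
    ⟨7,1,⟨1,0⟩,⟨(0,0,-1,0),(0,0,0,-1),(1,0,-1,0),(0,1,0,-1)⟩,⟨(-1,0,1,0),(0,-1,0,1),(-1,0,0,0),(0,-1,0,0)⟩⟩⟩

def rs1 : RS :=
  ⟨⟨(⟨1,0⟩,⟨0,0⟩),(⟨0,1⟩,⟨0,0⟩),(⟨0,0⟩,⟨1,0⟩),(⟨0,0⟩,⟨0,1⟩)⟩,
    ((⟨1/8,-1/16⟩,⟨0,0⟩,⟨0,0⟩),
     (⟨0,0⟩,⟨0,0⟩,⟨0,0⟩,⟨0,0⟩)),
    ⟨7,0,⟨1,0⟩,⟨(1,0,0,0),(0,1,0,0),(0,0,1,0),(0,0,0,1)⟩,⟨(1,0,0,0),(0,1,0,0),(0,0,1,0),(0,0,0,1)⟩⟩,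
    ⟨7,2,⟨-1,0⟩,⟨(1,0,-1,0),(0,1,0,-1),(1,0,0,0),(0,1,0,0)⟩,⟨(0,0,1,0),(0,0,0,1),(-1,0,1,0),(0,-1,0,1)⟩⟩⟩

def rs2 : RS :=
  ⟨⟨(⟨1,0⟩,⟨0,0⟩),(⟨0,1⟩,⟨0,0⟩),(⟨0,0⟩,⟨1,0⟩),(⟨0,0⟩,⟨0,1⟩)⟩,
    ((⟨1/2,-1/4⟩,⟨0,0⟩,⟨0,0⟩),
     (⟨-153/256,19/256⟩,⟨0,0⟩,⟨0,0⟩,⟨0,0⟩)),
    ⟨7,0,⟨1,0⟩,⟨(1,0,0,0),(0,1,0,0),(0,0,1,0),(0,0,0,1)⟩,⟨(1,0,0,0),(0,1,0,0),(0,0,1,0),(0,0,0,1)⟩⟩,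
    ⟨7,3,⟨1,0⟩,⟨(0,0,1,0),(0,0,0,1),(1,0,0,0),(0,1,0,0)⟩,⟨(0,0,1,0),(0,0,0,1),(1,0,0,0),(0,1,0,0)⟩⟩⟩

def rs3 : RS :=
  ⟨⟨(⟨1,0⟩,⟨0,1/2⟩),(⟨0,1⟩,⟨-1,1/2⟩),(⟨0,0⟩,⟨1,0⟩),(⟨0,0⟩,⟨0,1⟩)⟩,
    ((⟨-1/16,1/32⟩,⟨0,0⟩,⟨0,0⟩),
     (⟨-25/128,7/128⟩,⟨33/128,-7/128⟩,⟨0,0⟩,⟨0,0⟩)),
    ⟨8,0,⟨1,0⟩,⟨(1,0,0,0),(0,1,0,0),(0,0,1,0),(0,0,0,1)⟩,⟨(1,0,0,0),(0,1,0,0),(0,0,1,0),(0,0,0,1)⟩⟩,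
    ⟨8,5,⟨1,0⟩,⟨(1,0,-1,-1),(0,1,2,-2),(0,0,-1,0),(0,0,0,-1)⟩,⟨(1,0,-1,-1),(0,1,2,-2),(0,0,-1,0),(0,0,0,-1)⟩⟩⟩

def rs4 : RS :=
  ⟨⟨(⟨1,0⟩,⟨-1,0⟩),(⟨0,1⟩,⟨0,-1⟩),(⟨0,0⟩,⟨-1,1⟩),(⟨0,0⟩,⟨-2,0⟩)⟩,
    ((⟨1,-1/2⟩,⟨-1/8,1/8⟩,⟨0,0⟩),
     (⟨5/48,1/6⟩,⟨59/48,-1/3⟩,⟨0,0⟩,⟨0,0⟩)),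
    ⟨0,0,⟨1,0⟩,⟨(1,0,0,0),(0,1,0,0),(0,0,1,0),(0,0,0,1)⟩,⟨(1,0,0,0),(0,1,0,0),(0,0,1,0),(0,0,0,1)⟩⟩,
    ⟨0,3,⟨-1,0⟩,⟨(1,0,0,0),(0,1,0,0),(1,-1,-1,0),(2,0,0,-1)⟩,⟨(1,0,0,0),(0,1,0,0),(1,-1,-1,0),(2,0,0,-1)⟩⟩⟩

def rs5 : RS :=
  ⟨⟨(⟨1,0⟩,⟨-1/2,0⟩),(⟨0,1⟩,⟨0,-1/2⟩),(⟨0,0⟩,⟨-1/2,1/2⟩),(⟨0,0⟩,⟨-1,0⟩)⟩,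
    ((⟨1/64,0⟩,⟨0,0⟩,⟨0,0⟩),
     (⟨0,0⟩,⟨1/64,0⟩,⟨0,0⟩,⟨0,0⟩)),
    ⟨10,0,⟨1,0⟩,⟨(1,0,0,0),(0,1,0,0),(0,0,1,0),(0,0,0,1)⟩,⟨(1,0,0,0),(0,1,0,0),(0,0,1,0),(0,0,0,1)⟩⟩,
    ⟨10,5,⟨1,0⟩,⟨(1,0,0,0),(0,1,0,0),(0,0,-1,0),(0,0,0,-1)⟩,⟨(1,0,0,0),(0,1,0,0),(0,0,-1,0),(0,0,0,-1)⟩⟩⟩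

def rs6 : RS :=
  ⟨⟨(⟨1,0⟩,⟨0,0⟩),(⟨0,1⟩,⟨0,0⟩),(⟨0,0⟩,⟨-1/2,1/2⟩),(⟨0,0⟩,⟨-1,0⟩)⟩,
    ((⟨5/32,-1/32⟩,⟨0,1/64⟩,⟨0,0⟩),
     (⟨71/384,-19/384⟩,⟨31/768,19/768⟩,⟨0,0⟩,⟨0,0⟩)),
    ⟨6,0,⟨1,0⟩,⟨(1,0,0,0),(0,1,0,0),(0,0,1,0),(0,0,0,1)⟩,⟨(1,0,0,0),(0,1,0,0),(0,0,1,0),(0,0,0,1)⟩⟩,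
    ⟨6,5,⟨1,0⟩,⟨(1,0,0,1),(0,1,-2,1),(0,0,-1,0),(0,0,0,-1)⟩,⟨(1,0,0,1),(0,1,-2,1),(0,0,-1,0),(0,0,0,-1)⟩⟩⟩

def rs7 : RS :=
  ⟨⟨(⟨1,0⟩,⟨0,0⟩),(⟨0,1⟩,⟨0,0⟩),(⟨0,0⟩,⟨-1/2,1/4⟩),(⟨0,0⟩,⟨-1/2,-1/4⟩)⟩,
    ((⟨-1/256,3/512⟩,⟨0,0⟩,⟨0,0⟩),
     (⟨-41/1024,7/1024⟩,⟨33/1024,-7/1024⟩,⟨0,0⟩,⟨0,0⟩)),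
    ⟨4,0,⟨1,0⟩,⟨(1,0,0,0),(0,1,0,0),(0,0,1,0),(0,0,0,1)⟩,⟨(1,0,0,0),(0,1,0,0),(0,0,1,0),(0,0,0,1)⟩⟩,
    ⟨4,5,⟨1,0⟩,⟨(1,0,1,1),(0,1,-2,2),(0,0,-1,0),(0,0,0,-1)⟩,⟨(1,0,1,1),(0,1,-2,2),(0,0,-1,0),(0,0,0,-1)⟩⟩⟩

def rs8 : RS :=
  ⟨⟨(⟨1,0⟩,⟨0,0⟩),(⟨0,1⟩,⟨0,0⟩),(⟨0,0⟩,⟨1/2,0⟩),(⟨0,0⟩,⟨0,1/2⟩)⟩,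
    ((⟨-3/128,-1/256⟩,⟨0,0⟩,⟨0,0⟩),
     (⟨-7/256,0⟩,⟨-5/128,0⟩,⟨0,0⟩,⟨0,0⟩)),
    ⟨3,0,⟨1,0⟩,⟨(1,0,0,0),(0,1,0,0),(0,0,1,0),(0,0,0,1)⟩,⟨(1,0,0,0),(0,1,0,0),(0,0,1,0),(0,0,0,1)⟩⟩,
    ⟨3,5,⟨1,0⟩,⟨(1,0,-2,0),(0,1,0,-2),(0,0,-1,0),(0,0,0,-1)⟩,⟨(1,0,-2,0),(0,1,0,-2),(0,0,-1,0),(0,0,0,-1)⟩⟩⟩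

def rs9 : RS :=
  ⟨⟨(⟨1,0⟩,⟨-1,0⟩),(⟨0,1⟩,⟨0,-1⟩),(⟨0,0⟩,⟨-2,2⟩),(⟨0,0⟩,⟨-4,0⟩)⟩,
    ((⟨3,0⟩,⟨0,0⟩,⟨0,0⟩),
     (⟨3,0⟩,⟨-1,0⟩,⟨0,0⟩,⟨0,0⟩)),
    ⟨5,0,⟨1,0⟩,⟨(1,0,0,0),(0,1,0,0),(0,0,1,0),(0,0,0,1)⟩,⟨(1,0,0,0),(0,1,0,0),(0,0,1,0),(0,0,0,1)⟩⟩,
    ⟨5,3,⟨-1,0⟩,⟨(1,0,0,0),(0,1,0,0),(2,-2,-1,0),(4,0,0,-1)⟩,⟨(1,0,0,0),(0,1,0,0),(2,-2,-1,0),(4,0,0,-1)⟩⟩⟩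

def rh5 : R2 :=
  ⟨⟨(⟨1,0⟩,⟨0,0⟩),(⟨0,0⟩,⟨1,0⟩),(⟨0,1⟩,⟨0,0⟩),(⟨0,0⟩,⟨0,1⟩)⟩,
    ((⟨0,0⟩,⟨0,0⟩,⟨0,0⟩),
     (⟨0,0⟩,⟨-11/96,19/96⟩,⟨0,0⟩,⟨0,0⟩)),
    (1,0,0,0),
    (0,0,1,0),
    ⟨6,0,⟨1/2,-1/2⟩,⟨(1,-1,0,0),(0,0,-1,0),(1,0,0,0),(0,0,0,-1)⟩,⟨(0,0,1,0),(-1,0,1,0),(0,-1,0,0),(0,0,0,-1)⟩⟩,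
    ⟨6,1,⟨1/2,-1/2⟩,⟨(0,0,1,0),(1,-1,2,0),(0,0,0,1),(1,0,0,1)⟩,⟨(0,0,-1,1),(2,-1,-1,1),(1,0,0,0),(0,0,1,0)⟩⟩,
    ⟨6,2,⟨-1/2,1/2⟩,⟨(1,-1,1,0),(1,-1,0,0),(1,0,0,1),(1,0,0,0)⟩,⟨(0,0,0,1),(0,-1,0,1),(1,-1,0,0),(0,0,1,-1)⟩⟩,
    ⟨7,0,⟨1,0⟩,⟨(1,0,0,0),(0,0,1,0),(0,1,0,0),(0,0,0,1)⟩,⟨(1,0,0,0),(0,0,1,0),(0,1,0,0),(0,0,0,1)⟩⟩,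
    ⟨7,0,⟨1/2,-1/2⟩,⟨(1,-1,0,0),(0,0,1,-1),(1,0,0,0),(0,0,1,0)⟩,⟨(0,0,1,0),(-1,0,1,0),(0,0,0,1),(0,-1,0,1)⟩⟩⟩

def rh6 : R2 :=
  ⟨⟨(⟨1,0⟩,⟨0,0⟩),(⟨0,0⟩,⟨1,0⟩),(⟨1,-1⟩,⟨0,0⟩),(⟨0,0⟩,⟨1,-1⟩)⟩,
    ((⟨0,0⟩,⟨0,0⟩,⟨0,0⟩),
     (⟨0,0⟩,⟨31/48,-1/6⟩,⟨0,0⟩,⟨0,0⟩)),
    (1,1,0,0),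
    (0,0,1,1),
    ⟨0,1,⟨1,0⟩,⟨(0,0,0,1),(1,0,0,0),(0,0,1,0),(1,-1,0,0)⟩,⟨(0,1,0,0),(0,1,0,-1),(0,0,1,0),(1,0,0,0)⟩⟩,
    ⟨0,2,⟨-1,0⟩,⟨(1,0,0,0),(2,0,0,-1),(1,-1,0,0),(1,-1,-1,0)⟩,⟨(1,0,0,0),(1,0,-1,0),(0,0,1,-1),(2,-1,0,0)⟩⟩,
    ⟨0,0,⟨1,0⟩,⟨(1,0,0,-1),(0,0,0,-1),(1,-1,-1,0),(0,0,-1,0)⟩,⟨(1,-1,0,0),(1,-1,-1,1),(0,0,0,-1),(0,-1,0,0)⟩⟩,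
    ⟨7,0,⟨1,0⟩,⟨(1,0,0,0),(0,0,1,0),(1,-1,0,0),(0,0,1,-1)⟩,⟨(1,0,0,0),(1,0,-1,0),(0,1,0,0),(0,1,0,-1)⟩⟩,
    ⟨7,0,⟨0,1/2⟩,⟨(0,1,0,0),(0,0,0,1),(1,0,0,0),(0,0,1,0)⟩,⟨(0,0,1,0),(1,0,0,0),(0,0,0,1),(0,1,0,0)⟩⟩⟩

def rh7 : R2 :=
  ⟨⟨(⟨1,0⟩,⟨0,0⟩),(⟨0,0⟩,⟨-1/2,1/2⟩),(⟨1,-1⟩,⟨0,0⟩),(⟨0,0⟩,⟨1/2,1/2⟩)⟩,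
    ((⟨0,0⟩,⟨0,0⟩,⟨0,0⟩),
     (⟨7/32,0⟩,⟨0,0⟩,⟨0,0⟩,⟨0,0⟩)),
    (1,1,0,0),
    (0,0,-1,1),
    ⟨3,0,⟨0,1/2⟩,⟨(0,1,0,0),(0,0,-1,0),(1,0,0,0),(0,0,-1,1)⟩,⟨(0,0,1,0),(1,0,0,0),(0,-1,0,0),(0,-1,0,1)⟩⟩,
    ⟨9,1,⟨1,-1/2⟩,⟨(0,0,1,0),(0,1,0,0),(0,0,1,-1),(1,0,0,0)⟩,⟨(0,0,0,1),(0,1,0,0),(1,0,0,0),(1,0,-1,0)⟩⟩,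
    ⟨9,4,⟨-1,1/2⟩,⟨(1,0,-1,0),(0,1,0,0),(0,-1,-1,1),(1,0,0,0)⟩,⟨(0,0,0,1),(0,1,0,0),(-1,0,0,1),(-1,1,1,1)⟩⟩,
    ⟨6,0,⟨1,0⟩,⟨(1,0,0,0),(0,0,1,0),(1,-1,0,0),(0,0,1,-1)⟩,⟨(1,0,0,0),(1,0,-1,0),(0,1,0,0),(0,1,0,-1)⟩⟩,
    ⟨6,0,⟨0,1/2⟩,⟨(0,1,0,0),(0,0,0,1),(1,0,0,0),(0,0,1,0)⟩,⟨(0,0,1,0),(1,0,0,0),(0,0,0,1),(0,1,0,0)⟩⟩⟩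

def rt : List RT := [rt0, rt1, rt2]

def r2_ : List R2 := [rz0, rz1, rh2, rh3, rh4, rh5, rh6, rh7]

def rs : List RS := [rs0, rs1, rs2, rs3, rs4, rs5, rs6, rs7, rs8, rs9]

lemma ok_rt : ∀ r ∈ rt, r.ok atm := by decide +kernel

lemma ok_r2 : ∀ r ∈ r2_, r.ok atm := by decide +kernel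

lemma ok_rs : ∀ r ∈ rs, r.ok atm := by decide +kernel

lemma ok_n : ∀ e ∈ allEnts tg1 tg2 tg3 rt r2_ rs, e.1 < 11 := by decide +kernel

instance decQ3 : DecidableEq Q3 := inferInstance

instance decQ4 : DecidableEq Q4 := inferInstance

instance decQ7 : DecidableEq Q7 := instDecidableEqProd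

lemma ok_c : ∀ j < 11, collect j (allEnts tg1 tg2 tg3 rt r2_ rs) = 0 := by
  decide +kernel

end RV7.Ct

theorem RV7.ct_of (hB : RV5.BOUND) (hH : RV7.BOUNDH) (hC : RV7.CHP) : RV7.CT :=
  RV7.Ct.ct_of_cert ⟨hB, hH, hC⟩ _ _ _ _ _ _ _ _ (by decide +kernel) (by decide +kernel)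
    (by decide +kernel) RV7.Ct.ok_rt RV7.Ct.ok_r2 RV7.Ct.ok_rs
    RV7.Ct.ok_n RV7.Ct.ok_c (by decide +kernel) (by decide +kernel)
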