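import Pool.Agent.Lib.RV7.Blue
import Pool.Agent.Lib.RV5.Fe

/-! Functional equation and continuation of the L-series of `f7`. -/

open Real Filter Topology Set MeasureTheory Asymptotics RV5

namespace RV7.Fe

open RV5.Fe (hh hh_pos eta_hh hh_pair)

noncomputable def rho (t : ℝ) : ℝ := (hh (t / √7) * hh (7 * (t / √7))) ^ 3

noncomputable def phi (t : ℝ) : ℂ := f7 (Complex.I * (t / √7 : ℝ))

lemma s7 : (0 : ℝ) < √7 := by positivity

lemma phi_eq {t : ℝ} (ht : 0 < t) : phi t = rho t := by
  have h0 : 0 < t / √7 := div_pos ht s7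
  have k : ∀ d : ℝ, 0 < d → ModularForm.eta (d * (Complex.I * (t / √7 : ℝ))) =
      hh (d * (t / √7)) := fun d hd => by
    rw [← eta_hh (mul_pos hd h0)]
    congr 1
    push_cast
    ring
  have k7 := k 7 (by norm_num)
  rw [Complex.ofReal_ofNat] at k7
  rw [phi, f7, k7, eta_hh h0, rho]
  push_cast
  ring

lemma rho_pos {t : ℝ} (ht : 0 < t) : 0 < rho t := by
  have h0 : 0 < t / √7 := div_pos ht s7
  have h1 := hh_pos h0
  have h7 := hh_pos (mul_pos (show (0 : ℝ) < 7 by norm_num) h0)
  unfold rho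
  positivity

lemma rho_inv {t : ℝ} (ht : 0 < t) : rho (1 / t) = t ^ 3 * rho t := by
  have hs := s7
  have h0 : 0 < t / √7 := div_pos ht s7
  have hq : (√7 : ℝ) ^ 2 = 7 := sq_sqrt (by norm_num)
  have e : ∀ u v : ℝ, 0 < v → u * v = 7 → u * (1 / t / √7) = 1 / (v * (t / √7)) := by
    intro u v hv h
    field_simp
    rw [hq, h]
  have e2 : ∀ u v : ℝ, u * v = 7 → u * (t / √7) * (v * (t / √7)) = t ^ 2 := by
    intro u v h
    field_simp
    rw [hq, h]
  have e1 := e 1 7 (by norm_num) (by norm_num)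
  have e7 := e 7 1 (by norm_num) (by norm_num)
  have e3 := e2 7 1 (by norm_num)
  rw [one_mul] at e1 e7 e3
  unfold rho
  rw [e7, e1, hh_pair (by positivity) h0 ht e3]
  ring

lemma cont_phi : ContinuousOn phi (Ioi 0) := by
  intro t ht
  have h0 : 0 < t / √7 := div_pos ht s7
  have k : ∀ d : ℝ, 0 < d → ContinuousAt
      (fun t : ℝ => ModularForm.eta (d * (Complex.I * (t / √7 : ℝ)))) t := fun d hd =>
    ContinuousAt.comp (f := fun t : ℝ => (d * (Complex.I * (t / √7 : ℝ)) : ℂ))
      (ModularForm.differentiableAt_eta_of_mem_upperHalfPlaneSet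
        (z := d * (Complex.I * (t / √7 : ℝ))) (by
          change 0 < (d * (Complex.I * (t / √7 : ℝ)) : ℂ).im
          rw [Complex.im_ofReal_mul, Complex.I_mul_im, Complex.ofReal_re]
          positivity)).continuousAt (by fun_prop)
  have k1 := k 1 one_pos
  have k7 := k 7 (by norm_num)
  simp only [Complex.ofReal_one, one_mul] at k1
  rw [Complex.ofReal_ofNat] at k7
  exact ((k1.pow 3).mul (k7.pow 3)).continuousWithinAt

lemma e_eq (t : ℝ) : e (Complex.I * (t / √7 : ℝ)) = (exp (-(2 * π / √7) * t) : ℝ) := by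
  rw [e, Complex.ofReal_exp]
  congr 1
  push_cast
  linear_combination (2 * π * (t / (√7 : ℝ)) : ℂ) * Complex.I_mul_I

lemma im_pos {t : ℝ} (ht : 0 < t) : 0 < (Complex.I * (t / √7 : ℝ)).im := by
  rw [Complex.I_mul_im, Complex.ofReal_re]
  exact div_pos ht s7

lemma phi_top {a : ℕ → ℤ} {C : ℝ} (h0 : a 0 = 0)
    (h1 : ∀ n, |(a n : ℝ)| ≤ C * ((n : ℝ) + 1) ^ 2)
    (h2 : ∀ τ : ℂ, 0 < τ.im → HasSum (fun n : ℕ => (a n : ℂ) * e τ ^ n) (f7 τ)) (s : ℝ) :
    phi =O[atTop] (· ^ s) := by
  have hc : 0 < 2 * π / √7 := by have := pi_pos; positivity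
  have hb : PB fun n => (a n : ℂ) := ⟨C, 2, fun n => by rw [Complex.norm_intCast]; exact h1 n⟩
  have hd := (hb.diffAt (q := 0) (by simp)).isBigO_sub
  have hz : ∑' n, (a n : ℂ) * (0 : ℂ) ^ n = 0 := by
    rw [tsum_eq_single 0 fun n hn => by simp [hn]]; simp [h0]
  simp only [hz, sub_zero] at hd
  have ht : Tendsto (fun t : ℝ => ((exp (-(2 * π / √7) * t) : ℝ) : ℂ)) atTop (𝓝 0) :=
    (Complex.continuous_ofReal.tendsto' 0 0 rfl).comp
      (tendsto_exp_atBot.comp (tendsto_id.const_mul_atTop_of_neg (by linarith)))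
  have h3 := hd.comp_tendsto ht
  refine (h3.congr' ?_ .rfl).trans ((Complex.isBigO_ofReal_left.mpr (isBigO_refl _ _)).trans
    (isLittleO_exp_neg_mul_rpow_atTop hc s).isBigO)
  filter_upwards [eventually_gt_atTop 0] with t ht
  have := (h2 _ (im_pos ht)).tsum_eq
  rw [e_eq] at this
  exact this

end RV7.Fe

namespace RV7

open RV7.Fe

theorem fe : FE := by
  intro a C h0 h1 h2
  have hp := pi_pos
  have hs := s7
  set c : ℝ := 2 * π / √7 with hc
  have hc0 : 0 < c := by positivity
  have hc' : (c : ℂ) ≠ 0 := by exact_mod_cast hc0.ne'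
  have : NeZero (c : ℂ) := ⟨hc'⟩
  let P : WeakFEPair ℂ :=
    { f := phi, g := phi, k := 3, ε := 1, f₀ := 0, g₀ := 0
      hf_int := cont_phi.locallyIntegrableOn measurableSet_Ioi
      hg_int := cont_phi.locallyIntegrableOn measurableSet_Ioi
      hk := three_pos
      hε := one_ne_zero
      h_feq := fun x hx => by
        rw [phi_eq (one_div_pos.mpr hx), phi_eq hx, rho_inv hx,
          show (3 : ℝ) = (3 : ℕ) by norm_num, rpow_natCast, smul_eq_mul]
        push_cast; ring
      hf_top := fun s => by simpa using phi_top h0 h1 h2 s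
      hg_top := fun s => by simpa using phi_top h0 h1 h2 s }
  have hP : IsStrongFEPair P := ⟨rfl, rfl⟩
  have dM : Differentiable ℂ (mellin phi) := hP.Λ_eq ▸ hP.differentiable_Λ
  have hfe : mellin phi (-1) = mellin phi 4 := by
    have := P.functional_equation 4
    rw [hP.Λ_eq, hP.symm_Λ_eq] at this
    change mellin phi (((3 : ℝ) : ℂ) - 4) = (1 : ℂ) • mellin phi 4 at this
    rw [one_smul, show ((3 : ℝ) : ℂ) - 4 = -1 by norm_num] at this
    exact this
  have hM4 : mellin phi 4 ≠ 0 := by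
    have hi : IntegrableOn (fun t : ℝ => (t : ℂ) ^ ((4 : ℂ) - 1) • phi t) (Ioi 0) :=
      (hP.hasMellin 4).1
    have he : EqOn (fun t : ℝ => (t : ℂ) ^ ((4 : ℂ) - 1) • phi t)
        (fun t : ℝ => ((t ^ 3 * rho t : ℝ) : ℂ)) (Ioi 0) := fun t ht => by
      simp only [smul_eq_mul]
      rw [show (4 - 1 : ℂ) = (3 : ℕ) by norm_num, Complex.cpow_natCast, phi_eq ht]
      push_cast
      ring
    have hi2 : IntegrableOn (fun t : ℝ => t ^ 3 * rho t) (Ioi 0) := by
      have := (hi.congr_fun he measurableSet_Ioi).re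
      simp only [RCLike.re_to_complex, Complex.ofReal_re] at this
      exact this
    rw [mellin, setIntegral_congr_fun measurableSet_Ioi he, integral_complex_ofReal,
      Complex.ofReal_ne_zero]
    refine ne_of_gt ?_
    rw [setIntegral_pos_iff_support_of_nonneg_ae _ hi2]
    · rw [inter_eq_right.mpr (show Ioi 0 ⊆ Function.support fun t => t ^ 3 * rho t from
        fun t ht => (mul_pos (pow_pos ht 3) (rho_pos ht)).ne')]
      simp
    · filter_upwards [ae_restrict_mem measurableSet_Ioi] with t ht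
        using (mul_pos (pow_pos ht 3) (rho_pos ht)).le
  have dG : Differentiable ℂ fun s : ℂ => (c : ℂ) ^ s * (s * (Complex.Gamma (s + 1 + 1))⁻¹) *
      mellin phi s :=
    (((differentiable_const_cpow_of_neZero _).mul (differentiable_id.mul
      (Complex.differentiable_one_div_Gamma.comp (f := fun s : ℂ => s + 1 + 1)
        (by fun_prop)))).mul dM)
  have hd := (((hasDerivAt_id (-1 : ℂ)).add_const 1).mul (dG (-1)).hasDerivAt).deriv
  simp only [id, neg_add_cancel, zero_mul, add_zero, zero_add, one_mul, Complex.Gamma_one, hfe,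
    Complex.cpow_neg_one] at hd
  have hG6 : Complex.Gamma (4 + 1 + 1) = 120 := by
    have := Complex.Gamma_nat_eq_factorial 5
    rw [show ((5 : ℕ) : ℂ) = 4 + 1 by norm_num] at this
    rw [this]
    norm_num [Nat.factorial]
  have hc4 : (c : ℂ) ^ (4 : ℂ) = (c : ℂ) ^ 4 := Complex.cpow_ofNat _ 4
  refine ⟨_, (differentiable_fun_id.add_const 1).mul dG, fun s hs => ?_, by simp, ?_, ?_⟩
  · have hs0 : 0 < s.re := by linarith
    have hG := Complex.Gamma_ne_zero_of_re_pos hs0
    have := hasSum_mellin (a := fun n => (a n : ℂ)) (p := fun n : ℕ => c * n) (s := s)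
      (F := phi) (fun n => ?_) hs0 (fun t ht => (h2 _ (im_pos ht)).congr_fun fun n => ?_) ?_
    · have e := Complex.one_div_Gamma_eq_self_mul_one_div_Gamma_add_one s
      rw [Complex.one_div_Gamma_eq_self_mul_one_div_Gamma_add_one (s + 1)] at e
      simp only [Pi.mul_apply]
      rw [show ∀ A B C D E : ℂ, A * (B * (C * D) * E) = B * (C * (A * D)) * E from
        fun _ _ _ _ _ => by ring, ← e]
      refine (this.mul_left _).congr_fun fun n => ?_
      have : (c : ℂ) ^ s ≠ 0 := by simp [hc']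
      rw [LSeries.term_of_ne_zero' (by rintro rfl; simp at hs0), Complex.ofReal_mul,
        Complex.mul_cpow_ofReal_nonneg hc0.le n.cast_nonneg, Complex.ofReal_natCast]
      field_simp
    · rcases n.eq_zero_or_pos with rfl | hn
      · simp [h0]
      · exact .inr (by positivity)
    · rw [e_eq, ← Complex.ofReal_pow, ← exp_nat_mul]
      congr 3
      ring
    · refine Summable.of_nonneg_of_le (fun n => by positivity) (fun n => ?_)
        ((summable_nat_rpow_inv.mpr (show 1 < s.re - 2 by linarith)).mul_left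
          (C * 2 ^ 2 / c ^ s.re))
      rcases n.eq_zero_or_pos with rfl | hn
      · simp [h0, zero_rpow (show s.re - 2 ≠ 0 by linarith)]
      have hn' : (1 : ℝ) ≤ n := by exact_mod_cast hn
      have hC : 0 ≤ C := by simpa using (abs_nonneg _).trans (h1 0)
      rw [Complex.norm_intCast, mul_rpow hc0.le n.cast_nonneg, rpow_sub (by linarith),
        rpow_two]
      calc _ ≤ C * (2 * (n : ℝ)) ^ 2 / (c ^ s.re * (n : ℝ) ^ s.re) := by
            gcongr
            exact (h1 n).trans (by gcongr; linarith)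
        _ = _ := by field_simp
  · simp only [Pi.mul_apply, hG6, hc4]
    exact mul_ne_zero (by norm_num) (mul_ne_zero (mul_ne_zero (pow_ne_zero _ hc') (by norm_num)) hM4)
  · refine hd.trans ?_
    simp only [Pi.mul_apply, hG6, hc4]
    have hk : (147 * √7 / (16 * π ^ 5) : ℝ) = 6 / c ^ 5 := by
      have hq : (√7 : ℝ) ^ 2 = 7 := sq_sqrt (by norm_num)
      rw [hc]
      field_simp
      rw [show (√7 : ℝ) ^ 4 = (√7 ^ 2) ^ 2 by ring, hq]
      norm_num
    rw [hk]
    push_cast
    field_simp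
    ring

end RV7
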