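import Pool.Agent.Lib.RV7.Blue
import Pool.Agent.Lib.RV5.Four1

/-! Block FOUR1 at level four: Fourier expansions of the weight two lattice sums. -/

open Complex Filter Topology RV5
open scoped Real ComplexConjugate

namespace RV7

namespace Four1

lemma inner7 (h : ℂ → ℝ) (hm : ∀ (d : ℝ) (z : ℂ), h (d * z) = h z / d ^ 2) (τ : ℂ) (m : ℤ)
    {s1 s2 : ℝ} (h1 : HasSum (fun n : ℤ => h (m * τ + n)) s1)
    (h2 : HasSum (fun n : ℤ => h (2 * (m * τ) + n)) s2) :
    ∑' n : ℤ, phiL n * h (pt τ (m, n)) = s2 / 4 - s1 / 8 := by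
  have k1 := (RV5.Four1.ind_sum h hm 4 (by norm_num) _ h1).mul_left 2
  have k2 := RV5.Four1.ind_sum h hm 2 (by norm_num) _ h2
  have e1 : ((4 : ℤ) : ℂ) * (m * τ) = 4 * (m * τ) := by norm_num
  have e2 : ((2 : ℤ) : ℂ) * (2 * (m * τ)) = 4 * (m * τ) := by push_cast; ring
  rw [e1] at k1
  rw [e2] at k2
  have k := k2.sub k1
  refine (HasSum.tsum_eq (k.congr_fun fun n => ?_)).trans ?_
  · rw [phiL, pt, mul_assoc (4 : ℂ)]
    ring
  · push_cast
    ring

lemma inner_neg7 (h : ℂ → ℝ) (hm : ∀ (d : ℝ) (z : ℂ), h (d * z) = h z / d ^ 2) (τ : ℂ) (m : ℤ) :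
    ∑' n : ℤ, phiL n * h (pt τ (-m, n)) = ∑' n : ℤ, phiL n * h (pt τ (m, n)) := by
  rw [← (Equiv.neg ℤ).tsum_eq]
  refine tsum_congr fun n => ?_
  have h1 : pt τ (-m, -n) = ((-1 : ℝ) : ℂ) * pt τ (m, n) := by
    simp only [pt]
    push_cast
    ring
  simp only [Equiv.neg_apply, phiL, ind_neg]
  rw [h1, hm]
  ring

lemma outer7 (h : ℂ → ℝ) (hm : ∀ (d : ℝ) (z : ℂ), h (d * z) = h z / d ^ 2) (h1 : h 1 = 1) (τ : ℂ)
    {s : ℝ} (hs : HasSum (fun m : ℕ => ∑' n : ℤ, phiL n * h (pt τ ((m : ℤ) + 1, n))) s) :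
    ∑' m : ℤ, ∑' n : ℤ, phiL n * h (pt τ (m, n)) = 2 * s + π ^ 2 / 24 := by
  have h0 : ∀ c : ℂ, c = 0 → HasSum (fun n : ℤ => h (c + n)) (π ^ 2 / 3) := fun c hc =>
    RV5.Four1.sum0.congr_fun fun n => by
      rw [← h1, ← hm, hc]
      simp
  have h2 := inner7 h hm τ 0 (h0 _ (by simp)) (h0 _ (by simp))
  have h3 := HasSum.of_add_one_of_neg_add_one
    (f := fun m : ℤ => ∑' n : ℤ, phiL n * h (pt τ (m, n))) hs
    (hs.congr_fun fun m => inner_neg7 h hm τ _)
  rw [h3.tsum_eq, h2]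
  ring

end Four1

open Four1 in
theorem four1 : FOUR1 := by
  intro τ hτ
  have hq := norm_e_lt hτ
  have hq2 := norm_pow_lt hq two_ne_zero
  constructor
  · have l1 := Complex.hasSum_re (RV5.Four1.lam0 hq)
    have l2 := Complex.hasSum_re (RV5.Four1.lam0 hq2)
    have k := (l1.sub l2).mul_left (-(π / (4 * τ.im)))
    have := outer7 hA RV5.Four1.hA_mul (by simp [hA]) τ (k.congr_fun fun m => by
      have r1 := RV5.Four1.rowA hτ 1 one_pos m
      have r2 := RV5.Four1.rowA hτ 2 two_pos m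
      simp only [Nat.cast_one, one_mul, pow_one, Nat.cast_ofNat] at r1 r2
      rw [inner7 hA RV5.Four1.hA_mul τ _ r1 r2]
      field_simp
      ring)
    rw [Va, this, ell, l0]
    simp only [Complex.add_re, Complex.sub_re, Complex.mul_re, Complex.mul_im, Complex.re_ofNat,
      Complex.im_ofNat, Complex.ofReal_re, Complex.ofReal_im, Complex.I_re, Complex.I_im]
    field_simp
    ring
  · have l1 := Complex.hasSum_re (RV5.Four1.lam1 hq)
    have l2 := Complex.hasSum_re (RV5.Four1.lam1 hq2)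
    have k := (l1.sub (l2.mul_left 2)).mul_left (π ^ 2 / 2)
    have := outer7 hR RV5.Four1.hR_mul (by simp [hR]) τ (k.congr_fun fun m => by
      have r1 := RV5.Four1.rowR hτ 1 one_pos m
      have r2 := RV5.Four1.rowR hτ 2 two_pos m
      simp only [Nat.cast_one, one_mul, pow_one, Nat.cast_ofNat] at r1 r2
      rw [inner7 hR RV5.Four1.hR_mul τ _ r1 r2]
      ring)
    rw [Vr, this, eL]
    simp only [Complex.add_re, Complex.sub_re, Complex.mul_re, Complex.re_ofNat,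
      Complex.im_ofNat, Complex.one_re]
    ring

end RV7
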