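import Pool.Agent.Lib.RV7.Blue
import Pool.Agent.Lib.RV5.Four2

/-! Block FOUR2: Fourier expansions of the weight four lattice sums at level four. -/

open Complex Filter Topology RV5
open scoped Real ComplexConjugate

namespace RV7

namespace Four2

lemma split {f : ℂ → ℝ} (hf : ∀ (d : ℕ) (b : ℂ), f (d * b) = f b / (d : ℝ) ^ 4) (τ : ℂ)
    {d d' : ℕ} (hd : d * d' = 4) {s : ℝ}
    (hs : HasSum (fun p : ℤ × ℤ => f ((p.1 : ℂ) * (d' * τ) + p.2)) s) :
    HasSum (fun p : ℤ × ℤ => ind d p.2 * f (pt τ p)) (s / (d : ℝ) ^ 4) := by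
  have hd0 : (d : ℤ) ≠ 0 := by
    rintro h
    have : d = 0 := by exact_mod_cast h
    simp [this] at hd
  have hi : Function.Injective fun p : ℤ × ℤ => (p.1, (d : ℤ) * p.2) := fun x y h => by
    obtain ⟨e1, e2⟩ := Prod.mk.inj h
    exact Prod.ext e1 (mul_left_cancel₀ hd0 e2)
  rw [← hi.hasSum_iff]
  · refine (hs.div_const _).congr_fun fun p => ?_
    have h4 : (d : ℂ) * d' = 4 := by exact_mod_cast hd
    have : pt τ (p.1, (d : ℤ) * p.2) = d * ((p.1 : ℂ) * (d' * τ) + p.2) := by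
      rw [pt, ← h4]; push_cast; ring
    simp only [Function.comp, this, hf, ind, dvd_mul_right, if_true, one_mul]
  · intro x hx
    rw [ind, if_neg, zero_mul]
    rintro ⟨k, hk⟩
    exact hx ⟨(x.1, k), Prod.ext rfl hk.symm⟩

lemma comb {f : ℂ → ℝ} (hf : ∀ (d : ℕ) (b : ℂ), f (d * b) = f b / (d : ℝ) ^ 4) (τ : ℂ)
    {s : ℕ → ℝ} (hs : ∀ d : ℕ, 0 < d →
      HasSum (fun p : ℤ × ℤ => f ((p.1 : ℂ) * (d * τ) + p.2)) (s d)) :
    ∑' p : ℤ × ℤ, phiE p.2 * f (pt τ p) = s 4 - 9 * s 2 / 16 + s 1 / 32 := by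
  have h1 := split hf τ (d := 1) (d' := 4) rfl (hs 4 (by norm_num))
  have h2 := split hf τ (d := 2) (d' := 2) rfl (hs 2 (by norm_num))
  have h4 := split hf τ (d := 4) (d' := 1) rfl (hs 1 (by norm_num))
  have h := (h1.sub (h2.mul_left 9)).add (h4.mul_left 8)
  refine Eq.trans (tsum_congr fun p => ?_) (h.tsum_eq.trans ?_)
  · have : ind ((1 : ℕ) : ℤ) p.2 = 1 := by simp [ind]
    rw [this, phiE]
    push_cast
    ring
  · push_cast
    ring

end Four2

open Four2 RV5.Four2 in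
theorem four2_of : BOUND → FOUR2 := fun hB τ h => by
  have hd : ∀ d : ℕ, 0 < d → 0 < ((d : ℂ) * τ).im := fun d hd => by
    have : (0 : ℝ) < d := by exact_mod_cast hd
    simpa using mul_pos this h
  constructor
  · rw [K4, RV7.Four2.comb k4_mul τ fun d h0 => hasSum_k4 (hd d h0)]
    simp only [e_mul, pow_one, Q, eS]
    simp
    ring
  · rw [Kb, RV7.Four2.comb bb_mul τ fun d h0 => hasSum_bb hB (hd d h0)]
    simp only [e_mul, pow_one, cA, A0]
    simp
    field_simp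
    ring

end RV7
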