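import Pool.Agent.Lib.RV7.Jen

/-! The integrand of the Mahler measure is integrable. -/

open Real Set MeasureTheory

namespace RV7

open RV6 Jen in
theorem int4 : IntegrableOn (fun x : Fin 4 → ℝ =>
    log ‖(1 + ee (x 0)) * (1 + ee (x 1)) * (1 + ee (x 2)) + ee (x 3)‖) (Icc 0 1) := by
  have hee := measurable_ee
  have hn4 : ∀ x : Fin 4 → ℝ, 0 ≤ log 9 - log ‖A3 (x 0) (x 1) (x 2) + ee (x 3)‖ := fun x =>
    log_le_nine ((norm_add_le _ _).trans (by
      rw [norm_ee]; linarith [norm_A3 (x 0) (x 1) (x 2)]))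
  have hm : Measurable fun x : Fin 4 → ℝ =>
      log 9 - log ‖A3 (x 0) (x 1) (x 2) + ee (x 3)‖ := by unfold A3; fun_prop
  have hi : Integrable (fun x : Fin 4 → ℝ => log 9 - log ‖A3 (x 0) (x 1) (x 2) + ee (x 3)‖)
      (Measure.pi fun _ => nu) := by
    refine ⟨hm.aestronglyMeasurable, ?_⟩
    rw [hasFiniteIntegral_iff_ofReal (.of_forall hn4), Jen.lint4]
    refine lt_of_le_of_lt (lintegral_mono (g := fun _ => ENNReal.ofReal (log 9)) fun x =>
      ENNReal.ofReal_le_ofReal (sub_le_self _ posLog_nonneg)) ?_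
    simp
  rw [IntegrableOn, RV5.Jen.vol_restr]
  refine ((integrable_const (log 9)).sub hi).congr (.of_forall fun x => ?_)
  simp only [Pi.sub_apply, sub_sub_cancel, A3]

end RV7
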