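import Pool.Agent.Lib.RV7.Blue
import Pool.Agent.Lib.RV5.Mom

/-! Block MOM: the even moments are the cubes of the central binomial coefficients. -/

open Complex MeasureTheory Filter Topology
open scoped Real ComplexConjugate

namespace RV7

namespace Mom

open RV6 (ee nu)

lemma one_dim (n : ℕ) : ∫ t, (‖1 + ee t‖ ^ 2) ^ n ∂nu = (n.centralBinom : ℝ) := by
  rw [RV5.Mom.circ, Nat.centralBinom_eq_two_mul_choose, ← Nat.sum_range_choose_sq]
  simp

lemma mom_eq (n : ℕ) : mom n = (n.centralBinom : ℝ) ^ 3 := by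
  have e : (volume : Measure (Fin 3 → ℝ)).restrict (Set.Icc 0 1) = Measure.pi fun _ => nu := by
    rw [← Set.pi_univ_Icc, volume_pi, Measure.restrict_pi_pi]; rfl
  have h := integral_fintype_prod_eq_pow (ι := Fin 3) (μ := nu)
    (fun t : ℝ => (‖1 + ee t‖ ^ 2) ^ n)
  rw [one_dim, Fintype.card_fin] at h
  rw [mom, e, ← h]
  refine integral_congr_ae (Eventually.of_forall fun x => ?_)
  simp only [sN, Fin.prod_univ_three, norm_mul, mul_pow]

lemma cb_le (n : ℕ) : n.centralBinom ≤ 4 ^ n := by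
  rw [Nat.centralBinom_eq_two_mul_choose, show 4 = 2 ^ 2 from rfl, ← pow_mul]
  exact Nat.choose_le_two_pow _ _

end Mom

theorem mom_rec : MOM := by
  refine ⟨⟨?_, fun n => ?_⟩, fun n => ?_⟩
  · simp [Mom.mom_eq]
  · simp only [Mom.mom_eq]
    have h : ((n : ℂ) + 1) * (n + 1).centralBinom = 2 * (2 * n + 1) * n.centralBinom := by
      exact_mod_cast Nat.succ_mul_centralBinom_succ n
    push_cast
    rw [← mul_pow, h]
    ring
  · rw [Complex.norm_real, Mom.mom_eq, Real.norm_of_nonneg (by positivity)]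
    have h : (n.centralBinom : ℝ) ≤ 4 ^ n := by exact_mod_cast Mom.cb_le n
    calc (n.centralBinom : ℝ) ^ 3 ≤ (4 ^ n) ^ 3 := by gcongr
      _ = 64 ^ n := by rw [← pow_mul, mul_comm, pow_mul]; norm_num

end RV7
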