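import Pool.Agent.Lib.RV7.Blue
import Pool.Agent.Lib.RV5.Num

/-! Block NUM: numerical bounds on the ray `Re τ = -1/8`. -/

open Complex Filter Topology RV5 RV5.Num
open scoped Real ComplexConjugate

namespace RV7

namespace Num

lemma pw7 {r : ℝ} (h0 : 0 < r) (h : r ≤ 0.14) :
    r ^ 2 ≤ 0.14 * r ∧ r ^ 3 ≤ 0.02 * r ∧ r ^ 4 ≤ 0.003 * r ∧ r ^ 5 ≤ 0.0004 * r := by
  have h1 : ∀ (n : ℕ) (c : ℝ), (0.14 : ℝ) ^ n ≤ c → r ^ (n + 1) ≤ c * r := fun n c hc => by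
    rw [pow_succ]
    exact mul_le_mul_of_nonneg_right ((pow_le_pow_left₀ h0.le h n).trans hc) h0.le
  exact ⟨h1 1 _ (by norm_num), h1 2 _ (by norm_num), h1 3 _ (by norm_num), h1 4 _ (by norm_num)⟩

lemma eL_neg7 {r : ℝ} (h0 : 0 < r) (h : r ≤ 0.14) : (eL (qq r)).im < 0 := by
  have hn := norm_qq h0.le
  obtain ⟨p2, p3, p4, p5⟩ := pw7 h0 h
  have a1 := (im_le (S_tail (q := qq r) (by rw [hn]; linarith))).1
  have a2 := (im_le (S_small (q := qq r ^ 2) (by rw [norm_pow, hn]; linarith))).2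
  simp only [norm_pow, hn, add_im, mul_im, qq_im, qq2_im, qq3_im, qq4_im, re_ofNat, im_ofNat,
    zero_mul, add_zero, mul_zero] at a1 a2
  simp only [eL, add_im, sub_im, mul_im, re_ofNat, im_ofNat, one_im, zero_mul, add_zero, zero_add]
  have b1 : 0.7 * r ≤ r * (√2 / 2) := by nlinarith [s_lo]
  have b3 : 0 ≤ r ^ 3 * (√2 / 2) := by positivity
  have c1 : (r ^ 2) ^ 2 = r ^ 4 := by ring
  have c7 : 0 < r ^ 2 := pow_pos h0 2
  linarith

lemma l0_est7 {r : ℝ} (h0 : 0 < r) (h : r ≤ 0.14) : -4 ≤ (l0 (qq r)).im ∧ (l0 (qq r)).im ≤ 0 := by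
  have hn := norm_qq h0.le
  obtain ⟨p2, p3, p4, p5⟩ := pw7 h0 h
  have a1 := im_le (R_tail (q := qq r) (by rw [hn]; linarith))
  have a2 := im_le (R_small (q := qq r ^ 2) (by rw [norm_pow, hn]; linarith))
  simp only [norm_pow, hn, add_im, mul_im, qq_im, qq2_im, qq3_im, qq4_im, div_ofNat_re,
    div_ofNat_im, re_ofNat, im_ofNat, zero_div, zero_mul, add_zero, mul_zero] at a1 a2
  simp only [l0, sub_im, mul_im, re_ofNat, im_ofNat, zero_mul, add_zero]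
  have c1 : (r ^ 2) ^ 2 = r ^ 4 := by ring
  have b1 : 0.7 * r ≤ r * (√2 / 2) := by nlinarith [s_lo]
  have b2 : r * (√2 / 2) ≤ 0.71 * r := by nlinarith [s_hi]
  have b3 : 0 ≤ r ^ 3 * (√2 / 2) := by positivity
  have b4 : r ^ 3 * (√2 / 2) ≤ r ^ 3 := by nlinarith [s_hi, pow_pos h0 3]
  have c7 : 0 < r ^ 2 := pow_pos h0 2
  constructor <;> linarith [a1.1, a1.2, a2.1, a2.2]

lemma r_hi7 {v : ℝ} (h : √7 / 8 ≤ v) : Real.exp (-(2 * π * v)) ≤ 0.14 := by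
  have s7 : (2.6 : ℝ) ≤ √7 := Real.le_sqrt_of_sq_le (by norm_num)
  have h1 : 2 ≤ 2 * π * v := by nlinarith [Real.pi_gt_d2]
  calc _ ≤ Real.exp (-1) * Real.exp (-1) := by
        rw [← Real.exp_add]; exact Real.exp_le_exp.mpr (by linarith)
    _ ≤ _ := by nlinarith [Real.exp_neg_one_lt_d9, Real.exp_pos (-1)]

lemma ell_im7 (v : ℝ) : (ell (-1 / 8 + v * I)).im =
    -(π / 4) + (l0 (qq (Real.exp (-(2 * π * v))))).im := by
  rw [ell, e_ray, add_im]
  congr 1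
  simp
  ring

lemma der7 {v : ℝ} (h : 0 < v) : HasDerivAt (fun v : ℝ => (ell (-1 / 8 + v * I)).im)
    (-(2 * π) * (eL (qq (Real.exp (-(2 * π * v))))).im) v := by
  have h1 := hasDerivAt_ell (τ := -1 / 8 + v * I) (by simpa using h)
  have h2 : HasDerivAt (fun z : ℂ => -1 / 8 + z * I) I v := by
    simpa using ((hasDerivAt_id (v : ℂ)).mul_const I).const_add (-1 / 8)
  have h3 := HasDerivAt.comp (h₂ := ell) (h := fun z : ℂ => -1 / 8 + z * I) (v : ℂ) h1 h2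
  have h4 := Complex.imCLM.hasFDerivAt.comp_hasDerivAt v h3.comp_ofReal
  refine h4.congr_deriv ?_
  rw [e_ray]
  simp

lemma tau0_eq7 : tau0 = -1 / 8 + ((√7 / 8 : ℝ) : ℂ) * I := by
  rw [tau0]; push_cast; ring

end Num

open _root_.RV7.Num in
theorem num : NUM := by
  have hv0 : (0 : ℝ) < √7 / 8 := by positivity
  have hp := Real.pi_gt_d2
  refine ⟨?_, fun v hv => ⟨?_, ?_⟩⟩
  · rw [tau0_eq7, ell_im7]
    linarith [(l0_est7 (Real.exp_pos _) (r_hi7 le_rfl)).1]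
  · rw [tau0_eq7]
    have hm : StrictMonoOn (fun v : ℝ => (ell (-1 / 8 + v * I)).im) (Set.Ici (√7 / 8)) := by
      refine strictMonoOn_of_deriv_pos (convex_Ici _)
        (fun x hx => (der7 (hv0.trans_le hx)).continuousAt.continuousWithinAt) fun x hx => ?_
      have hx' : √7 / 8 ≤ x := interior_subset hx
      rw [(der7 (hv0.trans_le hx')).deriv]
      exact mul_pos_of_neg_of_neg (by linarith) (eL_neg7 (Real.exp_pos _) (r_hi7 hx'))
    exact hm Set.self_mem_Ici hv.le hv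
  · rw [ell_im7]
    linarith [(l0_est7 (Real.exp_pos _) (r_hi7 hv.le)).2]

end RV7
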