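import Pool.Agent.Lib.RV7.Blue
import Pool.Agent.Lib.RV5.Ode1

/-! Block ODE1: the third-order equation satisfied by the weight-two form of level four. -/

open Complex Filter Topology RV5
open RV5.Ode1 (HD hasDerivAt_S hasDerivAt_Sp eq_id)

namespace RV7

namespace Ode1

/-- the quasi-modular difference `P - eL` -/
noncomputable def uf (x : ℂ) : ℂ := P x - eL x

variable {q : ℂ} {u e w : ℂ → ℂ}

noncomputable def N2 (u e w : ℂ) : ℂ :=
  w * (e * u ^ 2 / 72 + (w ^ 2 - e ^ 2) * (e / 8 + u / 12))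

noncomputable def N3 (u e w : ℂ) : ℂ :=
  w * (w ^ 2 - e ^ 2) * (u ^ 2 * e / 48 + e ^ 2 * u / 8 + e ^ 3 / 8 +
    (w ^ 2 - e ^ 2) * (3 * e / 16 + u / 8))

lemma divc {f : ℂ → ℂ} {a : ℂ} (h : HD q f a) (c : ℂ) : HD q (fun x => f x / c) (a / c) :=
  ⟨h.1.div_const c, by
    rw [(h.1.hasDerivAt.div_const c).deriv, ← h.2]
    ring⟩

section Der

variable (hw : HD q w (u q * w q / 6))
  (he : HD q e (u q * e q / 6 - (w q ^ 2 - e q ^ 2) / 2))
  (hu : HD q u (u q ^ 2 / 12 + 3 * (w q ^ 2 - e q ^ 2) / 4))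

include hw he in
lemma hd_v : HD q (fun x => w x ^ 2 - e x ^ 2) ((w q ^ 2 - e q ^ 2) * (u q / 3 + e q)) :=
  ((hw.pow 2).sub (he.pow 2)).congr (by push_cast; ring)

include hw he hu in
lemma hd_w1 (h0 : e q ≠ 0) : HD q (fun x => u x * w x / 6 / e x)
    (e q * (N2 (u q) (e q) (w q) / e q ^ 3)) := by
  refine ((divc (hu.mul hw) 6).div he h0).congr ?_
  rw [div_eq_iff (pow_ne_zero 2 h0), show ∀ t : ℂ, e q * (t / e q ^ 3) * e q ^ 2 = t from
    fun t => by field_simp]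
  unfold N2
  ring

include hw he hu in
lemma hd_w2 (h0 : e q ≠ 0) : HD q (fun x => N2 (u x) (e x) (w x) / e x ^ 3)
    (e q * (N3 (u q) (e q) (w q) / e q ^ 5)) := by
  have h1 := hw.mul ((divc (he.mul (hu.pow 2)) 72).add
    ((hd_v hw he).mul ((divc he 8).add (divc hu 12))))
  refine (h1.div (he.pow 3) (pow_ne_zero 3 h0)).congr ?_
  rw [div_eq_iff (pow_ne_zero 2 (pow_ne_zero 3 h0)),
    show ∀ t : ℂ, e q * (t / e q ^ 5) * (e q ^ 3) ^ 2 = e q ^ 2 * t from
    fun t => by field_simp]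
  unfold N3
  push_cast
  ring

end Der

lemma diffAt_N3 (hu : DifferentiableAt ℂ u q) (he : DifferentiableAt ℂ e q)
    (hw : DifferentiableAt ℂ w q) :
    DifferentiableAt ℂ (fun x => N3 (u x) (e x) (w x)) q := by
  unfold N3
  fun_prop

lemma hasDerivAt_wf : HasDerivAt wf (-8) 0 := by
  have h := (((hasDerivAt_S.const_mul 8).const_sub 1).fun_add
    ((hasDerivAt_Sp (d := 2) le_rfl).const_mul 48)).fun_sub
    ((hasDerivAt_Sp (d := 4) (by norm_num)).const_mul 64)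
  exact h.congr_deriv (by ring)

lemma hasDerivAt_eL : HasDerivAt eL 24 0 := by
  have h := ((hasDerivAt_S.fun_sub
    ((hasDerivAt_Sp (d := 2) le_rfl).const_mul 2)).const_mul 24).const_add 1
  exact h.congr_deriv (by ring)

end Ode1

open _root_.RV7.Ode1 in
theorem ode1_of (hR : RING) : ODE1 := by
  have z1 : ‖(0 : ℂ)‖ < 1 := by simp
  have ev : ∀ᶠ q in 𝓝 (0 : ℂ), ‖q‖ < 1 ∧ eL q ≠ 0 ∧ wf q ≠ 0 := by
    refine Eventually.and (Filter.mem_of_superset (Metric.ball_mem_nhds 0 one_pos)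
      fun x hx => mem_ball_zero_iff.1 hx) (Eventually.and ?_ ?_)
    · exact (diffAt_eL z1).continuousAt.eventually_ne (by simp [eL_zero])
    · exact (diffAt_wf z1).continuousAt.eventually_ne (by simp [wf_zero])
  obtain ⟨ε, hε, hev⟩ := Metric.eventually_nhds_iff.1 ev
  simp only [dist_zero_right] at hev
  have hw : ∀ q : ℂ, ‖q‖ < 1 → HD q wf (uf q * wf q / 6) := fun q hq =>
    ⟨diffAt_wf hq, (hR q hq).1⟩
  have he : ∀ q : ℂ, ‖q‖ < 1 →
      HD q eL (uf q * eL q / 6 - (wf q ^ 2 - eL q ^ 2) / 2) := fun q hq =>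
    ⟨diffAt_eL hq, by rw [(hR q hq).2.1, uf]; ring⟩
  have hu : ∀ q : ℂ, ‖q‖ < 1 → HD q uf
      (uf q ^ 2 / 12 + 3 * (wf q ^ 2 - eL q ^ 2) / 4) := fun q hq =>
    (HD.sub (f := P) ⟨diffAt_P hq, (hR q hq).2.2.1⟩ (he q hq)).congr (by rw [uf]; ring)
  have hz : ∀ q : ℂ, ‖q‖ < ε → (wf q ^ 2 - eL q ^ 2) / (-64) / wf q ^ 2 /
      Complex.exp (l0 q) = q := fun q hq => by
    refine eq_id (u := fun q => (wf q ^ 2 - eL q ^ 2) / (-64) / wf q ^ 2 /
      Complex.exp (l0 q)) hε (fun x hx => ?_) ?_ hq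
    · obtain ⟨h1, -, hw0⟩ := hev hx
      have hE : HD x (fun x => Complex.exp (l0 x)) (Complex.exp (l0 x) * (eL x - 1)) :=
        ⟨(diffAt_l0 h1).cexp, by
          rw [(diffAt_l0 h1).hasDerivAt.cexp.deriv, ← deriv_l0 h1]
          ring⟩
      refine (((divc (hd_v (hw x h1) (he x h1)) (-64)).div ((hw x h1).pow 2)
        (pow_ne_zero 2 hw0)).div hE (Complex.exp_ne_zero _)).congr ?_
      have := Complex.exp_ne_zero (l0 x)
      push_cast
      generalize Complex.exp (l0 x) = E at this ⊢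
      generalize wf x = w at hw0 ⊢
      field_simp
      ring
    · have h1 := ((((hasDerivAt_wf.fun_pow 2).fun_sub (hasDerivAt_eL.fun_pow 2)).div_const
        (-64)).fun_div (hasDerivAt_wf.fun_pow 2) (by simp [wf_zero])).fun_div
        (diffAt_l0 z1).hasDerivAt.cexp (Complex.exp_ne_zero _)
      rw [h1.deriv, l0_zero, wf_zero, eL_zero]
      norm_num
  refine ⟨min ε 1, wf, fun x => uf x * wf x / 6 / eL x,
    fun x => N2 (uf x) (eL x) (wf x) / eL x ^ 3,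
    fun x => N3 (uf x) (eL x) (wf x) / eL x ^ 5, lt_min hε one_pos,
    min_le_right _ _, wf_zero, fun q hq => ?_⟩
  have hq' := hq.trans_le (min_le_left _ _)
  obtain ⟨h0, he0, hw0⟩ := hev hq'
  have d1 := hd_w1 (hw q h0) (he q h0) (hu q h0) he0
  have d2 := hd_w2 (hw q h0) (he q h0) (hu q h0) he0
  refine ⟨diffAt_wf h0, d1.1, d2.1, (diffAt_N3 (hu q h0).1 (he q h0).1 (hw q h0).1).div
    ((he q h0).1.pow 5) (pow_ne_zero 5 he0), (hR q h0).2.2.2, ?_, d1.2, d2.2, ?_⟩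
  · rw [(hw q h0).2, mul_div_cancel₀ _ he0]
  · have hz' : zf q = -((wf q ^ 2 - eL q ^ 2) / (-64) / wf q ^ 2) := by
      rw [zf, ← (div_eq_iff (Complex.exp_ne_zero _)).1 (hz q hq')]
    rw [hz']
    beta_reduce
    unfold N2 N3
    generalize wf q = w at hw0 ⊢
    generalize eL q = e at he0 ⊢
    generalize uf q = u
    field_simp
    ring

end RV7
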