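import Pool.Agent.Lib.RV7.ZKa

/-! The Epstein zeta value of `x^2 + x y + 2 y^2` at `3`, and `L(χ₋₇, 3)`. -/

open scoped Real

namespace RV7.ZK

theorem abs_c7_le (n : ℕ) : |(c7 n : ℝ)| ≤ 1 := by
  unfold c7; split_ifs <;> simp

theorem summable_one : Summable fun n : ℕ => 1 / (n : ℝ) ^ 3 :=
  Real.summable_one_div_nat_pow.2 (by norm_num)

theorem summable_c7 : Summable fun n : ℕ => (c7 n : ℝ) / (n : ℝ) ^ 3 := by
  refine Summable.of_norm_bounded summable_one fun n => ?_
  rw [norm_div, Real.norm_eq_abs, Real.norm_eq_abs, abs_of_nonneg (by positivity : (0 : ℝ) ≤ _ ^ 3)]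
  exact div_le_div_of_nonneg_right (abs_c7_le n) (by positivity)

theorem hasSum_sg : HasSum (fun n : ℕ => (sg n : ℝ) / (n : ℝ) ^ 3)
    ((∑' n : ℕ, (c7 n : ℝ) / (n : ℝ) ^ 3) * ∑' n : ℕ, 1 / (n : ℝ) ^ 3) := by
  have hs := summable_mul_of_summable_norm summable_c7.norm summable_one.norm
  have := (summable_c7.hasSum.mul summable_one.hasSum hs).tsum_fiberwise
    (fun p : ℕ × ℕ => p.1 * p.2)
  convert! this using 1
  funext n
  rcases eq_or_ne n 0 with rfl | hn
  · have : ∀ p : (fun p : ℕ × ℕ ↦ p.1 * p.2) ⁻¹' {0},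
        (c7 p.val.1 : ℝ) / (p.val.1 : ℝ) ^ 3 * (1 / (p.val.2 : ℝ) ^ 3) = 0 := by
      rintro ⟨⟨a, b⟩, hp⟩
      rcases Nat.mul_eq_zero.1 hp with h | h <;> simp only at h <;> simp [h]
    simp only [this]
    simp
  rw [show (fun p : ℕ × ℕ ↦ p.1 * p.2) ⁻¹' {n} = n.divisorsAntidiagonal by ext; simp [hn],
    Finset.tsum_subtype' n.divisorsAntidiagonal
      fun p ↦ (c7 p.1 : ℝ) / (p.1 : ℝ) ^ 3 * (1 / (p.2 : ℝ) ^ 3), sg,
    ← Nat.sum_divisorsAntidiagonal fun a _ => c7 a]
  push_cast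
  rw [Finset.sum_div]
  refine Finset.sum_congr rfl fun p hp => ?_
  rw [← (Nat.mem_divisorsAntidiagonal.1 hp).1]
  push_cast
  rw [mul_pow, div_mul_div_comm, mul_one]

theorem fibre (n : ℕ) :
    HasSum (fun w : ((fun w : ℤ × ℤ => (N w).toNat) ⁻¹' {n}) => 1 / (N w.val : ℝ) ^ 3)
      (2 * ((sg n : ℝ) / (n : ℝ) ^ 3)) := by
  have e : (fun w : ℤ × ℤ => (N w).toNat) ⁻¹' {n} = (R_finite n).toFinset := by
    ext w
    have := N_nonneg w
    simp only [Set.mem_preimage, Set.mem_singleton_iff, Set.Finite.coe_toFinset, R,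
      Set.mem_ofPred_eq]
    omega
  rw [e]
  have h := Finset.hasSum (R_finite n).toFinset (fun w : ℤ × ℤ => 1 / (N w : ℝ) ^ 3)
  suffices hh : 2 * ((sg n : ℝ) / (n : ℝ) ^ 3) =
      ∑ w ∈ (R_finite n).toFinset, 1 / (N w : ℝ) ^ 3 by rw [hh]; exact h
  rw [Finset.sum_congr rfl (g := fun _ => 1 / (n : ℝ) ^ 3) (fun w hw => by
    have hw' : w ∈ R n := (Set.Finite.mem_toFinset _).1 hw
    rw [show N w = n from hw']; simp), Finset.sum_const,
    ← Set.ncard_eq_toFinset_card (R n) (R_finite n), nsmul_eq_mul]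
  rcases eq_or_ne n 0 with rfl | hn
  · simp
  · have : ((R n).ncard : ℝ) = 2 * sg n := by exact_mod_cast r_eq n hn
    rw [this]; ring

/-- `∑ 1/(x² + xy + 2y²)³ = 2 ζ(3) L(χ₋₇, 3)` -/
theorem hasSum_N : HasSum (fun w : ℤ × ℤ => 1 / (N w : ℝ) ^ 3)
    (2 * (∑' n : ℕ, 1 / (n : ℝ) ^ 3) * ∑' n : ℕ, (c7 n : ℝ) / (n : ℝ) ^ 3) := by
  have h2 := hasSum_sg.mul_left 2
  have hs : Summable fun w : ℤ × ℤ => 1 / (N w : ℝ) ^ 3 := by
    rw [summable_partition (s := fun n : ℕ => (fun w : ℤ × ℤ => (N w).toNat) ⁻¹' {n})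
      (fun w => by have : (0 : ℝ) ≤ N w := by exact_mod_cast N_nonneg w
                   positivity) (fun w => by simp)]
    refine ⟨fun n => (fibre n).summable, ?_⟩
    simp only [fun n => (fibre n).tsum_eq]
    exact h2.summable
  have h3 := hs.hasSum.tsum_fiberwise (fun w : ℤ × ℤ => (N w).toNat)
  simp only [fun n => (fibre n).tsum_eq] at h3
  have := h3.unique h2
  convert hs.hasSum using 1
  rw [this]; ring

theorem gauss0 : Real.sin (2 * π / 7) + Real.sin (4 * π / 7) + Real.sin (8 * π / 7) = √7 / 2 := by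
  set a := 2 * π / 7 with ha
  have e2 : 4 * π / 7 = 2 * a := by rw [ha]; ring
  have e4 : 8 * π / 7 = 4 * a := by rw [ha]; ring
  have hpos : 0 < Real.sin a + Real.sin (4 * π / 7) + Real.sin (8 * π / 7) := by
    have h1 : Real.sin (8 * π / 7) = -Real.sin (π / 7) := by
      rw [← Real.sin_add_pi]; congr 1; ring
    have h2 : Real.sin (π / 7) < Real.sin a :=
      Real.sin_lt_sin_of_lt_of_le_pi_div_two (by linarith [Real.pi_pos])
        (by rw [ha]; linarith [Real.pi_pos]) (by rw [ha]; linarith [Real.pi_pos])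
    have h3 : 0 < Real.sin (4 * π / 7) :=
      Real.sin_pos_of_pos_of_lt_pi (by positivity) (by linarith [Real.pi_pos])
    linarith
  have hsq : (2 * (Real.sin a + Real.sin (4 * π / 7) + Real.sin (8 * π / 7))) ^ 2 = 7 := by
    set z : ℂ := Complex.exp (a * Complex.I) with hz
    have h7 : z ^ 7 = 1 := by
      rw [hz, ← Complex.exp_nat_mul, ← Complex.exp_two_pi_mul_I, ha]; congr 1; push_cast; ring
    have hz0 : z ≠ 0 := Complex.exp_ne_zero _
    have hz1 : z ≠ 1 := by
      intro h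
      have := congrArg Complex.im h
      rw [hz, Complex.exp_ofReal_mul_I_im, Complex.one_im] at this
      have h3 : 0 < Real.sin a :=
        Real.sin_pos_of_pos_of_lt_pi (by positivity) (by rw [ha]; linarith [Real.pi_pos])
      linarith
    have hsum : 1 + z + z ^ 2 + z ^ 3 + z ^ 4 + z ^ 5 + z ^ 6 = 0 := by
      apply mul_left_cancel₀ (sub_ne_zero.2 hz1)
      linear_combination h7
    have hk : ∀ k : ℕ, k ≤ 7 → 2 * (Real.sin (k * a) : ℂ) = (z ^ (7 - k) - z ^ k) * Complex.I := by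
      intro k hk
      have : z ^ (7 - k) = (z ^ k)⁻¹ := by
        rw [pow_sub₀ z hz0 hk, h7, one_mul]
      rw [this, hz, ← Complex.exp_nat_mul, ← Complex.exp_neg, Complex.ofReal_sin, Complex.two_sin]
      push_cast
      congr 3 <;> ring
    have k1 := hk 1 (by norm_num)
    have k2 := hk 2 (by norm_num)
    have k4 := hk 4 (by norm_num)
    norm_num only [Nat.cast_one, one_mul, Nat.cast_ofNat] at k1 k2 k4
    rw [e2, e4]
    apply Complex.ofReal_injective
    rw [Complex.ofReal_pow, Complex.ofReal_mul, Complex.ofReal_add, Complex.ofReal_add,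
      Complex.ofReal_ofNat, Complex.ofReal_ofNat, mul_add, mul_add, k1, k2, k4]
    have hI := Complex.I_sq
    linear_combination (z ^ 6 - z + z ^ 5 - z ^ 2 + z ^ 3 - z ^ 4) ^ 2 * hI - hsum -
      (z ^ 5 + 2 * z ^ 4 - z ^ 3 + 0 * z ^ 2 + z - 6) * h7
  have : √7 = 2 * (Real.sin a + Real.sin (4 * π / 7) + Real.sin (8 * π / 7)) := by
    rw [Real.sqrt_eq_iff_mul_self_eq (by norm_num) (by linarith), ← pow_two, hsq]
  rw [this]; ring

theorem gauss (n : ℕ) : Real.sin (2 * π * n * (1 / 7)) + Real.sin (2 * π * n * (2 / 7)) +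
    Real.sin (2 * π * n * (4 / 7)) = √7 / 2 * c7 n := by
  have red : ∀ j k : ℕ, j % 7 = k % 7 → Real.sin (2 * π * j / 7) = Real.sin (2 * π * k / 7) := by
    have : ∀ j : ℕ, Real.sin (2 * π * j / 7) = Real.sin (2 * π * (j % 7 : ℕ) / 7) := by
      intro j
      rw [← Real.sin_add_nat_mul_two_pi (2 * π * (j % 7 : ℕ) / 7) (j / 7)]
      congr 1
      have : (j : ℝ) = (j % 7 : ℕ) + 7 * (j / 7 : ℕ) := by exact_mod_cast (Nat.mod_add_div j 7).symm
      linear_combination (2 * π / 7) * this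
    intro j k h
    rw [this j, this k, h]
  have neg : ∀ k : ℕ, k ≤ 7 →
      Real.sin (2 * π * (7 - k : ℕ) / 7) = -Real.sin (2 * π * k / 7) := by
    intro k hk
    rw [← Real.sin_two_pi_sub, Nat.cast_sub hk]
    congr 1; push_cast; ring
  have g : Real.sin (2 * π * (1 : ℕ) / 7) + Real.sin (2 * π * (2 : ℕ) / 7) +
      Real.sin (2 * π * (4 : ℕ) / 7) = √7 / 2 := by
    rw [← gauss0]; push_cast; congr 1
    · congr 2 <;> ring
    · congr 1; ring
  have n1 := neg 1 (by norm_num)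
  have n2 := neg 2 (by norm_num)
  have n4 := neg 4 (by norm_num)
  have z0 : Real.sin (2 * π * (0 : ℕ) / 7) = 0 := by simp
  simp only [Nat.reduceSub] at n1 n2 n4
  rw [show 2 * π * n * (1 / 7) = 2 * π * (n : ℕ) / 7 by ring,
    show 2 * π * n * (2 / 7) = 2 * π * (2 * n : ℕ) / 7 by push_cast; ring,
    show 2 * π * n * (4 / 7) = 2 * π * (4 * n : ℕ) / 7 by push_cast; ring]
  unfold c7
  rcases (by omega : n % 7 = 0 ∨ n % 7 = 1 ∨ n % 7 = 2 ∨ n % 7 = 3 ∨ n % 7 = 4 ∨ n % 7 = 5 ∨
    n % 7 = 6) with h | h | h | h | h | h | h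
  · rw [red n 0 (by omega), red (2 * n) 0 (by omega), red (4 * n) 0 (by omega), z0]; simp [h]
  · rw [red n 1 (by omega), red (2 * n) 2 (by omega), red (4 * n) 4 (by omega)]
    simp only [h]; norm_num only [if_true, if_false, true_or, or_true, or_self]; push_cast at *
    linarith
  · rw [red n 2 (by omega), red (2 * n) 4 (by omega), red (4 * n) 1 (by omega)]
    simp only [h]; norm_num only [if_true, if_false, true_or, or_true, or_self]; push_cast at *
    linarith
  · rw [red n 3 (by omega), red (2 * n) 6 (by omega), red (4 * n) 5 (by omega)]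
    simp only [h]; norm_num only [if_true, if_false, true_or, or_true, or_self]; push_cast at *
    linarith
  · rw [red n 4 (by omega), red (2 * n) 1 (by omega), red (4 * n) 2 (by omega)]
    simp only [h]; norm_num only [if_true, if_false, true_or, or_true, or_self]; push_cast at *
    linarith
  · rw [red n 5 (by omega), red (2 * n) 3 (by omega), red (4 * n) 6 (by omega)]
    simp only [h]; norm_num only [if_true, if_false, true_or, or_true, or_self]; push_cast at *
    linarith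
  · rw [red n 6 (by omega), red (2 * n) 5 (by omega), red (4 * n) 3 (by omega)]
    simp only [h]; norm_num only [if_true, if_false, true_or, or_true, or_self]; push_cast at *
    linarith

theorem bern (x : ℝ) : (Polynomial.map (algebraMap ℚ ℝ) (Polynomial.bernoulli (2 * 1 + 1))).eval x =
    x ^ 3 - 3 / 2 * x ^ 2 + x / 2 := by
  rw [Polynomial.bernoulli_def]
  have b3 : bernoulli 3 = 0 := by
    rw [bernoulli_eq_bernoulli'_of_ne_one (by norm_num), bernoulli'_three]
  simp [Finset.sum_range_succ, bernoulli_one, bernoulli_two, b3, Nat.choose]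
  ring

/-- `L(χ₋₇, 3) = 32 π³ √7 / 2401` -/
theorem hasSum_c7 : HasSum (fun n : ℕ => (c7 n : ℝ) / (n : ℝ) ^ 3) (32 * π ^ 3 * √7 / 2401) := by
  have h1 := hasSum_one_div_nat_pow_mul_sin one_ne_zero (x := 1 / 7) ⟨by norm_num, by norm_num⟩
  have h2 := hasSum_one_div_nat_pow_mul_sin one_ne_zero (x := 2 / 7) ⟨by norm_num, by norm_num⟩
  have h4 := hasSum_one_div_nat_pow_mul_sin one_ne_zero (x := 4 / 7) ⟨by norm_num, by norm_num⟩
  have h := ((h1.add h2).add h4).mul_left (2 * √7 / 7)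
  have s7 : √7 * √7 = (7 : ℝ) := Real.mul_self_sqrt (by norm_num)
  convert! h using 1
  · funext n
    rw [← mul_add, ← mul_add, gauss n]
    norm_num only
    linear_combination (-(c7 n : ℝ) / (n : ℝ) ^ 3 / 7) * s7
  · rw [bern, bern, bern]
    norm_num [Nat.factorial]
    ring

end RV7.ZK
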