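import Pool.Agent.Lib.RV7.Blue
import Pool.Agent.Lib.RV7.ZKb
import Pool.Agent.Lib.RV5.Th
import Pool.Agent.Lib.RV5.Hec

/-! Part D for level seven: theta series, Hecke sum, Epstein zeta value, `ζ'(-2)`. -/

open Complex Filter Topology RV5
open scoped Real ComplexConjugate

namespace RV7

open RV5.Th in
theorem th_of : JAC → TH := by
  intro hJ
  have b1 := abs_co_le (u := 1) (v := 7) (w := 1) le_rfl (by norm_num) le_rfl (by norm_num)
  refine ⟨fun N => co 1 7 1 N, 36, ?_, fun n => ?_, fun τ hτ => ?_, ?_⟩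
  · have h1 := b1 0
    simp only [Nat.cast_zero, mul_zero, abs_nonpos_iff] at h1
    exact h1
  · have h1 : |(co 1 7 1 n : ℝ)| ≤ (8 * n + 1) * (4 * n) := by exact_mod_cast b1 n
    have h3 : (0 : ℝ) ≤ n := by positivity
    nlinarith
  · have h1 := hasSum_q hJ (u := 1) (v := 7) (w := 1) le_rfl (by norm_num) le_rfl
      (by norm_num) hτ
    simp only [Nat.cast_ofNat, Nat.cast_one, one_mul] at h1
    exact h1
  · have h1 := hasSum_L (u := 1) (v := 7) (w := 1) le_rfl (by norm_num) le_rfl (by norm_num)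
    simp only [Nat.cast_ofNat, Nat.cast_one] at h1
    exact h1

namespace PartD

lemma th_pos : 0 < th.im := by rw [th_im]; positivity

lemma nsq (x y : ℤ) : normSq ((x : ℂ) + y * th) = (x : ℝ) ^ 2 + x * y + 2 * (y : ℝ) ^ 2 := by
  rw [Complex.normSq_apply]
  simp only [Complex.add_re, Complex.add_im, Complex.mul_re, Complex.mul_im, Complex.intCast_re,
    Complex.intCast_im, th_re, th_im]
  linear_combination ((y : ℝ) ^ 2 / 4) * (Real.sq_sqrt (by norm_num) : (√7 : ℝ) ^ 2 = 7)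

end PartD

open RV5.Hec (G key chi_eq summable_chi conjE gen) in
theorem hec : HEC := by
  have hs : Summable fun p : ℤ × ℤ => chi (p.1 + p.2 * th) := by
    simpa using summable_chi PartD.th_pos 1
  obtain ⟨k1, k2⟩ := key (A := fun p => G 1 7 (p.1 + 4 * p.2) p.1)
    (B := fun p => (p.2 : ℝ) * (2 * p.1 + p.2) / ((p.1 : ℝ) ^ 2 + p.1 * p.2 + 2 * (p.2 : ℝ) ^ 2) ^ 4)
    (c := -1 - th) (by simpa using PartD.th_pos.ne') hs
    (fun p => by simp only [conjE, Equiv.coe_fn_mk]; push_cast; ring)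
    (fun p => by
      rw [chi_eq, PartD.nsq]
      simp only [G, map_add, map_mul, map_intCast, conj_th]
      push_cast
      rw [show (1 * ((p.1 : ℂ) + 4 * p.2) ^ 2 + 7 * (p.1 : ℂ) ^ 2) / 8 =
        (p.1 : ℂ) ^ 2 + p.1 * p.2 + 2 * (p.2 : ℂ) ^ 2 by ring, ← mul_div_assoc, ← add_div]
      congr 1
      linear_combination (p.2 : ℂ) ^ 2 * th_sq)
  rw [HEC, Z0, k2, gen 1 7 k1, ThL]
  push_cast
  rfl

theorem lchi : LCHI := ZK.hasSum_c7.tsum_eq

theorem zk : ZK := by
  have h : (∑' w : ℤ × ℤ, 1 / (ZK.N w : ℝ) ^ 3) = 2 * zeta3 * Lchi := ZK.hasSum_N.tsum_eq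
  rw [ZK, ← h, Z3, Complex.ofReal_tsum]
  refine tsum_congr fun p => ?_
  rw [chi3, ← mul_pow, Complex.mul_conj, PartD.nsq, ZK.N]
  push_cast
  rfl

theorem zp : ZP := by
  have hp : (π : ℂ) ≠ 0 := by exact_mod_cast Real.pi_ne_zero
  set F : ℂ → ℂ := fun s => 2 * (2 * π) ^ (-s) * Gamma s * riemannZeta s with hF
  have hev : (fun s => riemannZeta (1 - s)) =ᶠ[𝓝 3] fun s => F s * Complex.cos (π * s / 2) := by
    have : {s : ℂ | 1 < s.re} ∈ 𝓝 (3 : ℂ) :=
      (isOpen_lt continuous_const Complex.continuous_re).mem_nhds (by simp)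
    filter_upwards [this] with s hs
    rw [riemannZeta_one_sub (fun n h => by
      rw [h] at hs
      simp at hs
      linarith [(Nat.cast_nonneg n : (0 : ℝ) ≤ n)]) (fun h => by simp [h] at hs), hF]
    ring
  have : NeZero (2 * π : ℂ) := ⟨mul_ne_zero two_ne_zero hp⟩
  have dF : DifferentiableAt ℂ F 3 := by
    refine (((differentiableAt_const _).mul ?_).mul ?_).mul
      (differentiableAt_riemannZeta (by norm_num))
    · exact ((differentiable_const_cpow_of_neZero _).comp differentiable_neg) 3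
    · refine Complex.differentiableAt_Gamma _ fun n h => ?_
      have := congrArg Complex.re h
      simp at this
      linarith [(Nat.cast_nonneg n : (0 : ℝ) ≤ n)]
  have dC : HasDerivAt (fun s : ℂ => Complex.cos (π * s / 2))
      (-Complex.sin (π * 3 / 2) * (π * 1 / 2)) 3 :=
    (((hasDerivAt_id (3 : ℂ)).const_mul (π : ℂ)).div_const 2).ccos
  have c0 : Complex.cos (π * 3 / 2) = 0 := by
    rw [show (π * 3 / 2 : ℂ) = π / 2 + π by ring, Complex.cos_add_pi, Complex.cos_pi_div_two,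
      neg_zero]
  have s0 : Complex.sin (π * 3 / 2) = -1 := by
    rw [show (π * 3 / 2 : ℂ) = π / 2 + π by ring, Complex.sin_add_pi, Complex.sin_pi_div_two]
  have h1 := (dF.hasDerivAt.mul dC).congr_of_eventuallyEq hev
  have h2 : HasDerivAt (fun s : ℂ => riemannZeta (1 - s)) (deriv riemannZeta (-2) * (-1)) 3 := by
    refine HasDerivAt.comp (3 : ℂ) ?_ ((hasDerivAt_id (3 : ℂ)).const_sub 1)
    rw [show (1 - 3 : ℂ) = -2 by norm_num]
    exact (differentiableAt_riemannZeta (by norm_num)).hasDerivAt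
  have h3 := h2.unique h1
  have z3 : riemannZeta 3 = (zeta3 : ℂ) := by
    have := zeta_nat_eq_tsum_of_gt_one (k := 3) (by norm_num)
    rw [zeta3, Complex.ofReal_tsum]
    push_cast at this ⊢
    exact this
  have g3 : Gamma (3 : ℂ) = 2 := by
    have := Complex.Gamma_nat_eq_factorial 2
    norm_num [Nat.factorial] at this
    norm_num
  have p3 : (2 * π : ℂ) ^ (-3 : ℂ) = ((2 * π : ℂ) ^ 3)⁻¹ := by
    rw [Complex.cpow_neg, Complex.cpow_ofNat]
  rw [c0, s0] at h3
  simp only [hF, z3, g3, p3] at h3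
  rw [ZP, show deriv riemannZeta (-2) = -(deriv riemannZeta (-2) * (-1)) by ring, h3]
  push_cast
  field_simp
  ring

end RV7
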