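import Pool.Agent.Lib.RV7.Blue
import Pool.Agent.Lib.RV5.Cz

/-! Blocks REF and CZ: imaginary parts of the sums at the CM point, and the
Eisenstein-Kronecker sum at the CM point. -/

open Complex RV5
open scoped Real ComplexConjugate

namespace RV7

namespace RefCz

lemma g_eq (a b : ℂ) : g a b = (ct (0, 0, 1) a b + ch (0, 0, 0, 1) a b).im := by
  rw [ch_om, g, Complex.add_im, Complex.sub_im, Complex.conj_im]
  ring

lemma summable_chi : Summable fun p : ℤ × ℤ => chi (pt tau0 p) :=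
  Summable.of_norm (by simp only [cz_norm_chi]; exact summable_pt tau0_im_pos (by norm_num))

lemma sub_sum (φ : ℤ × ℤ → ℤ × ℤ) (hφ : Function.Injective φ) (P : ℤ × ℤ → Prop)
    [DecidablePred P] (hP : ∀ q, P q ↔ ∃ p, φ p = q) (t : ℂ)
    (hw : ∀ p, pt tau0 (φ p) = t * (p.1 + p.2 * th)) :
    HasSum (fun q => (if P q then 1 else 0 : ℂ) * chi (pt tau0 q)) (chi t * Z0) := by
  have h1 : Summable fun q => (if P q then 1 else 0 : ℂ) * chi (pt tau0 q) := by
    refine Summable.of_norm_bounded summable_chi.norm fun q => ?_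
    split_ifs <;> simp
  have h2 := hφ.tsum_eq (f := fun q => (if P q then 1 else 0 : ℂ) * chi (pt tau0 q)) (by
    intro q hq
    by_contra hn
    have : ¬ P q := fun h => hn ((hP q).mp h)
    simp [this] at hq)
  have h3 : chi t * Z0 = ∑' q, (if P q then 1 else 0 : ℂ) * chi (pt tau0 q) := by
    rw [← h2, Z0, ← tsum_mul_left]
    refine tsum_congr fun p => ?_
    rw [if_pos ((hP _).mpr ⟨p, rfl⟩), one_mul, hw, cz_chi_mul]
  rw [h3]
  exact h1.hasSum

lemma pt_tau0 (m n : ℤ) : pt tau0 (m, n) = m * (th - 1) + n := by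
  rw [pt_eq, four_tau0]

lemma th_mul : th * (1 - th) = 2 := by linear_combination -th_sq

lemma chi_two : chi 2 = 1 / 64 := by
  rw [chi, map_ofNat]; norm_num

lemma chi_c : chi (1 - th) = th ^ 2 / 16 := by
  refine cz_chi_of _ _ ?_
  rw [map_sub, conj_th, map_one]
  have h : (th * (1 - th)) ^ 4 = 16 := by rw [th_mul]; norm_num
  linear_combination (1 / 16 : ℂ) * h

lemma L1 : HasSum (fun q : ℤ × ℤ => (if True then 1 else 0 : ℂ) * chi (pt tau0 q))
    (chi 1 * Z0) := by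
  refine sub_sum _ (cz_inj 0 1 1 1 (by norm_num)) (fun _ => True) (fun q => ?_) _ fun p => ?_
  · exact ⟨fun _ => ⟨(q.2 - q.1, q.1), Prod.ext (by simp only; omega) (by simp only; omega)⟩,
      fun _ => trivial⟩
  · rw [pt_tau0]; push_cast; ring

lemma L2 : HasSum (fun q : ℤ × ℤ => (if 2 ∣ q.2 then 1 else 0 : ℂ) * chi (pt tau0 q))
    (chi (1 - th) * Z0) := by
  refine sub_sum _ (cz_inj (-1) 0 0 2 (by norm_num)) _ (fun q => ?_) _ fun p => ?_
  · constructor
    · intro h1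
      exact ⟨(-q.1, q.2 / 2), Prod.ext (by simp only; omega) (by simp only; omega)⟩
    · rintro ⟨p, rfl⟩
      simp only; omega
  · rw [pt_tau0]; push_cast
    linear_combination (p.2 : ℂ) * th_sq

lemma L3 : HasSum (fun q : ℤ × ℤ => (if 2 ∣ q.1 ∧ 4 ∣ q.2 then 1 else 0 : ℂ) * chi (pt tau0 q))
    (chi (2 * (1 - th)) * Z0) := by
  refine sub_sum _ (cz_inj (-2) 0 0 4 (by norm_num)) _ (fun q => ?_) _ fun p => ?_
  · constructor
    · rintro ⟨h1, h2⟩
      exact ⟨(-(q.1 / 2), q.2 / 4), Prod.ext (by simp only; omega) (by simp only; omega)⟩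
    · rintro ⟨p, rfl⟩
      simp only; omega
  · rw [pt_tau0]; push_cast
    linear_combination (2 * p.2 : ℂ) * th_sq

lemma L4 : HasSum (fun q : ℤ × ℤ => (if 2 ∣ q.1 ∧ 2 ∣ q.2 then 1 else 0 : ℂ) * chi (pt tau0 q))
    (chi 2 * Z0) := by
  refine sub_sum _ (cz_inj 0 2 2 2 (by norm_num)) _ (fun q => ?_) _ fun p => ?_
  · constructor
    · rintro ⟨h1, h2⟩
      exact ⟨(q.2 / 2 - q.1 / 2, q.1 / 2), Prod.ext (by simp only; omega) (by simp only; omega)⟩
    · rintro ⟨p, rfl⟩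
      simp only; omega
  · rw [pt_tau0]; push_cast; ring

lemma L5 : HasSum (fun q : ℤ × ℤ => (if 4 ∣ 2 * q.1 - q.2 then 1 else 0 : ℂ) * chi (pt tau0 q))
    (chi ((1 - th) * (1 - th)) * Z0) := by
  refine sub_sum _ (cz_inj (-1) (-2) (-2) 0 (by norm_num)) _ (fun q => ?_) _ fun p => ?_
  · constructor
    · intro h1
      exact ⟨(-(q.2 / 2), -((2 * q.1 - q.2) / 4)),
        Prod.ext (by simp only; omega) (by simp only; omega)⟩
    · rintro ⟨p, rfl⟩
      simp only; omega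
  · rw [pt_tau0]; push_cast
    linear_combination (-(p.1 : ℂ) + p.2 * (1 - th)) * th_sq

lemma phi_eq (m n : ℤ) : (phiE n : ℂ) =
    (if True then 1 else 0) - (if 2 ∣ n then 1 else 0) +
      16 * (if 2 ∣ m ∧ 4 ∣ n then 1 else 0) - 8 * (if 2 ∣ m ∧ 2 ∣ n then 1 else 0) -
      8 * (if 4 ∣ 2 * m - n then 1 else 0) := by
  have e4 : 4 ∣ 2 * m - n ↔ 2 ∣ n ∧ (2 ∣ m ↔ 4 ∣ n) := by omega
  have e2 : 4 ∣ n → 2 ∣ n := by omega
  simp only [phiE, ind, e4]
  by_cases h1 : 2 ∣ m <;> by_cases h3 : 4 ∣ n <;> by_cases h2 : 2 ∣ n <;>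
    first
      | exact absurd (e2 h3) h2
      | (simp [h1, h2, h3] <;> norm_num)

end RefCz

open RefCz

theorem ref_of (hB : BOUND) (hH : BOUNDH) : REF := by
  obtain ⟨⟨C, hC, hct, -, -, -⟩, -, hb⟩ := hB
  obtain ⟨D, hD, hch⟩ := hH
  have hM := summable_MM tau0_im_pos
  have s1 : Summable fun x : (ℤ × ℤ) × (ℤ × ℤ) => (phi0 x.1.2 x.2.2 : ℂ) *
      (ct (0, 0, 1) (pt tau0 x.1) (pt tau0 x.2) + ch (0, 0, 0, 1) (pt tau0 x.1) (pt tau0 x.2)) := by
    refine Summable.of_norm_bounded (hM.mul_left (50 * (C + D))) fun x => ?_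
    have h1 := hct (0, 0, 1) (pt tau0 x.1) (pt tau0 x.2)
    have h2 := hch (0, 0, 0, 1) (pt tau0 x.1) (pt tau0 x.2)
    simp only [norm_zero, norm_one, add_zero, zero_add, mul_one] at h1 h2
    rw [norm_mul, Complex.norm_real, Real.norm_eq_abs, mul_assoc]
    refine mul_le_mul (abs_phi0_le _ _) ((norm_add_le _ _).trans ?_) (norm_nonneg _) (by norm_num)
    rw [add_mul]
    exact add_le_add h1 h2
  have s3 : Summable fun p : ℤ × ℤ => (phiE p.2 : ℂ) * chi (pt tau0 p) := by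
    refine Summable.of_norm_bounded
      ((summable_pt tau0_im_pos (k := 6) (by norm_num)).mul_left 20) fun p => ?_
    rw [norm_mul, Complex.norm_real, Real.norm_eq_abs, (hb _).2.2.2.2.2.2.1]
    exact mul_le_mul_of_nonneg_right (abs_phiE_le _) (by positivity)
  constructor
  · rw [GG, T0, Complex.im_tsum s1]
    exact tsum_congr fun x => by rw [g_eq, Complex.im_ofReal_mul]
  · rw [WW, ZE, Complex.im_tsum s3]
    exact tsum_congr fun x => by rw [Complex.im_ofReal_mul]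

theorem cz : CZ := by
  have h := (((L1.sub L2).add (L3.mul_left 16)).sub (L4.mul_left 8)).sub (L5.mul_left 8)
  have h2 : ZE = _ := (h.congr_fun (g := fun p : ℤ × ℤ => (phiE p.2 : ℂ) * chi (pt tau0 p))
    fun p => by rw [phi_eq p.1 p.2]; ring).tsum_eq
  unfold CZ
  rw [h2, cz_chi_mul, cz_chi_mul, cz_chi1, chi_two, chi_c]
  linear_combination (-(1 / 32) * (th ^ 2 + th + 2) * Z0) * th_sq

end RV7
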