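import Pool.Agent.Lib.RV7.Blue
import Pool.Agent.Lib.RV5.Ram

/-! Block RING: the differential ring of weight two Eisenstein series of level four. -/

open Complex Filter Topology RV5

namespace RV7

namespace Ring

variable {q : ℂ}

open RV5.Ram in
lemma ram4 (hq : ‖q‖ < 1) :
    (4 * P (q ^ 4) - P q) ^ 2 = 3 * (Q q - 2 * Q (q ^ 2) + 16 * Q (q ^ 4)) / 5 := by
  refine ident (F := fun q => (4 * P (q ^ 4) - P q) ^ 2)
    (G := fun q => 3 * (Q q - 2 * Q (q ^ 2) + 16 * Q (q ^ 4)) / 5)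
    (fun q hq => (((diffAt_Pp hq four_ne_zero).const_mul _).sub (diffAt_P hq)).pow 2)
    (fun q hq => ((((diffAt_Q hq).sub ((diffAt_Qp hq two_ne_zero).const_mul _)).add
      ((diffAt_Qp hq four_ne_zero).const_mul _)).const_mul _).div_const _)
    (fun y hy => ?_) hq
  have hy2 : 0 < 2 * y := by linarith
  have hy4 : 0 < 4 * y := by linarith
  have h1 := congrArg (fun x : ℝ => (x : ℂ)) (RV6.conv11 hy)
  have h2 := congrArg (fun x : ℝ => (x : ℂ)) (RV6.conv11 hy4)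
  have h3 := congrArg (fun x : ℝ => (x : ℂ)) (RV6.conv14 hy)
  have e2 := RV6.qc_mul 2 y
  have e4 := RV6.qc_mul 4 y
  rw [Nat.cast_ofNat] at e2 e4
  simp only [← e2, ← e4, P, Q, S1_eq hy, S3_eq hy, S3_eq hy2, S1_eq hy4, S3_eq hy4]
  push_cast at h1 h2 h3
  linear_combination 576 * h1 + 9216 * h2 - 4608 * h3

lemma alg {p p2 p4 q1 q2 q4 A w : ℂ} (hA : A = 2 * p2 - p) (hw : w = (8 * p4 - 6 * p2 + p) / 3)
    (h1 : (2 * p2 - p) ^ 2 = (q1 + 4 * q2) / 5) (h2 : (2 * p4 - p2) ^ 2 = (q2 + 4 * q4) / 5)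
    (h3 : (4 * p4 - p) ^ 2 = 3 * (q1 - 2 * q2 + 16 * q4) / 5) :
    (8 * (4 * ((p4 ^ 2 - q4) / 12)) - 6 * (2 * ((p2 ^ 2 - q2) / 12)) + (p ^ 2 - q1) / 12) / 3 =
      (p - A) * w / 6 ∧
    2 * (2 * ((p2 ^ 2 - q2) / 12)) - (p ^ 2 - q1) / 12 = p * A / 6 + A ^ 2 / 3 - w ^ 2 / 2 ∧
    (p ^ 2 - q1) / 12 = (p ^ 2 - 4 * A ^ 2 + 3 * w ^ 2) / 12 ∧
    (q1 - 18 * q2 + 32 * q4) / 15 = w * A := by
  have e2 : q2 = ((2 * p2 - p) ^ 2 - 2 * (2 * p2 - p) * (2 * p4 - p2) +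
      4 * (2 * p4 - p2) ^ 2) / 3 := by
    linear_combination (h3 - 3 * h1 - 12 * h2) / 6
  have e1 : q1 = 5 * (2 * p2 - p) ^ 2 - 4 * q2 := by linear_combination (-5) * h1
  have e4 : q4 = (5 * (2 * p4 - p2) ^ 2 - q2) / 4 := by linear_combination (-5 / 4) * h2
  subst hA hw
  rw [e1, e4, e2]
  refine ⟨?_, ?_, ?_, ?_⟩ <;> ring

lemma eL_eq (q : ℂ) : eL q = 2 * P (q ^ 2) - P q := by
  simp only [eL, P]; ring

lemma wf_eq (q : ℂ) : wf q = (8 * P (q ^ 4) - 6 * P (q ^ 2) + P q) / 3 := by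
  simp only [wf, P]; ring

lemma eS_eq (q : ℂ) : eS q = (Q q - 18 * Q (q ^ 2) + 32 * Q (q ^ 4)) / 15 := by
  simp only [eS, Q]; ring

lemma dP (hq : ‖q‖ < 1) {d : ℕ} (hd : d ≠ 0) :
    HasDerivAt (fun q => P (q ^ d)) (deriv (fun q => P (q ^ d)) q) q :=
  (diffAt_pow (fun _ => diffAt_P) hq hd).hasDerivAt

lemma hasE (hq : ‖q‖ < 1) :
    HasDerivAt eL (2 * deriv (fun q => P (q ^ 2)) q - deriv P q) q := by
  rw [funext eL_eq]
  exact ((dP hq two_ne_zero).const_mul 2).sub (diffAt_P hq).hasDerivAt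

lemma hasW (hq : ‖q‖ < 1) :
    HasDerivAt wf ((8 * deriv (fun q => P (q ^ 4)) q - 6 * deriv (fun q => P (q ^ 2)) q +
      deriv P q) / 3) q := by
  rw [funext wf_eq]
  exact ((((dP hq four_ne_zero).const_mul 8).sub ((dP hq two_ne_zero).const_mul 6)).add
    (diffAt_P hq).hasDerivAt).div_const 3

lemma DP (hq : ‖q‖ < 1) {d : ℕ} (hd : d ≠ 0) :
    q * deriv (fun q => P (q ^ d)) q = d * ((P (q ^ d) ^ 2 - Q (q ^ d)) / 12) := by
  rw [deriv_pow_comp (fun _ => diffAt_P) hq hd, (RV5.ram _ (norm_pow_lt hq hd)).1]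

end Ring

open _root_.RV7.Ring in
theorem ring4 : RING := by
  intro q hq
  have h2 := (RV5.ram _ (norm_pow_lt hq two_ne_zero)).2.1
  rw [← pow_mul] at h2
  obtain ⟨a1, a2, a3, a4⟩ := alg (eL_eq q) (wf_eq q) (RV5.ram q hq).2.1 h2 (ram4 hq)
  have d1 := (RV5.ram q hq).1
  have d2 := DP hq two_ne_zero
  have d4 := DP hq four_ne_zero
  push_cast at d2 d4
  refine ⟨?_, ?_, ?_, ?_⟩
  · rw [(hasW hq).deriv, ← a1]
    linear_combination (8 / 3) * d4 - 2 * d2 + (1 / 3) * d1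
  · rw [(hasE hq).deriv, ← a2]
    linear_combination 2 * d2 - d1
  · rw [d1, a3]
  · rw [eS_eq, a4]

end RV7
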