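import Pool.Agent.Lib.RV7.Blue
import Pool.Agent.Lib.RV5.Split

/-! Block SPLIT: the double lattice sum of `dd` splits into products of single sums. -/

open Complex Filter Topology RV5
open RV5.Split (Ker summ_bdd hA_neg hR_neg mf_neg_left EE dd_eq rot flp)
open scoped Real ComplexConjugate

namespace RV7

namespace Split

noncomputable def TT (h : ℤ × ℤ → ℝ) (r : ℤ) (p : ℤ × ℤ) : ℝ :=
  ∑' a : ℤ × ℤ, ind 4 (a.2 - r) * (h a - h (a + p))

variable {h : ℤ × ℤ → ℝ}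

lemma TT_summ (H : Ker h) (r : ℤ) (p : ℤ × ℤ) :
    Summable fun a : ℤ × ℤ => ind 4 (a.2 - r) * (h a - h (a + p)) :=
  summ_bdd (fun _ => abs_ind_le _ _) (H.diff p)

lemma TT_add (H : Ker h) (r : ℤ) (p p' : ℤ × ℤ) :
    TT h r (p + p') = TT h r p + TT h (r + p.2) p' := by
  have e := (Equiv.addRight p).tsum_eq
    (fun a : ℤ × ℤ => ind 4 (a.2 - (r + p.2)) * (h a - h (a + p')))
  have s := (Equiv.addRight p).summable_iff.mpr (TT_summ H (r + p.2) p')
  rw [TT, TT, TT, ← e]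
  refine Eq.trans (tsum_congr fun a => ?_) ((TT_summ H r p).tsum_add s)
  simp only [Equiv.coe_addRight, Prod.snd_add, add_sub_add_right_eq_sub, add_assoc]
  ring

lemma TT_neg (H : Ker h) (r : ℤ) (p : ℤ × ℤ) : TT h (-r) (-p) = TT h r p := by
  rw [TT, TT, ← (Equiv.neg (ℤ × ℤ)).tsum_eq]
  refine tsum_congr fun a => ?_
  simp only [Equiv.neg_apply, Prod.snd_neg]
  rw [← neg_add, H.even, H.even, show -a.2 - -r = -(a.2 - r) by ring, ind_neg]

lemma TT_congr {r r' : ℤ} (hr : 4 ∣ r - r') (p : ℤ × ℤ) : TT h r p = TT h r' p := by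
  refine tsum_congr fun a => ?_
  have : (4 ∣ a.2 - r) ↔ (4 ∣ a.2 - r') := by omega
  simp only [ind, this]

lemma TT_four (H : Ker h) {p : ℤ × ℤ} (hp : 4 ∣ p.2) : TT h 0 p = 0 := by
  have h1 := TT_add H 0 p (-p)
  have h2 := TT_neg H 0 p
  have h3 : TT h 0 0 = 0 := by simp [TT]
  rw [add_neg_cancel, h3, TT_congr (r := 0 + p.2) (r' := -0) (by omega), h2] at h1
  linarith

lemma TT_per (H : Ker h) {p p' : ℤ × ℤ} (hp : 4 ∣ p.2 - p'.2) : TT h 0 p = TT h 0 p' := by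
  have h1 := TT_add H 0 (p - p') p'
  rw [sub_add_cancel, TT_four H (p := p - p') hp,
    TT_congr (r := 0 + (p - p').2) (r' := 0) (by simpa using hp)] at h1
  linarith

/-- the class function -/
noncomputable def tt (h : ℤ × ℤ → ℝ) (n : ℤ) : ℝ := TT h 0 (0, n)

lemma tt_per (H : Ker h) {n n' : ℤ} (hn : 4 ∣ n - n') : tt h n = tt h n' := TT_per H hn

lemma tt_refl (H : Ker h) {n n' : ℤ} (hn : 4 ∣ n + n') : tt h n = tt h n' := by
  have h2 := TT_neg H 0 (0, n')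
  rw [neg_zero] at h2
  rw [tt, tt, ← h2]
  exact TT_per H (by simpa using hn)

lemma tt_zero : tt h 0 = 0 := by simp [tt, TT, Prod.mk_zero_zero]

lemma TT_eq (H : Ker h) (r : ℤ) (p : ℤ × ℤ) : TT h r p = tt h (r + p.2) - tt h r := by
  have h1 := TT_add H 0 (0, r) p
  rw [TT_per H (p := (0, r) + p) (p' := (0, r + p.2)) (by simp)] at h1
  simp only [zero_add] at h1
  rw [tt, tt]
  linarith

lemma per_expand {f : ℤ → ℝ} (hf : ∀ n, f n = f (n % 4)) (n : ℤ) :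
    f n = ∑ j ∈ Finset.range 4, f j * ind 4 (n - j) := by
  have h0 := Int.emod_nonneg n (show (4 : ℤ) ≠ 0 by norm_num)
  have h1 := Int.emod_lt_of_pos n (show (0 : ℤ) < 4 by norm_num)
  rw [Finset.sum_eq_single (n % 4).toNat]
  · rw [Int.toNat_of_nonneg h0, ind, if_pos (by omega), mul_one, ← hf]
  · intro j hj hne
    rw [Finset.mem_range] at hj
    rw [ind, if_neg (by omega), mul_zero]
  · intro hj
    rw [Finset.mem_range] at hj
    omega

lemma key (H : Ker h) {f : ℤ → ℝ} (hf : ∀ n, f n = f (n % 4)) (b : ℤ × ℤ) :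
    HasSum (fun a : ℤ × ℤ => f a.2 * (h a - h (a + b)))
      (∑ j ∈ Finset.range 4, f j * (tt h (j + b.2) - tt h j)) := by
  have := hasSum_sum (s := Finset.range 4)
    fun j _ => ((TT_summ H j b).hasSum.mul_left (f j))
  simp only [← TT_eq H]
  refine this.congr_fun fun a => ?_
  rw [per_expand hf a.2, Finset.sum_mul]
  exact Finset.sum_congr rfl fun j _ => by ring

lemma ind_mod {d : ℤ} (hd : d ∣ 4) (n c : ℤ) : ind d (n % 4 + c) = ind d (n + c) := by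
  have : d ∣ n % 4 + c ↔ d ∣ n + c := by
    rw [show n % 4 + c = n + c - 4 * (n / 4) by omega]
    exact dvd_sub_left (hd.mul_right _)
  simp only [ind, this]

lemma ind_mod0 {d : ℤ} (hd : d ∣ 4) (n : ℤ) : ind d (n % 4) = ind d n := by
  simpa using ind_mod hd n 0

noncomputable def psi (r s : ℤ) : ℝ := phi0 r s + phi0 (r + s) r

lemma d2 : (2 : ℤ) ∣ 4 := by norm_num
lemma d4 : (4 : ℤ) ∣ 4 := dvd_rfl

lemma psi_mod_left (r s : ℤ) : psi r s = psi (r % 4) s := by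
  simp only [psi, phi0, ind_mod d2, ind_mod0 d2, ind_mod0 d4]

lemma psi_mod_right (r s : ℤ) : psi r s = psi r (s % 4) := by
  simp only [psi, phi0, add_comm r, ind_mod d2, ind_mod0 d2, ind_mod0 d4]

lemma phiE_mod (s : ℤ) : phiE s = phiE (s % 4) := by
  simp only [phiE, ind_mod0 d2, ind_mod0 d4]

lemma psi_eval (H : Ker h) (s : ℤ) :
    ∑ j ∈ Finset.range 4, psi j s * (tt h (j + s) - tt h j) =
      phiE s * (-tt h 2) := by
  have h0 := Int.emod_nonneg s (show (4 : ℤ) ≠ 0 by norm_num)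
  have h1 := Int.emod_lt_of_pos s (show (0 : ℤ) < 4 by norm_num)
  have e1 : ∀ j : ℤ, tt h (j + s) = tt h (j + s % 4) := fun j => tt_per H (by omega)
  simp only [e1, psi_mod_right _ s, phiE_mod s]
  generalize s % 4 = r at h0 h1
  have t0 : tt h 0 = 0 := tt_zero
  have t3 : tt h 3 = tt h 1 := tt_refl H (by norm_num)
  have t4 : tt h 4 = tt h 0 := tt_per H (by norm_num)
  have t5 : tt h 5 = tt h 1 := tt_per H (by norm_num)
  have t6 : tt h 6 = tt h 2 := tt_per H (by norm_num)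
  interval_cases r <;>
  · norm_num [Finset.sum_range_succ, psi, phi0, phiE, ind, t0, t3, t4, t5, t6]
    try ring

noncomputable def gg (n : ℤ) : ℝ :=
  ind 4 (n + 2) + ind 4 (n + 1)

lemma gg_mod (n : ℤ) : gg n = gg (n % 4) := by
  simp only [gg, ind_mod d4]

lemma abs_gg_le (n : ℤ) : |gg n| ≤ 12 := by
  unfold gg ind; split_ifs <;> norm_num

lemma gg_diff (n : ℤ) : gg n - gg (n + -1) = phiL n := by
  have h0 := Int.emod_nonneg n (show (4 : ℤ) ≠ 0 by norm_num)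
  have h1 := Int.emod_lt_of_pos n (show (0 : ℤ) < 4 by norm_num)
  simp only [gg, phiL, add_assoc n, ← ind_mod d4 n, ← ind_mod0 d4 n, ← ind_mod0 d2 n]
  generalize n % 4 = r at h0 h1
  interval_cases r <;> norm_num [ind]

lemma V_eq (H : Ker h) :
    ∑' m : ℤ, ∑' n : ℤ, phiL n * h (m, n) = -tt h 2 := by
  have k := key H gg_mod (0, 1)
  have t0 : tt h 0 = 0 := tt_zero
  have t4 : tt h 4 = tt h 0 := tt_per H (by norm_num)
  have e1 : ∑ j ∈ Finset.range 4, gg j * (tt h (j + ((0, 1) : ℤ × ℤ).2) - tt h j) =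
      -tt h 2 := by
    norm_num [Finset.sum_range_succ, gg, ind, t0, t4]
    ring
  rw [← e1, ← k.tsum_eq, k.summable.tsum_prod]
  refine tsum_congr fun m => ?_
  have s1 : Summable fun n => gg n * h (m, n) := summ_bdd abs_gg_le (H.row m)
  have s2 : Summable fun n => gg (n + -1) * h (m, n) := summ_bdd (fun _ => abs_gg_le _) (H.row m)
  have s3 := (Equiv.addRight (1 : ℤ)).summable_iff.mpr s2
  have e2 := (Equiv.addRight (1 : ℤ)).tsum_eq fun n => gg (n + -1) * h (m, n)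
  calc _ = ∑' n, (gg n * h (m, n) - gg (n + -1) * h (m, n)) :=
        tsum_congr fun n => by rw [← gg_diff]; ring
    _ = _ := by
      rw [s1.tsum_sub s2, ← e2]
      refine Eq.trans (s1.tsum_sub s3).symm (tsum_congr fun n => ?_)
      simp only [Function.comp, Equiv.coe_addRight, add_neg_cancel_right, Prod.mk_add_mk, add_zero]
      ring

lemma inner (H : Ker h) (b : ℤ × ℤ) :
    HasSum (fun a : ℤ × ℤ => psi a.2 b.2 * (h a - h (a + b)))
      (phiE b.2 * ∑' m : ℤ, ∑' n : ℤ, phiL n * h (m, n)) := by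
  rw [V_eq H, ← psi_eval H]
  exact key H (f := fun r => psi r b.2) (fun r => psi_mod_left r _) b

lemma ker_of {τ : ℂ} (hτ : 0 < τ.im) {k : ℂ → ℝ} (h1 : ∀ a, k (-a) = k a)
    (h2 : ∀ a b : ℂ, a ≠ 0 → a + b ≠ 0 → |k a - k (a + b)| ≤ ‖b‖ * (1 / ‖a‖ ^ 3 + 1 / ‖a + b‖ ^ 3))
    (h3 : ∀ a, |k a| ≤ 1 / ‖a‖ ^ 2) : Ker fun p => k (pt τ p) where
  even p := by rw [pt_neg, h1]
  diff b := by
    have s1 := summable_pt hτ (le_refl 3)
    have s2 := (Equiv.addRight b).summable_iff.mpr s1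
    refine Summable.of_norm_bounded_eventually ((s1.add s2).mul_left ‖pt τ b‖) ?_
    refine ((Set.toFinite {0, -b}).subset fun a ha => ?_ : Set.Finite _)
    by_contra hn
    simp only [Set.mem_insert_iff, Set.mem_singleton_iff, not_or] at hn
    apply ha
    have := h2 (pt τ a) (pt τ b) (fun e => hn.1 ((pt_eq_zero hτ).mp e)) fun e =>
      hn.2 (eq_neg_of_add_eq_zero_left ((pt_eq_zero hτ).mp ((pt_add τ a b).trans e)))
    simpa only [Set.mem_ofPred_eq, Real.norm_eq_abs, pt_add, Function.comp, Equiv.coe_addRight]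
      using this
  row m := by
    have s1 := (EisensteinSeries.linear_right_summable (4 * τ) m (k := 2) le_rfl).norm
    refine Summable.of_norm_bounded s1 fun n => ?_
    rw [Real.norm_eq_abs, norm_inv, zpow_two, ← sq, norm_pow, ← one_div, pt_eq]
    exact h3 _

lemma phi0_neg_left (r s : ℤ) : phi0 (-r) s = phi0 r s := by simp only [phi0, ind_neg]
lemma phi0_neg_right (r s : ℤ) : phi0 r (-s) = phi0 r s := by simp only [phi0, ind_neg]

lemma phi0_shift (r s : ℤ) : phi0 (r + s + s) (-s) = phi0 r s := by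
  have h2 : (2 ∣ r + s + s) ↔ 2 ∣ r := by omega
  simp only [phi0, ind, dvd_neg, h2]

lemma phi0_diag (n : ℤ) : phi0 n 0 - phi0 n n = -phiE n := by
  have h0 := Int.emod_nonneg n (show (4 : ℤ) ≠ 0 by norm_num)
  have h1 := Int.emod_lt_of_pos n (show (0 : ℤ) < 4 by norm_num)
  simp only [phi0, phiE, ← ind_mod0 d4 n, ← ind_mod0 d2 n]
  generalize n % 4 = r at h0 h1
  interval_cases r <;> norm_num [ind]

lemma mf_sum (hB : BOUND) {τ : ℂ} (hτ : 0 < τ.im) :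
    HasSum (fun x : (ℤ × ℤ) × (ℤ × ℤ) =>
      phi0 x.1.2 x.2.2 * mf (pt τ x.2) (pt τ x.1 + pt τ x.2)) 0 := by
  have s : Summable fun x : (ℤ × ℤ) × (ℤ × ℤ) =>
      phi0 x.1.2 x.2.2 * mf (pt τ x.2) (pt τ x.1 + pt τ x.2) := by
    refine summ_bdd (fun _ => abs_phi0_le _ _) (Summable.of_norm_bounded
      ((summable_MM hτ).mul_left 8) fun x => ?_)
    generalize pt τ x.1 = a
    generalize pt τ x.2 = b
    obtain ⟨-, -, p1, -, -, p2, -⟩ := hB.2.2 b
    obtain ⟨-, -, q1, -, -, q2, -⟩ := hB.2.2 (a + b)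
    have r1 : |cc b * k3 (a + b)| ≤ 2 / ‖b‖ ^ 3 * (1 / ‖a + b‖ ^ 3) := by
      rw [abs_mul]; gcongr
    have r2 : |cc (a + b) * k3 b| ≤ 2 / ‖a + b‖ ^ 3 * (1 / ‖b‖ ^ 3) := by
      rw [abs_mul]; gcongr
    have r3 : 1 / ‖b‖ ^ 3 * (1 / ‖a + b‖ ^ 3) ≤ MM a b := by
      rw [one_div_mul_one_div, ← mul_pow, MM]
      have : 0 ≤ 1 / (‖a‖ * ‖b‖) ^ 3 := by positivity
      have : 0 ≤ 1 / (‖a + b‖ * ‖a‖) ^ 3 := by positivity
      linarith
    rw [Real.norm_eq_abs, mf, abs_le]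
    rw [abs_le] at r1 r2
    have e1 : 2 / ‖b‖ ^ 3 * (1 / ‖a + b‖ ^ 3) = 2 * (1 / ‖b‖ ^ 3 * (1 / ‖a + b‖ ^ 3)) := by ring
    have e2 : 2 / ‖a + b‖ ^ 3 * (1 / ‖b‖ ^ 3) = 2 * (1 / ‖b‖ ^ 3 * (1 / ‖a + b‖ ^ 3)) := by ring
    constructor <;> linarith [r1.1, r1.2, r2.1, r2.2]
  have e := flp.tsum_eq fun x : (ℤ × ℤ) × (ℤ × ℤ) =>
    phi0 x.1.2 x.2.2 * mf (pt τ x.2) (pt τ x.1 + pt τ x.2)
  have e2 : ∀ x : (ℤ × ℤ) × (ℤ × ℤ), phi0 (flp x).1.2 (flp x).2.2 *
      mf (pt τ (flp x).2) (pt τ (flp x).1 + pt τ (flp x).2) =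
      -(phi0 x.1.2 x.2.2 * mf (pt τ x.2) (pt τ x.1 + pt τ x.2)) := fun x => by
    simp only [flp, Equiv.coe_fn_mk, Prod.snd_add, Prod.snd_neg, pt_add, pt_neg, phi0_shift,
      mf_neg_left, add_neg_cancel_right, mul_neg]
  simp only [e2, tsum_neg] at e
  have h := s.hasSum
  rwa [show ∑' x : (ℤ × ℤ) × (ℤ × ℤ),
    phi0 x.1.2 x.2.2 * mf (pt τ x.2) (pt τ x.1 + pt τ x.2) = 0 by linarith] at h

lemma main_sum (hB : BOUND) {τ : ℂ} (hτ : 0 < τ.im) :
    HasSum (fun x : (ℤ × ℤ) × (ℤ × ℤ) => phi0 x.1.2 x.2.2 *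
      (EE (pt τ x.1) (pt τ x.2) + EE (pt τ x.2) (-pt τ x.1 - pt τ x.2)))
      (3 * (Va τ * K4 τ) - Vr τ * Kb τ) := by
  obtain ⟨⟨C, -, -, -, -, hE⟩, h2, h3⟩ := hB
  have sE : Summable fun x : (ℤ × ℤ) × (ℤ × ℤ) => EE (pt τ x.1) (pt τ x.2) :=
    Summable.of_norm_bounded ((summable_MM hτ).mul_left C) fun x => hE _ _
  have s1 : Summable fun x : (ℤ × ℤ) × (ℤ × ℤ) => phi0 x.1.2 x.2.2 * EE (pt τ x.1) (pt τ x.2) :=
    summ_bdd (fun _ => abs_phi0_le _ _) sE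
  have s2 : Summable fun x : (ℤ × ℤ) × (ℤ × ℤ) =>
      phi0 (x.1.2 + x.2.2) x.1.2 * EE (pt τ x.1) (pt τ x.2) :=
    summ_bdd (fun _ => abs_phi0_le _ _) sE
  have KA : Ker fun p => hA (pt τ p) :=
    ker_of hτ hA_neg (fun a b u v => (h2 a b u v).1) fun a => (h3 a).1
  have KR : Ker fun p => hR (pt τ p) :=
    ker_of hτ hR_neg (fun a b u v => (h2 a b u v).2) fun a => (h3 a).2.1
  have s4 := summable_pt hτ (k := 4) (by norm_num)
  have sK : Summable fun p : ℤ × ℤ => phiE p.2 * k4 (pt τ p) :=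
    summ_bdd (fun _ => abs_phiE_le _) (Summable.of_norm_bounded s4 fun p => (h3 _).2.2.2.1)
  have sB : Summable fun p : ℤ × ℤ => phiE p.2 * bb (pt τ p) :=
    summ_bdd (fun _ => abs_phiE_le _) (Summable.of_norm_bounded (s4.mul_left 3) fun p => by
      rw [mul_one_div]; exact (h3 _).2.2.2.2.1)
  have e1 := (s1.add s2).prod_symm.hasSum.prod_fiberwise
    (g := fun b => 3 * (Va τ * (phiE b.2 * k4 (pt τ b))) - Vr τ * (phiE b.2 * bb (pt τ b)))
    fun b => by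
      have := (((inner KA b).mul_left (3 * k4 (pt τ b))).sub ((inner KR b).mul_left (bb (pt τ b))))
      rw [show 3 * (Va τ * (phiE b.2 * k4 (pt τ b))) - Vr τ * (phiE b.2 * bb (pt τ b)) =
        3 * k4 (pt τ b) * (phiE b.2 * Va τ) - bb (pt τ b) * (phiE b.2 * Vr τ) by ring]
      refine this.congr_fun fun a => ?_
      simp only [Prod.fst_swap, Prod.snd_swap, EE, ef, psi, pt_add]
      ring
  have e2 := e1.unique (((sK.hasSum.mul_left (Va τ)).mul_left 3).sub (sB.hasSum.mul_left (Vr τ)))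
  have e3 := (Equiv.prodComm (ℤ × ℤ) (ℤ × ℤ)).tsum_eq fun x : (ℤ × ℤ) × (ℤ × ℤ) =>
    phi0 x.1.2 x.2.2 * EE (pt τ x.1) (pt τ x.2) +
      phi0 (x.1.2 + x.2.2) x.1.2 * EE (pt τ x.1) (pt τ x.2)
  rw [s1.tsum_add s2] at e3
  have e4 := s1.hasSum.add (rot.hasSum_iff.mpr s2.hasSum)
  rw [← e3] at e4
  rw [K4, Kb, ← e2]
  refine e4.congr_fun fun x => ?_
  simp only [rot, Function.comp, Equiv.coe_fn_mk, sub_eq_add_neg, pt_add, pt_neg, Prod.snd_add,
    Prod.snd_neg, show x.2.2 + (-x.1.2 + -x.2.2) = -x.1.2 by ring, phi0_neg_left]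
  ring

end Split

open RV7.Split in
theorem split_of : BOUND → SPLIT := fun hB τ hτ => by
  classical
  have s6 : Summable fun p : ℤ × ℤ => ef (pt τ p) (pt τ p) :=
    Summable.of_norm_bounded ((summable_pt hτ (k := 6) (by norm_num)).mul_left 6) fun p => by
      rw [mul_one_div]; exact (hB.2.2 _).2.2.2.2.2.2.2
  have s1 : Summable fun p : ℤ × ℤ => phi0 p.2 0 * ef (pt τ p) (pt τ p) :=
    summ_bdd (fun _ => abs_phi0_le _ _) s6
  have s2 : Summable fun p : ℤ × ℤ => phi0 p.2 p.2 * ef (pt τ p) (pt τ p) :=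
    summ_bdd (fun _ => abs_phi0_le _ _) s6
  have d1 : HasSum (fun x : (ℤ × ℤ) × (ℤ × ℤ) => phi0 x.1.2 x.2.2 *
      (if pt τ x.2 = 0 then ef (pt τ x.1) (pt τ x.1) else 0)) _ :=
    (Function.Injective.hasSum_iff (g := fun a : ℤ × ℤ => (a, (0 : ℤ × ℤ)))
      (fun a b e => (Prod.mk.inj e).1) fun x hx => by
        rw [if_neg, mul_zero]
        exact fun e => hx ⟨x.1, Prod.ext rfl ((pt_eq_zero hτ).mp e).symm⟩).mp
      (s1.hasSum.congr_fun fun a => by simp [pt_zero])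
  have d2 : HasSum (fun x : (ℤ × ℤ) × (ℤ × ℤ) => phi0 x.1.2 x.2.2 *
      (if pt τ x.1 + pt τ x.2 = 0 then ef (pt τ x.1) (pt τ x.1) else 0)) _ :=
    (Function.Injective.hasSum_iff (g := fun a : ℤ × ℤ => (a, -a))
      (fun a b e => (Prod.mk.inj e).1) fun x hx => by
        rw [if_neg, mul_zero]
        exact fun e => hx ⟨x.1, Prod.ext rfl (neg_eq_of_add_eq_zero_right
          ((pt_eq_zero hτ).mp ((pt_add τ _ _).trans e)))⟩).mp
      (s2.hasSum.congr_fun fun a => by simp [pt_neg, phi0_neg_right])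
  have e := ((((main_sum hB hτ).add (mf_sum hB hτ)).add d1).sub d2).congr_fun
    (g := fun x : (ℤ × ℤ) × (ℤ × ℤ) => phi0 x.1.2 x.2.2 * dd (pt τ x.1) (pt τ x.2))
    fun x => by rw [dd_eq]; ring
  rw [e.tsum_eq, add_zero, add_sub_assoc, ← s1.tsum_sub s2, sub_eq_add_neg _ (∑' _, _), ← tsum_neg]
  congr 1
  exact tsum_congr fun p => by rw [← sub_mul, phi0_diag, neg_mul]

end RV7
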