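import Pool.Agent.Lib.RV5.Bound
import Pool.Agent.Lib.RV5.Der
import Pool.Agent.Lib.RV5.Jac
import Pool.Agent.Lib.RV7.Int4
import Pool.Agent.Lib.RV7.Mom
import Pool.Agent.Lib.RV7.Bnd
import Pool.Agent.Lib.RV7.Ring
import Pool.Agent.Lib.RV7.Ode1
import Pool.Agent.Lib.RV7.Ode2
import Pool.Agent.Lib.RV7.Cm
import Pool.Agent.Lib.RV7.Num
import Pool.Agent.Lib.RV7.AsmA
import Pool.Agent.Lib.RV7.Split
import Pool.Agent.Lib.RV7.Four1
import Pool.Agent.Lib.RV7.Four2
import Pool.Agent.Lib.RV7.Bline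
import Pool.Agent.Lib.RV7.RefCz
import Pool.Agent.Lib.RV7.CtA
import Pool.Agent.Lib.RV7.CtE
import Pool.Agent.Lib.RV7.Fe
import Pool.Agent.Lib.RV7.PartD

/-! All blocks put together. -/

namespace RV7

theorem main : MAIN :=
  main_of (amain_of jen mom_rec bnd (ode2_of (ode1_of ring4)) cm num)
    (bline_of RV5.bound RV5.der (split_of RV5.bound) four1 (four2_of RV5.bound))
    (ref_of RV5.bound boundH) cz (ct_of RV5.bound boundH chp) (th_of RV5.jac) hec fe zk lchi zp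

end RV7
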