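import Pool.Agent.Lib.RV7.Defs

/-! Basic facts on the q-series and the lattices of `Defs`. -/

open Complex MeasureTheory Filter Topology RV5
open scoped Real ComplexConjugate

namespace RV7

variable {q : ℂ}

lemma diffAt_eL (hq : ‖q‖ < 1) : DifferentiableAt ℂ eL q := by
  have h1 := diffAt_S 1 hq
  have h2 := diffAt_Sp 1 hq two_ne_zero
  unfold eL
  fun_prop

lemma diffAt_eS (hq : ‖q‖ < 1) : DifferentiableAt ℂ eS q := by
  have h1 := diffAt_S 3 hq
  have h2 := diffAt_Sp 3 hq two_ne_zero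
  have h4 := diffAt_Sp 3 hq four_ne_zero
  unfold eS
  fun_prop

lemma diffAt_wf (hq : ‖q‖ < 1) : DifferentiableAt ℂ wf q := by
  have h1 := diffAt_S 1 hq
  have h2 := diffAt_Sp 1 hq two_ne_zero
  have h4 := diffAt_Sp 1 hq four_ne_zero
  unfold wf
  fun_prop

lemma hasDerivAt_l0 (hq : ‖q‖ < 1) :
    HasDerivAt l0 (24 * (deriv (R 1) q - deriv (fun q => R 1 (q ^ 2)) q)) q :=
  ((diffAt_R 1 hq).hasDerivAt.sub (diffAt_Rp 1 hq two_ne_zero).hasDerivAt).const_mul 24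

lemma hasDerivAt_A0 (hq : ‖q‖ < 1) : HasDerivAt A0 (16 * (deriv (R 3) q -
    9 * deriv (fun q => R 3 (q ^ 2)) q + 8 * deriv (fun q => R 3 (q ^ 4)) q)) q :=
  (((diffAt_R 3 hq).hasDerivAt.sub ((diffAt_Rp 3 hq two_ne_zero).hasDerivAt.const_mul 9)).add
    ((diffAt_Rp 3 hq four_ne_zero).hasDerivAt.const_mul 8)).const_mul 16

lemma diffAt_l0 (hq : ‖q‖ < 1) : DifferentiableAt ℂ l0 q := (hasDerivAt_l0 hq).differentiableAt

lemma diffAt_A0 (hq : ‖q‖ < 1) : DifferentiableAt ℂ A0 q := (hasDerivAt_A0 hq).differentiableAt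

lemma diffAt_Psi1 (hq : ‖q‖ < 1) : DifferentiableAt ℂ Psi1 q := (diffAt_A0 hq).sub (diffAt_l0 hq)

lemma diffAt_zf (hq : ‖q‖ < 1) : DifferentiableAt ℂ zf q :=
  (differentiableAt_id.mul (diffAt_l0 hq).cexp).neg

lemma deriv_l0 (hq : ‖q‖ < 1) : q * deriv l0 q = eL q - 1 := by
  have h1 := deriv_R 1 hq
  have h2 := deriv_Rp 1 hq two_ne_zero
  rw [(hasDerivAt_l0 hq).deriv, eL]
  push_cast at h2
  linear_combination 24 * (h1 - h2)

lemma deriv_A0 (hq : ‖q‖ < 1) : q * deriv A0 q = eS q - 1 := by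
  have h1 := deriv_R 3 hq
  have h2 := deriv_Rp 3 hq two_ne_zero
  have h4 := deriv_Rp 3 hq four_ne_zero
  rw [(hasDerivAt_A0 hq).deriv, eS]
  push_cast at h2 h4
  linear_combination 16 * (h1 - 9 * h2 + 8 * h4)

lemma deriv_Psi1 (hq : ‖q‖ < 1) : q * deriv Psi1 q = eS q - eL q := by
  have := ((diffAt_A0 hq).hasDerivAt.sub (diffAt_l0 hq).hasDerivAt).deriv
  rw [show Psi1 = A0 - l0 from rfl, this]
  linear_combination deriv_A0 hq - deriv_l0 hq

lemma deriv_zf (hq : ‖q‖ < 1) : q * deriv zf q = eL q * zf q := by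
  have := (((hasDerivAt_id q).mul (diffAt_l0 hq).hasDerivAt.cexp).neg).deriv
  rw [show zf = -(id * fun x => Complex.exp (l0 x)) from rfl, this]
  simp only [Pi.neg_apply, Pi.mul_apply, id]
  linear_combination -q * Complex.exp (l0 q) * deriv_l0 hq

lemma eL_zero : eL 0 = 1 := by simp [eL, S_zero]
lemma eS_zero : eS 0 = 1 := by simp [eS, S_zero]
lemma wf_zero : wf 0 = 1 := by simp [wf, S_zero]
lemma l0_zero : l0 0 = 0 := by simp [l0, R_zero]
lemma A0_zero : A0 0 = 0 := by simp [A0, R_zero]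
lemma Psi1_zero : Psi1 0 = 0 := by simp [Psi1, l0_zero, A0_zero]
lemma zf_zero : zf 0 = 0 := by simp [zf]

lemma eL_conj (q : ℂ) : eL (conj q) = conj (eL q) := by
  simp only [eL, ← map_pow, S_conj, map_add, map_mul, map_sub, map_one, map_ofNat]

lemma eS_conj (q : ℂ) : eS (conj q) = conj (eS q) := by
  simp only [eS, ← map_pow, S_conj, map_add, map_mul, map_sub, map_one, map_ofNat]

lemma l0_conj (q : ℂ) : l0 (conj q) = conj (l0 q) := by
  simp only [l0, ← map_pow, R_conj, map_mul, map_sub, map_ofNat]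

lemma A0_conj (q : ℂ) : A0 (conj q) = conj (A0 q) := by
  simp only [A0, ← map_pow, R_conj, map_add, map_mul, map_sub, map_ofNat]

lemma Psi1_conj (q : ℂ) : Psi1 (conj q) = conj (Psi1 q) := by
  simp only [Psi1, A0_conj, l0_conj, map_sub]

lemma eL_im (r : ℝ) : (eL r).im = 0 := by
  rw [← Complex.conj_eq_iff_im, ← eL_conj, Complex.conj_ofReal]

lemma Psi1_im (r : ℝ) : (Psi1 r).im = 0 := by
  rw [← Complex.conj_eq_iff_im, ← Psi1_conj, Complex.conj_ofReal]

lemma hasDerivAt_ell {τ : ℂ} (h : 0 < τ.im) : HasDerivAt ell (2 * π * I * eL (e τ)) τ := by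
  have : HasDerivAt ell _ τ := ((hasDerivAt_id τ).const_mul (2 * π * I : ℂ)).add
    (hasDerivAt_comp_e (diffAt_l0 (norm_e_lt h)))
  rw [deriv_l0 (norm_e_lt h)] at this
  exact this.congr_deriv (by ring)

lemma exp_ell (τ : ℂ) : Complex.exp (ell τ) = -zf (e τ) := by
  rw [ell, Complex.exp_add, zf, neg_neg, e]

lemma cA_eq (τ : ℂ) : cA τ = ell τ + Psi1 (e τ) := by rw [cA, ell, Psi1]; ring

lemma tau0_im : tau0.im = √7 / 8 := by simp [tau0]

lemma tau0_re : tau0.re = -1 / 8 := by simp [tau0]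

lemma tau0_im_pos : 0 < tau0.im := by rw [tau0_im]; positivity

lemma th_im : th.im = √7 / 2 := by simp [th]

lemma th_re : th.re = 1 / 2 := by simp [th]

lemma sqrt7_sq : ((√7 : ℝ) : ℂ) ^ 2 = 7 := by
  rw [← Complex.ofReal_pow, Real.sq_sqrt (by norm_num)]; norm_num

lemma th_sq : th ^ 2 = th - 2 := by
  rw [th]
  linear_combination (I ^ 2 / 4) * sqrt7_sq + (7 / 4) * Complex.I_sq

lemma conj_th : conj th = 1 - th := by
  apply Complex.ext
  · simp [th_re]; norm_num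
  · simp

lemma four_tau0 : 4 * tau0 = th - 1 := by rw [tau0, th]; ring

lemma exists_psi : ∃ Ψ, IsPsi Ψ := by
  have hd : DifferentiableOn ℂ (fun q => eL q * Psi1 q) (Metric.ball 0 1) := fun q hq =>
    ((diffAt_eL (mem_ball_zero_iff.mp hq)).mul
      (diffAt_Psi1 (mem_ball_zero_iff.mp hq))).differentiableWithinAt
  have h2 := (Complex.differentiableOn_dslope (c := 0) (Metric.ball_mem_nhds 0 one_pos)).mpr hd
  obtain ⟨Ψ, h0, hΨ⟩ := h2.isExactOn_ball.with_val_at 0 0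
  have key : ∀ q : ℂ, ‖q‖ < 1 → q * deriv Ψ q = eL q * Psi1 q := fun q hq => by
    rw [(hΨ q (mem_ball_zero_iff.mpr hq)).deriv]
    have := sub_smul_dslope (fun q => eL q * Psi1 q) 0 q
    simpa [Psi1_zero] using this
  refine ⟨Ψ, fun q hq => (hΨ q hq).differentiableAt.differentiableWithinAt, h0, key,
    fun r h0r h1r => ?_⟩
  have hn : ∀ t : ℝ, 0 ≤ t → t ≤ r → ‖(t : ℂ)‖ < 1 := fun t a b => by
    rw [Complex.norm_real, Real.norm_of_nonneg a]; linarith
  have hder : ∀ t : ℝ, 0 ≤ t → t ≤ r →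
      HasDerivAt (fun t : ℝ => (Ψ t).im) (deriv Ψ t).im t := fun t a b =>
    Complex.imCLM.hasFDerivAt.comp_hasDerivAt t
      (hΨ t (mem_ball_zero_iff.mpr (hn t a b))).differentiableAt.hasDerivAt.comp_ofReal
  rcases h0r.eq_or_lt with rfl | hr
  · simp [h0]
  obtain ⟨c, hc, e1⟩ := exists_hasDerivAt_eq_slope (fun t : ℝ => (Ψ t).im)
    (fun t : ℝ => (deriv Ψ t).im) hr
    (fun t ht => (hder t ht.1 ht.2).continuousAt.continuousWithinAt)
    (fun t ht => hder t ht.1.le ht.2.le)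
  have e2 := congrArg Complex.im (key c (hn c hc.1.le hc.2.le))
  simp only [Complex.mul_im, Complex.ofReal_re, Complex.ofReal_im, zero_mul, add_zero, eL_im,
    Psi1_im, mul_zero] at e2
  have e3 : (deriv Ψ c).im = 0 := (mul_eq_zero.mp e2).resolve_left hc.1.ne'
  rw [e3, eq_comm, div_eq_zero_iff] at e1
  rcases e1 with e1 | e1
  · simpa [h0] using e1
  · linarith


lemma pt_eq (τ : ℂ) (p : ℤ × ℤ) : pt τ p = (p.1 : ℂ) * (4 * τ) + p.2 := by rw [pt]; ring

lemma pt_add (τ : ℂ) (p p' : ℤ × ℤ) : pt τ (p + p') = pt τ p + pt τ p' := by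
  simp only [pt, Prod.fst_add, Prod.snd_add]; push_cast; ring

lemma pt_neg (τ : ℂ) (p : ℤ × ℤ) : pt τ (-p) = -pt τ p := by
  simp only [pt, Prod.fst_neg, Prod.snd_neg]; push_cast; ring

lemma pt_zero (τ : ℂ) : pt τ 0 = 0 := by simp [pt]

lemma pt_im (τ : ℂ) (p : ℤ × ℤ) : (pt τ p).im = 4 * p.1 * τ.im := by simp [pt]

lemma pt_re (τ : ℂ) (p : ℤ × ℤ) : (pt τ p).re = 4 * p.1 * τ.re + p.2 := by simp [pt]

lemma pt_eq_zero {τ : ℂ} (h : 0 < τ.im) {p : ℤ × ℤ} : pt τ p = 0 ↔ p = 0 := by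
  refine ⟨fun h0 => ?_, fun h0 => h0 ▸ pt_zero τ⟩
  have h1 := pt_im τ p
  have h2 := pt_re τ p
  rw [h0, Complex.zero_im] at h1
  rw [h0, Complex.zero_re] at h2
  have h3 : (p.1 : ℝ) = 0 := by
    rcases mul_eq_zero.mp h1.symm with h4 | h4
    · linarith
    · linarith
  rw [h3] at h2
  ext
  · exact_mod_cast h3
  · have : (p.2 : ℝ) = 0 := by linarith
    exact_mod_cast this

/-- moving along a horizontal line -/
lemma pt_shift {τ : ℂ} (h : 0 < τ.im) (u : ℝ) (p : ℤ × ℤ) :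
    pt (τ + u) p = pt τ p + ((u / τ.im : ℝ) : ℂ) * ((pt τ p).im : ℂ) := by
  have : (τ.im : ℂ) ≠ 0 := by exact_mod_cast h.ne'
  rw [pt_im, pt, pt]
  push_cast
  field_simp
  ring

lemma summable_pt {τ : ℂ} (h : 0 < τ.im) {k : ℕ} (hk : 3 ≤ k) :
    Summable fun p : ℤ × ℤ => 1 / ‖pt τ p‖ ^ k := by
  simp only [pt_eq]
  exact summable_lat (by simpa using h) hk

lemma summable_pt_pair {τ : ℂ} (h : 0 < τ.im) :
    Summable fun x : (ℤ × ℤ) × (ℤ × ℤ) => 1 / (‖pt τ x.1‖ * ‖pt τ x.2‖) ^ 3 := by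
  have h3 := summable_pt h (le_refl 3)
  refine (h3.mul_of_nonneg h3 (fun _ => by positivity) fun _ => by positivity).congr fun x => ?_
  rw [mul_pow, one_div_mul_one_div]

lemma summable_MM {τ : ℂ} (h : 0 < τ.im) :
    Summable fun x : (ℤ × ℤ) × (ℤ × ℤ) => MM (pt τ x.1) (pt τ x.2) := by
  have h0 := summable_pt_pair h
  have h1 := h0.comp_injective (i := fun x : (ℤ × ℤ) × (ℤ × ℤ) => (x.2, x.1 + x.2))
    fun x y hxy => by
      obtain ⟨e1, e2⟩ := Prod.mk.inj hxy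
      rw [e1, add_left_inj] at e2
      exact Prod.ext e2 e1
  have h2 := h0.comp_injective (i := fun x : (ℤ × ℤ) × (ℤ × ℤ) => (x.1 + x.2, x.1))
    fun x y hxy => by
      obtain ⟨e1, e2⟩ := Prod.mk.inj hxy
      rw [e2, add_right_inj] at e1
      exact Prod.ext e2 e1
  refine ((h0.add h1).add h2).congr fun x => ?_
  simp only [MM, Function.comp, pt_add]

/-- locally uniform comparison along a horizontal line -/
lemma pt_compare {τ : ℂ} (h : 0 < τ.im) (U : ℝ) :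
    ∃ c : ℝ, 0 < c ∧ ∀ u : ℝ, |u| ≤ U → ∀ p, c * ‖pt τ p‖ ≤ ‖pt (τ + u) p‖ := by
  refine ⟨1 / (1 + |U| / τ.im), by positivity, fun u hu p => ?_⟩
  have h1 : pt τ p = pt (τ + u) p + ((-u / τ.im : ℝ) : ℂ) * ((pt (τ + u) p).im : ℂ) := by
    have := pt_shift (τ := τ + u) (by simpa using h) (-u) p
    simpa using this
  rw [div_mul_eq_mul_div, one_mul, div_le_iff₀ (by positivity)]
  calc ‖pt τ p‖ ≤ ‖pt (τ + u) p‖ + ‖((-u / τ.im : ℝ) : ℂ) * ((pt (τ + u) p).im : ℂ)‖ := by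
        conv_lhs => rw [h1]
        exact norm_add_le _ _
    _ ≤ ‖pt (τ + u) p‖ + |U| / τ.im * ‖pt (τ + u) p‖ := by
        rw [norm_mul, Complex.norm_real, Complex.norm_real, Real.norm_eq_abs, Real.norm_eq_abs,
          abs_div, abs_neg, abs_of_pos h]
        have h2 := hu.trans (le_abs_self U)
        have h3 := Complex.abs_im_le_norm (pt (τ + u) p)
        gcongr
    _ = _ := by ring

lemma abs_phi0_le (a b : ℤ) : |phi0 a b| ≤ 50 := by
  unfold phi0 ind; split_ifs <;> norm_num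

lemma abs_phiL_le (a : ℤ) : |phiL a| ≤ 12 := by
  unfold phiL ind; split_ifs <;> norm_num

lemma abs_phiE_le (a : ℤ) : |phiE a| ≤ 20 := by
  unfold phiE ind; split_ifs <;> norm_num

lemma ch_om (a b : ℂ) : ch (0, 0, 0, 1) a b = om a b - conj (om a b) := by
  simp only [ch, om, gA, gB, map_mul, Complex.conj_conj]
  ring

lemma ch_zero (h : ℂ × ℂ × ℂ × ℂ) {a b : ℂ} (h0 : a = 0 ∨ b = 0 ∨ a + b = 0) : ch h a b = 0 := by
  rcases h0 with h0 | h0 | h0
  · simp [ch, gA, h0]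
  · simp [ch, gA, h0]
  · have : -a - b = 0 := by linear_combination -h0
    simp [ch, gB, this]

lemma ch_hom (h : ℂ × ℂ × ℂ × ℂ) (t a b : ℂ) : ch h (t * a) (t * b) = chi3 t * ch h a b := by
  have e : -(t * a) - t * b = t * (-a - b) := by ring
  simp only [ch, gA, gB, chi3, e, map_mul, map_add, div_eq_mul_inv, mul_inv, mul_pow, map_inv₀,
    map_pow]
  ring

end RV7
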