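import Pool.Agent.Lib.RV7.Basic

/-! Blueprint: block statements for the level seven identity, and the final assembly.
Proof sketches are in the team store file rv7_PLAN.md. -/

open Complex MeasureTheory Filter Topology RV5
open scoped Real ComplexConjugate

namespace RV7

/-! ### Part A: the Mahler measure as `Im Ψ(e τ₀) / 2π` -/

def JEN : Prop := m4 = mP / 2

def MOM : Prop := Rec (fun n => (mom n : ℂ)) ∧ ∀ n : ℕ, ‖(mom n : ℂ)‖ ≤ 64 ^ n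

def BND : Prop := ∃ F : ℂ → ℂ, DifferentiableOn ℂ F {z | 0 < z.im} ∧
  (∀ z : ℂ, 0 < z.im → ‖z‖ < 1 / 64 →
    HasSum (fun n : ℕ => (mom n : ℂ) / (n : ℂ) ^ 2 * z ^ n) (F z)) ∧
  Tendsto (fun z => (F z).im) (𝓝[{z : ℂ | 0 < z.im}] 1) (𝓝 (π * mP))

def RING : Prop := ∀ q : ℂ, ‖q‖ < 1 →
  q * deriv wf q = (P q - eL q) * wf q / 6 ∧
  q * deriv eL q = P q * eL q / 6 + eL q ^ 2 / 3 - wf q ^ 2 / 2 ∧
  q * deriv P q = (P q ^ 2 - 4 * eL q ^ 2 + 3 * wf q ^ 2) / 12 ∧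
  eS q = wf q * eL q

def ODE1 : Prop := ∃ (ε : ℝ) (w w1 w2 w3 : ℂ → ℂ), 0 < ε ∧ ε ≤ 1 ∧ w 0 = 1 ∧
  ∀ q : ℂ, ‖q‖ < ε →
    DifferentiableAt ℂ w q ∧ DifferentiableAt ℂ w1 q ∧ DifferentiableAt ℂ w2 q ∧
    DifferentiableAt ℂ w3 q ∧ eS q = w q * eL q ∧ q * deriv w q = eL q * w1 q ∧
    q * deriv w1 q = eL q * w2 q ∧ q * deriv w2 q = eL q * w3 q ∧
    (1 - 64 * zf q) * w3 q = 96 * zf q * w2 q + 48 * zf q * w1 q + 8 * zf q * w q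

def ODE2 : Prop := ∀ (Ψ : ℂ → ℂ) (a : ℕ → ℂ), IsPsi Ψ → Rec a → (∀ n, ‖a n‖ ≤ 64 ^ n) →
  ∀ᶠ q in 𝓝 (0 : ℂ), HasSum (fun n : ℕ => a n / (n : ℂ) ^ 2 * zf q ^ n) (Ψ q)

def CM : Prop := Complex.exp (ell tau0) = -1

def NUM : Prop := -(3 * π) < (ell tau0).im ∧
  ∀ v : ℝ, √7 / 8 < v →
    (ell tau0).im < (ell (-1 / 8 + v * I)).im ∧ (ell (-1 / 8 + v * I)).im < 0

def AMAIN : Prop := ∀ Ψ, IsPsi Ψ → (ell tau0).re = 0 ∧ (Ψ (e tau0)).im = 2 * π * m4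

/-! ### Part B: the double Eisenstein-Kronecker sum -/

def BOUNDH : Prop := ∃ C : ℝ, 0 ≤ C ∧ ∀ (h : ℂ × ℂ × ℂ × ℂ) (a b : ℂ),
  ‖ch h a b‖ ≤ C * (‖h.1‖ + ‖h.2.1‖ + ‖h.2.2.1‖ + ‖h.2.2.2‖) * MM a b

def SPLIT : Prop := ∀ τ : ℂ, 0 < τ.im →
  ∑' x : (ℤ × ℤ) × (ℤ × ℤ), phi0 x.1.2 x.2.2 * dd (pt τ x.1) (pt τ x.2) =
    3 * (Va τ * K4 τ) - Vr τ * Kb τ - ∑' p : ℤ × ℤ, phiE p.2 * ef (pt τ p) (pt τ p)

def FOUR1 : Prop := ∀ τ : ℂ, 0 < τ.im →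
  τ.im * Va τ = -(π / 48) * (ell τ).re ∧ Vr τ = π ^ 2 / 24 * (eL (e τ)).re

def FOUR2 : Prop := ∀ τ : ℂ, 0 < τ.im →
  K4 τ = π ^ 4 / 96 * (eS (e τ)).re ∧ τ.im * Kb τ = -(π ^ 3 / 64) * (cA τ).re

def BLINE : Prop := ∀ Ψ, IsPsi Ψ → ∀ τ : ℂ, 0 < τ.im →
  τ.im ^ 2 * (GG τ + WW τ) =
    π ^ 4 / 3072 * ((ell τ).re * (Psi1 (e τ)).im - (Ψ (e τ)).im)

def REF : Prop := GG tau0 = T0.im ∧ WW tau0 = ZE.im

/-! ### Part C: evaluation at the CM point -/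

def CZ : Prop := ZE = (1 + 3 / 64 * th ^ 2) * Z0

open RV5.Ct in
def CHP : Prop :=
  (∀ (i : ℕ) (h : ℂ × ℂ × ℂ × ℂ) (p : ℂ × ℂ),
    ch h p.1 p.2 = pS i * ch (ph h (pU i) (pV i)) (dot (pU i) p) (dot (pV i) p)) ∧
  ∀ z : ℂ, z ≠ 0 → 1 - z ≠ 0 → ∀ (h : ℂ × ℂ × ℂ × ℂ) (p : ℂ × ℂ),
    ∑ i ∈ Finset.range 4, (if dot (fL z i) p = 0 then 0 else faceH z h p i) = 0

def CT : Prop := T0 = (-9 / 8 - 3 / 8 * th) * Z0 + (7 / 128 - 7 / 64 * th) * Z3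

/-! ### Part D: the L-functions -/

def TH : Prop := ∃ (a : ℕ → ℤ) (C : ℝ), a 0 = 0 ∧ (∀ n, |(a n : ℝ)| ≤ C * ((n : ℝ) + 1) ^ 2) ∧
  (∀ τ : ℂ, 0 < τ.im → HasSum (fun n : ℕ => (a n : ℂ) * e τ ^ n) (f7 τ)) ∧
  HasSum (fun n : ℕ => (a n : ℝ) / (n : ℝ) ^ 4) ThL

def HEC : Prop := Z0 = 2 * (ThL : ℂ)

def FE : Prop := ∀ (a : ℕ → ℤ) (C : ℝ), a 0 = 0 → (∀ n, |(a n : ℝ)| ≤ C * ((n : ℝ) + 1) ^ 2) →
  (∀ τ : ℂ, 0 < τ.im → HasSum (fun n : ℕ => (a n : ℂ) * e τ ^ n) (f7 τ)) →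
  ∃ L : ℂ → ℂ, Differentiable ℂ L ∧
    (∀ s : ℂ, 3 < s.re → LSeriesHasSum (fun n : ℕ => (a n : ℂ)) s (L s)) ∧
    L (-1) = 0 ∧ L 4 ≠ 0 ∧ deriv L (-1) = -((147 * √7 / (16 * π ^ 5) : ℝ) : ℂ) * L 4

def ZK : Prop := Z3 = ((2 * zeta3 * Lchi : ℝ) : ℂ)

def LCHI : Prop := Lchi = 32 * π ^ 3 * √7 / 2401

def ZP : Prop := deriv riemannZeta (-2) = -((zeta3 / (4 * π ^ 2) : ℝ) : ℂ)

/-! ### Final assembly -/

def MAIN : Prop := ∃ a : ℕ → ℤ,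
  (∀ τ : ℂ, 0 < τ.im → HasSum (fun n : ℕ => (a n : ℂ) * e τ ^ n) (f7 τ)) ∧
  ∃ L : ℂ → ℂ, Differentiable ℂ L ∧
    (∀ s : ℂ, 3 < s.re → LSeriesHasSum (fun n : ℕ => (a n : ℂ)) s (L s)) ∧
    L (-1) = 0 ∧ deriv L (-1) ≠ 0 ∧
    (m4 : ℂ) = -6 * deriv L (-1) - 48 / 7 * deriv riemannZeta (-2)

theorem main_of (hA : AMAIN) (hB : BLINE) (hR : REF) (hZ : CZ) (hT : CT) (hTH : TH) (hH : HEC)
    (hF : FE) (hK : ZK) (hC : LCHI) (hP : ZP) : MAIN := by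
  obtain ⟨a, C, h0, hb, hq, hL⟩ := hTH
  obtain ⟨L, d1, d2, d3, d4, d5⟩ := hF a C h0 hb hq
  obtain ⟨Ψ, hΨ⟩ := exists_psi
  obtain ⟨a1, a2⟩ := hA Ψ hΨ
  have hp := Real.pi_pos
  have b1 := hB Ψ hΨ tau0 tau0_im_pos
  have c1 : T0 + ZE = (-7 / 16 - 21 / 32 * th) * (ThL : ℂ) +
      (7 / 128 - 7 / 64 * th) * ((2 * zeta3 * Lchi : ℝ) : ℂ) := by
    unfold HEC at hH
    unfold ZK at hK
    rw [hT, hZ, hH, hK, th_sq]; ring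
  have c2 : T0.im + ZE.im = -(21 * √7 / 64) * ThL - 7 * √7 / 128 * (2 * zeta3 * Lchi) := by
    have := congrArg Complex.im c1
    generalize 2 * zeta3 * Lchi = X at this ⊢
    simp [th_im] at this
    linarith
  have l4 : L 4 = ThL := by
    refine (d2 4 (by norm_num)).unique ((Complex.hasSum_ofReal.mpr hL).congr_fun fun n => ?_)
    rw [LSeries.term_of_ne_zero' (by norm_num), show (4 : ℂ) = ((4 : ℕ) : ℂ) by norm_num,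
      Complex.cpow_natCast]
    push_cast
    rfl
  rw [hR.1, hR.2, c2, a1, a2, tau0_im, div_pow, Real.sq_sqrt (by norm_num), hC] at b1
  have s7 : √7 * √7 = 7 := Real.mul_self_sqrt (by norm_num)
  have m : m4 = 6 * (147 * √7 / (16 * π ^ 5) * ThL) + 48 / 7 * (zeta3 / (4 * π ^ 2)) := by
    have m' : m4 * π ^ 5 = 441 * √7 / 8 * ThL + 12 / 7 * zeta3 * π ^ 3 := by
      linear_combination (1536 : ℝ) * b1 + (588 / 2401 * zeta3 * π ^ 3) * s7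
    rw [eq_div_of_mul_eq (by positivity) m']
    field_simp
    ring
  refine ⟨a, hq, L, d1, d2, d3, ?_, ?_⟩
  · rw [d5]
    refine mul_ne_zero (neg_ne_zero.mpr ?_) d4
    exact Complex.ofReal_ne_zero.mpr (by positivity)
  · unfold ZP at hP
    rw [d5, l4, m, hP]
    push_cast
    ring

end RV7
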