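import Pool.Agent.Lib.RV7.CtB

/-! Hecke, tetrahedron and symmetry relations between the lattice sums; soundness of the checker. -/

open Complex RV5 RV5.Ct
open scoped ComplexConjugate

namespace RV7.Ct

lemma hasSum_T (hB : Hyp) (L : L4) (q : Q7) : HasSum (L.sp.indicator (F q)) (T L.sp q) :=
  hasSum_subtype_iff_indicator.mp (summable_F hB L q).hasSum

abbrev F4 : Type := ℚ × ℚ × ℚ × ℚ

def fn (f : F4) (p : V) : ℚ :=
  f.1 * p.1.re + f.2.1 * p.1.im + f.2.2.1 * p.2.re + f.2.2.2 * p.2.im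

lemma fn_ev (f : F4) (L : L4) (x : Z4) : fn f (L.ev x) =
    x.1 * fn f L.a + x.2.1 * fn f L.b + x.2.2.1 * fn f L.c + x.2.2.2 * fn f L.d := by
  simp only [fn, L4.ev, sm, QuadraticAlgebra.re_add, QuadraticAlgebra.im_add]
  ring

def dual (L : L4) (f g : F4) : Prop :=
  fn f L.a = 1 ∧ fn f L.b = 0 ∧ fn f L.c = 0 ∧ fn f L.d = 0 ∧
    fn g L.a = 0 ∧ fn g L.b = 1 ∧ fn g L.c = 0 ∧ fn g L.d = 0

instance (L : L4) (f g : F4) : Decidable (dual L f g) := by unfold dual; infer_instance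

def L4.sub (L : L4) (a b c d : ℤ) : L4 :=
  L.comb ⟨(a, b, 0, 0), (c, d, 0, 0), (0, 0, 1, 0), (0, 0, 0, 1)⟩

lemma sub_ev (L : L4) (a b c d : ℤ) (y : Z4) : (L.sub a b c d).ev y =
    L.ev (y.1 * a + y.2.1 * c, y.1 * b + y.2.1 * d, y.2.2.1, y.2.2.2) := by
  simp only [L4.ev_eq, L4.sub, L4.comb]
  module

lemma mem_sub {L : L4} {f g : F4} (h : dual L f g) (a b c d : ℤ) (x : Z4) :
    L.ev x ∈ (L.sub a b c d).sp ↔ ∃ s t : ℤ, s * a + t * c = x.1 ∧ s * b + t * d = x.2.1 := by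
  obtain ⟨h1, h2, h3, h4, h5, h6, h7, h8⟩ := h
  constructor
  · rintro ⟨y, hy⟩
    rw [sub_ev] at hy
    have e1 := congrArg (fn f) hy
    have e2 := congrArg (fn g) hy
    simp only [fn_ev, h1, h2, h3, h4, h5, h6, h7, h8, mul_one, mul_zero, add_zero, zero_add]
      at e1 e2
    exact ⟨y.1, y.2.1, by exact_mod_cast e1, by exact_mod_cast e2⟩
  · rintro ⟨s, t, e1, e2⟩
    exact ⟨(s, t, x.2.2.1, x.2.2.2), by rw [sub_ev]; simp only [e1, e2]⟩

lemma sub_sub (L : L4) (a b c d : ℤ) : (L.sub a b c d).sp ⊆ L.sp := L.comb_sub _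

lemma hecke2 (hB : Hyp) {L : L4} {f g : F4} (h : dual L f g) (q : Q7) :
    T (L.sub 2 0 0 1).sp q + T (L.sub 1 0 0 2).sp q + T (L.sub 1 1 0 2).sp q - T L.sp q -
      2 * T (L.sub 2 0 0 2).sp q = 0 := by
  refine ((((((hasSum_T hB _ q).add (hasSum_T hB _ q)).add (hasSum_T hB _ q)).sub
    (hasSum_T hB _ q)).sub ((hasSum_T hB _ q).mul_left 2)).unique
      (hasSum_zero.congr_fun fun p => ?_))
  by_cases hp : p ∈ L.sp
  · obtain ⟨x, rfl⟩ := hp
    have m1 : L.ev x ∈ (L.sub 2 0 0 1).sp ↔ x.1 % 2 = 0 := (mem_sub h _ _ _ _ x).trans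
      ⟨fun ⟨s, t, a, b⟩ => by omega, fun a => ⟨x.1 / 2, x.2.1, by omega, by omega⟩⟩
    have m2 : L.ev x ∈ (L.sub 1 0 0 2).sp ↔ x.2.1 % 2 = 0 := (mem_sub h _ _ _ _ x).trans
      ⟨fun ⟨s, t, a, b⟩ => by omega, fun a => ⟨x.1, x.2.1 / 2, by omega, by omega⟩⟩
    have m3 : L.ev x ∈ (L.sub 1 1 0 2).sp ↔ (x.2.1 - x.1) % 2 = 0 := (mem_sub h _ _ _ _ x).trans
      ⟨fun ⟨s, t, a, b⟩ => by omega, fun a => ⟨x.1, (x.2.1 - x.1) / 2, by omega, by omega⟩⟩
    have m4 : L.ev x ∈ (L.sub 2 0 0 2).sp ↔ x.1 % 2 = 0 ∧ x.2.1 % 2 = 0 :=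
      (mem_sub h _ _ _ _ x).trans ⟨fun ⟨s, t, a, b⟩ => by omega,
        fun a => ⟨x.1 / 2, x.2.1 / 2, by omega, by omega⟩⟩
    have m0 : L.ev x ∈ L.sp := ⟨x, rfl⟩
    classical
    simp only [Set.indicator_apply, m0, m1, m2, m3, m4]
    split_ifs <;> first | omega | ring1
  · simp only [Set.indicator_of_notMem hp, Set.indicator_of_notMem (fun a => hp (sub_sub _ _ _ _ _ a))]
    ring

def wwK (x y z a b : KK) : KK := 2 * (x / (a * a * a * b) + y / (a * a * (b * b)) + z / (a * (b * b * b)))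

def ctK (q : Q3) (a b : KK) : KK :=
  wwK q.1 q.2.1 q.2.2 a b / star (b * (-a - b)) -
    wwK q.2.2 (-q.2.1 - q.2.2) (q.1 + 2 * q.2.1 + q.2.2) b (-a - b) / star (a * b)

lemma io_wwK (x y z a b : KK) : io (wwK x y z a b) = ww (io x) (io y) (io z) (io a) (io b) := by
  simp only [wwK, ww, map_mul, map_add, map_div₀, map_ofNat]
  ring

lemma io_ctK (q : Q3) (a b : KK) : io (ctK q a b) = ct (iq q) (io a) (io b) := by
  simp only [ctK, ct, iq, map_sub, map_div₀, io_star, io_wwK, map_mul, map_add, map_neg,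
    map_ofNat]

def gAK (a b : KK) : V := (-1 / (a * a * b), -1 / (a * (b * b)))

def gBK (a b : KK) : V :=
  (1 / (b * ((-a - b) * (-a - b))), -1 / (b * b * (-a - b)) + 1 / (b * ((-a - b) * (-a - b))))

def chK (h : Q4) (a b : KK) : KK :=
  h.1 * ((gAK a b).1 * star (gBK a b).1 - (gBK a b).1 * star (gAK a b).1) +
    h.2.1 * ((gAK a b).1 * star (gBK a b).2 - (gBK a b).1 * star (gAK a b).2) +
    h.2.2.1 * ((gAK a b).2 * star (gBK a b).1 - (gBK a b).2 * star (gAK a b).1) +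
    h.2.2.2 * ((gAK a b).2 * star (gBK a b).2 - (gBK a b).2 * star (gAK a b).2)

lemma io_chK (h : Q4) (a b : KK) : io (chK h a b) = ch (ih h) (io a) (io b) := by
  have hA : iv (gAK a b) = gA (io a) (io b) := by
    simp only [iv, gAK, gA, map_div₀, map_mul, map_neg, map_one, sq]
  have hB : iv (gBK a b) = gB (io a) (io b) := by
    simp only [iv, gBK, gB, map_div₀, map_mul, map_neg, map_one, map_add, map_sub, sq]
  simp only [chK, ch, ih, ← hA, ← hB, iv, map_add, map_mul, map_sub, io_star]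

def b2 : KK := ⟨0, 1⟩

lemma io_O (y : ℤ × ℤ) : io (y.1 + y.2 * b2) = y.1 + y.2 * th := by
  simp [b2, io_apply]

lemma summable_O : Summable fun y : ℤ × ℤ => 1 / ‖(y.1 : ℂ) + y.2 * th‖ ^ 6 := by
  have := (summable_lat (z := th) (by rw [th_im]; positivity) (k := 6) (by norm_num)).prod_symm
  simpa only [Prod.fst_swap, Prod.snd_swap, add_comm] using this

lemma hasSum_Z0 (hB : Hyp) : HasSum (fun y : ℤ × ℤ => chi (y.1 + y.2 * th)) Z0 :=
  (Summable.of_norm_bounded summable_O fun _ => (hB.b.2.2 _).2.2.2.2.2.2.1.le).hasSum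

lemma hasSum_Z3 : HasSum (fun y : ℤ × ℤ => chi3 (y.1 + y.2 * th)) Z3 :=
  (Summable.of_norm_bounded summable_O fun y => by
    rw [chi3, norm_div, norm_one, norm_mul, norm_pow, norm_pow, Complex.norm_conj, ← pow_add]).hasSum

/-- certificate for the sum over the lattice points on the line `l = 0` -/
structure LC where
  U : M4
  U' : M4
  e1 : KK
  e2 : KK

def LC.ok (c : LC) (L : L4) (l u v : V) : Prop :=
  L = (L.comb c.U).comb c.U' ∧
  (dot l (L.comb c.U).a).re * (dot l (L.comb c.U).b).im ≠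
    (dot l (L.comb c.U).a).im * (dot l (L.comb c.U).b).re ∧
  dot l (L.comb c.U).c = 0 ∧ dot l (L.comb c.U).d = 0 ∧
  app u v (L.comb c.U).c = (c.e1, c.e2) ∧
  app u v (L.comb c.U).d = (b2 * c.e1, b2 * c.e2) ∧ c.e1 ≠ 0

instance (c : LC) (L : L4) (l u v : V) : Decidable (c.ok L l u v) := by
  unfold LC.ok; infer_instance

lemma LC.sound (hB : Hyp) {c : LC} {L : L4} {l u v : V} (h : c.ok L l u v) (q : Q7) :
    ∑' p : L.sp, (if dot l p.1 = 0 then F q (app u v p) else 0) =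
      io (ctK q.1 c.e1 c.e2) * Z0 + io (chK q.2 c.e1 c.e2) * Z3 := by
  obtain ⟨h1, h2, h3, h4, h5, h6, h7⟩ := h
  generalize hW : L.comb c.U = W at *
  have hs : L.sp = W.sp := sp_eq h1 hW.symm
  have dl : ∀ x : Z4, dot l (W.ev x) = x.1 * dot l W.a + x.2.1 * dot l W.b := fun x => by
    simp only [dot, L4.ev, sm_eq] at h3 h4 ⊢
    linear_combination x.2.2.1 * h3 + x.2.2.2 * h4
  have ap : ∀ y : ℤ × ℤ, app u v (W.ev (0, 0, y.1, y.2)) =
      ((y.1 + y.2 * b2) * c.e1, (y.1 + y.2 * b2) * c.e2) := fun y => by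
    rw [app_ev]
    simp only [L4.ev, L4.map, h5, h6, sm_eq]
    ext : 1 <;> simp only <;> push_cast <;> ring
  let j : ℤ × ℤ → L.sp := fun y => ⟨W.ev (0, 0, y.1, y.2), hs ▸ ⟨_, rfl⟩⟩
  have hj : Function.Injective j := fun y y' e => by
    have e1 := congrArg (fun p : L.sp => (app u v p.1).1) e
    simp only [j, ap] at e1
    have e2 := mul_right_cancel₀ h7 e1
    have e3 := congrArg QuadraticAlgebra.re e2
    have e4 := congrArg QuadraticAlgebra.im e2
    simp [b2] at e3 e4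
    exact Prod.ext e3 e4
  rw [← hj.tsum_eq]
  · refine ((((hasSum_Z0 hB).mul_left _).add (hasSum_Z3.mul_left _)).congr_fun fun y => ?_).tsum_eq
    rw [if_pos (by simp [j, dl]), ap, io_ctK, io_chK, F, map_mul, map_mul, ct_hom, ch_hom, io_O]
    ring
  · rintro ⟨p, hp⟩ hs'
    obtain ⟨x, rfl⟩ := hs ▸ hp
    have h0 : dot l (W.ev x) = 0 := by
      by_contra h0
      exact hs' (if_neg h0)
    rw [dl] at h0
    have e3 := congrArg QuadraticAlgebra.re h0
    have e4 := congrArg QuadraticAlgebra.im h0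
    simp only [QuadraticAlgebra.re_add, QuadraticAlgebra.im_add, ← sm_eq, sm,
      QuadraticAlgebra.re_zero, QuadraticAlgebra.im_zero] at e3 e4
    have x1 : (x.1 : ℚ) = 0 := mul_right_cancel₀ (sub_ne_zero.mpr h2)
      (by linear_combination (dot l W.b).im * e3 - (dot l W.b).re * e4)
    have x2 : (x.2.1 : ℚ) = 0 := mul_right_cancel₀ (sub_ne_zero.mpr h2)
      (by linear_combination (dot l W.a).re * e4 - (dot l W.a).im * e3)
    refine ⟨x.2.2, Subtype.ext ?_⟩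
    obtain ⟨a, b, c, d⟩ := x
    simp only [Int.cast_eq_zero] at x1 x2
    simp only [j, x1, x2]

def fN (z : KK) (i : ℕ) : KK := fS i * (dt (fU z i) (fV z i) * star (dt (fU z i) (fV z i)))

lemma iv_fU (z : KK) (i : ℕ) : iv (fU z i) = fU (io z) i := by
  unfold fU; split <;> simp [iv]

lemma iv_fV (z : KK) (i : ℕ) : iv (fV z i) = fV (io z) i := by
  unfold fV; split <;> simp [iv]

lemma iv_fL (z : KK) (i : ℕ) : iv (fL z i) = fL (io z) i := by
  unfold fL; split <;> simp [iv]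

lemma io_fS (i : ℕ) : io (fS i) = fS i := by
  unfold fS; split <;> simp

lemma dt_face {z : KK} (h0 : z ≠ 0) (h1 : 1 - z ≠ 0) (i : ℕ) : dt (fU z i) (fV z i) ≠ 0 := by
  match i with
  | 0 => simpa [dt, fU, fV] using ⟨h1, h0⟩
  | 1 => simpa [dt, fU, fV] using fun h => h1 (by linear_combination -h)
  | 2 => simpa [dt, fU, fV] using h0
  | (n + 3) => simp [dt, fU, fV]

lemma tet_rel (hB : Hyp) {z : KK} (h0 : z ≠ 0) (h1 : 1 - z ≠ 0) (L : L4) (q : Q7) :
    ∑ i ∈ Finset.range 4, io (fN z i) * (T (L.map (fU z i) (fV z i)).sp (p7 q (fU z i) (fV z i)) -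
      ∑' p : L.sp, (if dot (fL z i) p.1 = 0 then
        F (p7 q (fU z i) (fV z i)) (app (fU z i) (fV z i) p) else 0)) = 0 := by
  have k : ∀ i ∈ Finset.range 4, HasSum (fun p : L.sp =>
      io (fN z i) * (F (p7 q (fU z i) (fV z i)) (app (fU z i) (fV z i) p) -
        if dot (fL z i) p.1 = 0 then
          F (p7 q (fU z i) (fV z i)) (app (fU z i) (fV z i) p) else 0)) _ := fun i _ => by
    have s1 := summable_F_app hB L (p7 q (fU z i) (fV z i)) (dt_face h0 h1 i)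
    have s2 : Summable fun p : L.sp => if dot (fL z i) p.1 = 0 then
        F (p7 q (fU z i) (fV z i)) (app (fU z i) (fV z i) p) else 0 :=
      Summable.of_norm_bounded s1.norm fun p => by split_ifs <;> simp
    have := (s1.hasSum.sub s2.hasSum).mul_left (io (fN z i))
    rwa [← T_image (dt_face h0 h1 i), ← map_sp] at this
  refine (hasSum_sum k).unique (hasSum_zero.congr_fun fun p => ?_)
  have z0 : io z ≠ 0 := io_eq_zero.not.mpr h0
  have z1 : 1 - io z ≠ 0 := by simpa using io_eq_zero.not.mpr h1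
  have k1 := tet_pt z0 z1 (iq q.1) (iv p.1)
  have k2 := hB.c.2 _ z0 z1 (ih q.2) (iv p.1)
  have k3 := congrArg₂ (· + ·) k1 k2
  simp only [← Finset.sum_add_distrib, add_zero] at k3
  refine Eq.trans (Finset.sum_congr rfl fun i _ => ?_) k3
  have e : dot (fL (io z) i) (iv p.1) = 0 ↔ dot (fL z i) p.1 = 0 := by
    rw [← iv_fL, ← io_dot, io_eq_zero]
  by_cases h : dot (fL z i) p.1 = 0
  · rw [if_pos h, if_pos (e.mpr h), if_pos (e.mpr h), sub_self, mul_zero, add_zero]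
  · rw [if_neg h, if_neg (e.not.mpr h), if_neg (e.not.mpr h), sub_zero]
    simp only [face, faceH, fN, F, p7, app, map_mul, io_star, io_dt, io_dot, iq_pq, ih_ph, iv_fU,
      iv_fV, io_fS, mul_add]

end RV7.Ct
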