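import Pool.Agent.Lib.RV7.CtC

/-! The certificate checker and its soundness. -/

open Complex RV5 RV5.Ct
open scoped ComplexConjugate

namespace RV7.Ct

abbrev Ent : Type := ℕ × Q7

noncomputable def evL (A : ℕ → L4) (l : List Ent) : ℂ := (l.map fun e => T (A e.1).sp e.2).sum

lemma evL_append (A : ℕ → L4) (l l' : List Ent) : evL A (l ++ l') = evL A l + evL A l' := by
  simp [evL]

def collect (j : ℕ) : List Ent → Q7
  | [] => 0
  | e :: l => if e.1 = j then e.2 + collect j l else collect j l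

lemma evL_collect (hB : Hyp) (A : ℕ → L4) (n : ℕ) (l : List Ent) (h : ∀ e ∈ l, e.1 < n) :
    evL A l = ∑ j ∈ Finset.range n, T (A j).sp (collect j l) := by
  induction l with
  | nil => simp [evL, collect, T_zero]
  | cons e l ih =>
    have h1 : ∀ j, T (A j).sp (collect j (e :: l)) =
        (if e.1 = j then T (A j).sp e.2 else 0) + T (A j).sp (collect j l) := fun j => by
      rw [collect]
      split_ifs
      · exact T_add hB _ _ _
      · rw [zero_add]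
    simp only [h1, Finset.sum_add_distrib, Finset.sum_ite_eq, Finset.mem_range,
      h e List.mem_cons_self, if_true]
    rw [← ih fun e he => h e (List.mem_cons_of_mem _ he)]
    simp [evL]

lemma evL_zero (hB : Hyp) (A : ℕ → L4) (n : ℕ) (l : List Ent) (h : ∀ e ∈ l, e.1 < n)
    (h' : ∀ j < n, collect j l = 0) : evL A l = 0 := by
  rw [evL_collect hB A n l h]
  exact Finset.sum_eq_zero fun j hj => by rw [h' j (Finset.mem_range.mp hj), T_zero]

def TC.ent (c : TC) (k : KK) (q : Q7) : Ent := (c.j, qs k (c.val q))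

lemma TC.ent_eq (hB : Hyp) {A : ℕ → L4} {c : TC} {L : L4} (h : c.ok (A c.j) L) (k : KK) (q : Q7) :
    T (A (c.ent k q).1).sp (c.ent k q).2 = io k * T L.sp q := by
  rw [TC.sound hB h, TC.ent, T_qs]

structure RT where
  z : KK
  L : L4
  q : Q7
  c0 : TC
  c1 : TC
  c2 : TC
  c3 : TC
  l0 : LC
  l1 : LC
  l2 : LC
  l3 : LC

def RT.ok1 (r : RT) (A : ℕ → L4) (i : ℕ) (c : TC) (l : LC) : Prop :=
  c.ok (A c.j) (r.L.map (fU r.z i) (fV r.z i)) ∧ l.ok r.L (fL r.z i) (fU r.z i) (fV r.z i)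

instance (r : RT) (A : ℕ → L4) (i : ℕ) (c : TC) (l : LC) : Decidable (r.ok1 A i c l) := by
  unfold RT.ok1; infer_instance

def RT.ok (r : RT) (A : ℕ → L4) : Prop :=
  r.z ≠ 0 ∧ 1 - r.z ≠ 0 ∧ r.ok1 A 0 r.c0 r.l0 ∧ r.ok1 A 1 r.c1 r.l1 ∧ r.ok1 A 2 r.c2 r.l2 ∧
    r.ok1 A 3 r.c3 r.l3

instance (r : RT) (A : ℕ → L4) : Decidable (r.ok A) := by unfold RT.ok; infer_instance

def RT.fq (r : RT) (i : ℕ) : Q7 := p7 r.q (fU r.z i) (fV r.z i)

def RT.ents (r : RT) : List Ent :=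
  [r.c0.ent (fN r.z 0) (r.fq 0), r.c1.ent (fN r.z 1) (r.fq 1), r.c2.ent (fN r.z 2) (r.fq 2),
    r.c3.ent (fN r.z 3) (r.fq 3)]

def RT.z1 (r : RT) (e : Bool) (i : ℕ) (l : LC) : KK :=
  fN r.z i * if e then chK (r.fq i).2 l.e1 l.e2 else ctK (r.fq i).1 l.e1 l.e2

def RT.zz (r : RT) (e : Bool) : KK :=
  r.z1 e 0 r.l0 + r.z1 e 1 r.l1 + r.z1 e 2 r.l2 + r.z1 e 3 r.l3

lemma RT.z1_eq (r : RT) (i : ℕ) (l : LC) : io (r.z1 false i l) * Z0 + io (r.z1 true i l) * Z3 =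
    io (fN r.z i) * (io (ctK (r.fq i).1 l.e1 l.e2) * Z0 + io (chK (r.fq i).2 l.e1 l.e2) * Z3) := by
  simp only [RT.z1, map_mul, if_true, Bool.false_eq_true, if_false]
  ring

lemma RT.sound (hB : Hyp) {A : ℕ → L4} {r : RT} (h : r.ok A) :
    evL A r.ents = io (r.zz false) * Z0 + io (r.zz true) * Z3 := by
  obtain ⟨h0, h1, ⟨a0, b0⟩, ⟨a1, b1⟩, ⟨a2, b2⟩, ⟨a3, b3⟩⟩ := h
  have k := tet_rel hB h0 h1 r.L r.q
  simp only [Finset.sum_range_succ, Finset.sum_range_zero, LC.sound hB b0, LC.sound hB b1, LC.sound hB b2,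
    LC.sound hB b3] at k
  simp only [evL, RT.ents, List.map_cons, List.map_nil, List.sum_cons, List.sum_nil,
    TC.ent_eq hB a0, TC.ent_eq hB a1, TC.ent_eq hB a2, TC.ent_eq hB a3, RT.zz, map_add]
  have e0 := r.z1_eq 0 r.l0
  have e1 := r.z1_eq 1 r.l1
  have e2 := r.z1_eq 2 r.l2
  have e3 := r.z1_eq 3 r.l3
  simp only [RT.fq] at *
  linear_combination k - e0 - e1 - e2 - e3

lemma RT.sound_list (hB : Hyp) {A : ℕ → L4} (l : List RT) (h : ∀ r ∈ l, r.ok A) :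
    evL A (l.flatMap RT.ents) = io ((l.map (·.zz false)).sum) * Z0 +
      io ((l.map (·.zz true)).sum) * Z3 := by
  induction l with
  | nil => simp [evL]
  | cons r l ih =>
    rw [List.flatMap_cons, evL_append, RT.sound hB (h r List.mem_cons_self),
      ih fun r hr => h r (List.mem_cons_of_mem _ hr)]
    simp only [List.map_cons, List.sum_cons, map_add]
    ring

structure R2 where
  L : L4
  q : Q7
  f : F4
  g : F4
  c1 : TC
  c2 : TC
  c3 : TC
  c4 : TC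
  c5 : TC

def R2.ok (r : R2) (A : ℕ → L4) : Prop :=
  dual r.L r.f r.g ∧ r.c1.ok (A r.c1.j) (r.L.sub 2 0 0 1) ∧ r.c2.ok (A r.c2.j) (r.L.sub 1 0 0 2) ∧
    r.c3.ok (A r.c3.j) (r.L.sub 1 1 0 2) ∧ r.c4.ok (A r.c4.j) r.L ∧
    r.c5.ok (A r.c5.j) (r.L.sub 2 0 0 2)

instance (r : R2) (A : ℕ → L4) : Decidable (r.ok A) := by unfold R2.ok; infer_instance

def R2.ents (r : R2) : List Ent :=
  [r.c1.ent 1 r.q, r.c2.ent 1 r.q, r.c3.ent 1 r.q, r.c4.ent (-1) r.q, r.c5.ent (-2) r.q]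

lemma R2.sound (hB : Hyp) {A : ℕ → L4} {r : R2} (h : r.ok A) : evL A r.ents = 0 := by
  obtain ⟨h0, a1, a2, a3, a4, a5⟩ := h
  simp only [evL, R2.ents, List.map_cons, List.map_nil, List.sum_cons, List.sum_nil,
    TC.ent_eq hB a1, TC.ent_eq hB a2, TC.ent_eq hB a3, TC.ent_eq hB a4, TC.ent_eq hB a5, map_one, map_neg,
    map_ofNat]
  linear_combination hecke2 hB h0 r.q

structure RS where
  L : L4
  q : Q7
  c1 : TC
  c2 : TC

def RS.ok (r : RS) (A : ℕ → L4) : Prop := r.c1.ok (A r.c1.j) r.L ∧ r.c2.ok (A r.c2.j) r.L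

instance (r : RS) (A : ℕ → L4) : Decidable (r.ok A) := by unfold RS.ok; infer_instance

def RS.ents (r : RS) : List Ent := [r.c1.ent 1 r.q, r.c2.ent (-1) r.q]

lemma RS.sound (hB : Hyp) {A : ℕ → L4} {r : RS} (h : r.ok A) : evL A r.ents = 0 := by
  obtain ⟨a1, a2⟩ := h
  simp only [evL, RS.ents, List.map_cons, List.map_nil, List.sum_cons, List.sum_nil,
    TC.ent_eq hB a1, TC.ent_eq hB a2, map_one, map_neg]
  ring

lemma evL_flat {α : Type} (A : ℕ → L4) (f : α → List Ent) (l : List α)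
    (h : ∀ r ∈ l, evL A (f r) = 0) : evL A (l.flatMap f) = 0 := by
  induction l with
  | nil => simp [evL]
  | cons r l ih =>
    rw [List.flatMap_cons, evL_append, h r List.mem_cons_self,
      ih fun r hr => h r (List.mem_cons_of_mem _ hr), add_zero]

/-- `4 τ₀` -/
def sg : KK := ⟨-1, 1⟩

def prodL (d₁ d₂ : ℤ) : L4 := ⟨(sg, 0), (sm d₁ 1, 0), (0, sg), (0, sm d₂ 1)⟩

def q0 : Q7 := ((0, 0, 1), (0, 0, 0, 1))

lemma io_sg : io sg = 4 * tau0 := by
  rw [four_tau0, io_apply]; simp only [sg]; push_cast; ring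

lemma hasSum_prod (hB : Hyp) (d₁ d₂ : ℤ) :
    HasSum (fun x : (ℤ × ℤ) × (ℤ × ℤ) => ((ind d₁ x.1.2 * ind d₂ x.2.2 : ℝ) : ℂ) *
      (ct (0, 0, 1) (pt tau0 x.1) (pt tau0 x.2) + ch (0, 0, 0, 1) (pt tau0 x.1) (pt tau0 x.2)))
      (T (prodL d₁ d₂).sp q0) := by
  let k : ℤ × ℤ → KK := fun y => y.1 * sg + y.2
  have hk : ∀ y, io (k y) = pt tau0 y := fun y => by
    simp only [k, map_add, map_mul, map_intCast, io_sg, pt_eq]
  have ki : Function.Injective k := fun y y' e => by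
    have := (hk y).symm.trans ((congrArg io e).trans (hk y'))
    rw [← sub_eq_zero, sub_eq_add_neg, ← pt_neg, ← pt_add, pt_eq_zero tau0_im_pos] at this
    exact add_neg_eq_zero.mp this
  have ev : ∀ y : Z4, (prodL d₁ d₂).ev y = Prod.map k k ((y.1, y.2.1 * d₁), (y.2.2.1, y.2.2.2 * d₂)) :=
    fun y => by
      simp only [L4.ev, prodL, sm_eq, k, Prod.map]
      ext : 1 <;> simp only <;> push_cast <;> ring
  have hj := ki.prodMap ki
  refine ((hj.hasSum_iff (f := (prodL d₁ d₂).sp.indicator (F q0)) fun p hp => ?_).mpr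
    (hasSum_T hB _ q0)).congr_fun fun x => ?_
  · refine Set.indicator_of_notMem ?_ _
    rintro ⟨y, hy⟩
    exact hp ⟨_, (ev y).symm.trans hy⟩
  · have m : Prod.map k k x ∈ (prodL d₁ d₂).sp ↔ d₁ ∣ x.1.2 ∧ d₂ ∣ x.2.2 := by
      constructor
      · rintro ⟨y, hy⟩
        rw [ev] at hy
        rw [← hj hy]
        exact ⟨dvd_mul_left _ _, dvd_mul_left _ _⟩
      · rintro ⟨⟨s, hs⟩, ⟨t, ht⟩⟩
        refine ⟨(x.1.1, s, x.2.1, t), ?_⟩
        rw [ev]
        simp only [mul_comm s, mul_comm t, ← hs, ← ht]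
    have f : F q0 (Prod.map k k x) = ct (0, 0, 1) (pt tau0 x.1) (pt tau0 x.2) +
        ch (0, 0, 0, 1) (pt tau0 x.1) (pt tau0 x.2) := by
      simp [F, iq, ih, q0, hk]
    classical
    simp only [Function.comp, Set.indicator_apply, m, f, ind]
    by_cases a : d₁ ∣ x.1.2 <;> by_cases b : d₂ ∣ x.2.2 <;> simp [a, b]

lemma T0_eq (hB : Hyp) : T0 = T (prodL 1 2).sp q0 - 2 * T (prodL 1 4).sp q0 +
    10 * T (prodL 2 4).sp q0 := by
  refine HasSum.tsum_eq ((((hasSum_prod hB 1 2).sub ((hasSum_prod hB 1 4).mul_left 2)).add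
    ((hasSum_prod hB 2 4).mul_left 10)).congr_fun fun x => ?_)
  simp only [phi0, show ∀ n, ind 1 n = 1 from fun n => by simp [ind]]
  push_cast
  ring

def allEnts (t1 t2 t3 : TC) (lt : List RT) (l2 : List R2) (ls : List RS) : List Ent :=
  [t1.ent 1 q0, t2.ent (-2) q0, t3.ent 10 q0] ++
    (lt.flatMap RT.ents ++ (l2.flatMap R2.ents ++ ls.flatMap RS.ents))

theorem ct_of_cert (hB : Hyp) (A : ℕ → L4) (n : ℕ) (t1 t2 t3 : TC) (lt : List RT)
    (l2 : List R2) (ls : List RS)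
    (a1 : t1.ok (A t1.j) (prodL 1 2)) (a2 : t2.ok (A t2.j) (prodL 1 4))
    (a3 : t3.ok (A t3.j) (prodL 2 4))
    (ht : ∀ r ∈ lt, r.ok A) (h2 : ∀ r ∈ l2, r.ok A) (hs : ∀ r ∈ ls, r.ok A)
    (hn : ∀ e ∈ allEnts t1 t2 t3 lt l2 ls, e.1 < n)
    (hc : ∀ j < n, collect j (allEnts t1 t2 t3 lt l2 ls) = 0)
    (z0 : (lt.map (·.zz false)).sum = ⟨9 / 8, 3 / 8⟩)
    (z1 : (lt.map (·.zz true)).sum = ⟨-7 / 128, 7 / 64⟩) : CT := by
  have k := evL_zero hB A n _ hn hc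
  rw [allEnts, evL_append, evL_append, evL_append, RT.sound_list hB lt ht,
    evL_flat A _ l2 fun r hr => R2.sound hB (h2 r hr),
    evL_flat A _ ls fun r hr => RS.sound hB (hs r hr), z0, z1] at k
  simp only [evL, List.map_cons, List.map_nil, List.sum_cons, List.sum_nil, TC.ent_eq hB a1,
    TC.ent_eq hB a2, TC.ent_eq hB a3, map_neg, map_ofNat, map_one] at k
  simp only [io_apply] at k
  rw [CT, T0_eq hB]
  push_cast at k
  linear_combination k

end RV7.Ct
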