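import Pool.Agent.Lib.RV5.CtA

/-! Definitions for the proof of the level seven identity for `(1+x)(1+y)(1+z)+t`. -/

open Complex MeasureTheory RV5
open scoped Real ComplexConjugate

namespace RV7

noncomputable section

def eL (q : ℂ) : ℂ := 1 + 24 * (S 1 q - 2 * S 1 (q ^ 2))

def eS (q : ℂ) : ℂ := 1 + 16 * (S 3 q - 18 * S 3 (q ^ 2) + 32 * S 3 (q ^ 4))

/-- the weight two form `θ₄^4` -/
def wf (q : ℂ) : ℂ := 1 - 8 * S 1 q + 48 * S 1 (q ^ 2) - 64 * S 1 (q ^ 4)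

def l0 (q : ℂ) : ℂ := 24 * (R 1 q - R 1 (q ^ 2))

def A0 (q : ℂ) : ℂ := 16 * (R 3 q - 9 * R 3 (q ^ 2) + 8 * R 3 (q ^ 4))

def Psi1 (q : ℂ) : ℂ := A0 q - l0 q

/-- the Hauptmodul `z = -(η₂/η₁)^24` as a function of `q` -/
def zf (q : ℂ) : ℂ := -(q * Complex.exp (l0 q))

def ell (τ : ℂ) : ℂ := 2 * π * I * τ + l0 (e τ)

def cA (τ : ℂ) : ℂ := 2 * π * I * τ + A0 (e τ)

def IsPsi (Ψ : ℂ → ℂ) : Prop :=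
  DifferentiableOn ℂ Ψ (Metric.ball 0 1) ∧ Ψ 0 = 0 ∧
    (∀ q : ℂ, ‖q‖ < 1 → q * deriv Ψ q = eL q * Psi1 q) ∧
    ∀ r : ℝ, 0 ≤ r → r < 1 → (Ψ r).im = 0

/-- the CM point `(-1 + i √7)/8` -/
def tau0 : ℂ := (-1 + I * (√7 : ℝ)) / 8

/-- `θ = (1 + i √7)/2`, `θ² = θ - 2` -/
def th : ℂ := (1 + I * (√7 : ℝ)) / 2

def sN (t : Fin 3 → ℝ) : ℝ :=
  ‖(1 + RV6.ee (t 0)) * (1 + RV6.ee (t 1)) * (1 + RV6.ee (t 2))‖ ^ 2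

def mom (n : ℕ) : ℝ := ∫ t in Set.Icc (0 : Fin 3 → ℝ) 1, sN t ^ n

def mP : ℝ := ∫ t in Set.Icc (0 : Fin 3 → ℝ) 1, Real.posLog (sN t)

def m4 : ℝ := ∫ t in Set.Icc (0 : Fin 4 → ℝ) 1,
  Real.log ‖(1 + RV6.ee (t 0)) * (1 + RV6.ee (t 1)) * (1 + RV6.ee (t 2)) + RV6.ee (t 3)‖

/-- the recurrence of the cubes of the central binomial coefficients -/
def Rec (a : ℕ → ℂ) : Prop :=
  a 0 = 1 ∧ ∀ n : ℕ, ((n : ℂ) + 1) ^ 3 * a (n + 1) = 8 * (2 * n + 1) ^ 3 * a n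

/-- lattice points `4 m τ + n` -/
def pt (τ : ℂ) (p : ℤ × ℤ) : ℂ := 4 * p.1 * τ + p.2

def chi3 (t : ℂ) : ℂ := 1 / (t ^ 3 * conj t ^ 3)

/-- the gradient of `1/(a b)` -/
def gA (a b : ℂ) : ℂ × ℂ := (-1 / (a ^ 2 * b), -1 / (a * b ^ 2))

/-- the gradient of `1/(b c)`, `c = -a-b` -/
def gB (a b : ℂ) : ℂ × ℂ :=
  (1 / (b * (-a - b) ^ 2), -1 / (b ^ 2 * (-a - b)) + 1 / (b * (-a - b) ^ 2))

/-- the area cocycle of type `(1,1)` -/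
def ch (h : ℂ × ℂ × ℂ × ℂ) (a b : ℂ) : ℂ :=
  h.1 * ((gA a b).1 * conj (gB a b).1 - (gB a b).1 * conj (gA a b).1) +
    h.2.1 * ((gA a b).1 * conj (gB a b).2 - (gB a b).1 * conj (gA a b).2) +
    h.2.2.1 * ((gA a b).2 * conj (gB a b).1 - (gB a b).2 * conj (gA a b).1) +
    h.2.2.2 * ((gA a b).2 * conj (gB a b).2 - (gB a b).2 * conj (gA a b).2)

def hf {A : Type} [CommRing A] [StarRing A] (h : A × A × A × A) (u v : A × A) : A :=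
  u.1 * star v.1 * h.1 + u.1 * star v.2 * h.2.1 + u.2 * star v.1 * h.2.2.1 +
    u.2 * star v.2 * h.2.2.2

def ph {A : Type} [CommRing A] [StarRing A] (h : A × A × A × A) (u v : A × A) : A × A × A × A :=
  (hf h u u, hf h u v, hf h v u, hf h v v)

open RV5.Ct in
def faceH (z : ℂ) (h : ℂ × ℂ × ℂ × ℂ) (p : ℂ × ℂ) (i : ℕ) : ℂ :=
  fS i * (dt (fU z i) (fV z i) * conj (dt (fU z i) (fV z i))) *
    ch (ph h (fU z i) (fV z i)) (dot (fU z i) p) (dot (fV z i) p)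

def phi0 (n₁ n₂ : ℤ) : ℝ := ind 2 n₂ - 2 * ind 4 n₂ + 10 * (ind 2 n₁ * ind 4 n₂)

def phiL (n : ℤ) : ℝ := ind 2 n - 2 * ind 4 n

def phiE (n : ℤ) : ℝ := 1 - 9 * ind 2 n + 8 * ind 4 n

def GG (τ : ℂ) : ℝ := ∑' x : (ℤ × ℤ) × (ℤ × ℤ), phi0 x.1.2 x.2.2 * g (pt τ x.1) (pt τ x.2)

def WW (τ : ℂ) : ℝ := ∑' p : ℤ × ℤ, phiE p.2 * (chi (pt τ p)).im

def Va (τ : ℂ) : ℝ := ∑' m : ℤ, ∑' n : ℤ, phiL n * hA (pt τ (m, n))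

def Vr (τ : ℂ) : ℝ := ∑' m : ℤ, ∑' n : ℤ, phiL n * hR (pt τ (m, n))

def K4 (τ : ℂ) : ℝ := ∑' p : ℤ × ℤ, phiE p.2 * k4 (pt τ p)

def Kb (τ : ℂ) : ℝ := ∑' p : ℤ × ℤ, phiE p.2 * bb (pt τ p)

def T0 : ℂ := ∑' x : (ℤ × ℤ) × (ℤ × ℤ), (phi0 x.1.2 x.2.2 : ℂ) *
  (ct (0, 0, 1) (pt tau0 x.1) (pt tau0 x.2) + ch (0, 0, 0, 1) (pt tau0 x.1) (pt tau0 x.2))

def ZE : ℂ := ∑' p : ℤ × ℤ, (phiE p.2 : ℂ) * chi (pt tau0 p)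

def Z0 : ℂ := ∑' p : ℤ × ℤ, chi (p.1 + p.2 * th)

def Z3 : ℂ := ∑' p : ℤ × ℤ, chi3 (p.1 + p.2 * th)

/-- the weight 3 level 7 cusp form -/
def f7 (τ : ℂ) : ℂ := ModularForm.eta τ ^ 3 * ModularForm.eta (7 * τ) ^ 3

/-- `L(f,4)` as a binary theta series -/
def ThL : ℝ := ∑' p : ℤ × ℤ, thT 1 7 p

def zeta3 : ℝ := ∑' n : ℕ, 1 / (n : ℝ) ^ 3

/-- the quadratic character modulo 7 -/
def chi7 (n : ℕ) : ℤ := if n % 7 = 0 then 0 else if n % 7 = 1 ∨ n % 7 = 2 ∨ n % 7 = 4 then 1 else -1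

def Lchi : ℝ := ∑' n : ℕ, (chi7 n : ℝ) / (n : ℝ) ^ 3

end

end RV7
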