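import Pool.Agent.Lib.RV7.All

open MeasureTheory

namespace Pool.Agent.Lib.RV7.Final

/-- Brunault's conjecture: the Mahler measure of `(1+x)(1+y)(1+z)+t` is
`-6 L'(f,-1) - (48/7) ζ'(-2)` for the weight 3 level 7 cusp form `f = η(τ)³η(7τ)³`. -/
theorem mahlerSeven : ∃ a : ℕ → ℤ,
    (∀ τ : ℂ, 0 < τ.im →
      HasSum (fun n : ℕ => (a n : ℂ) * Complex.exp (2 * (Real.pi : ℂ) * Complex.I * τ) ^ n)
        (ModularForm.eta τ ^ 3 * ModularForm.eta (7 * τ) ^ 3)) ∧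
    ∃ L : ℂ → ℂ, Differentiable ℂ L ∧
      (∀ s : ℂ, 3 < s.re → LSeriesHasSum (fun n : ℕ => (a n : ℂ)) s (L s)) ∧
      L (-1) = 0 ∧ deriv L (-1) ≠ 0 ∧
      IntegrableOn (fun θ : Fin 4 → ℝ =>
        Real.log ‖(1 + Complex.exp (2 * (Real.pi : ℂ) * Complex.I * (θ 0 : ℂ))) *
            (1 + Complex.exp (2 * (Real.pi : ℂ) * Complex.I * (θ 1 : ℂ))) *
            (1 + Complex.exp (2 * (Real.pi : ℂ) * Complex.I * (θ 2 : ℂ))) +
          Complex.exp (2 * (Real.pi : ℂ) * Complex.I * (θ 3 : ℂ))‖) (Set.Icc 0 1) ∧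
      ((∫ θ in Set.Icc (0 : Fin 4 → ℝ) 1,
        Real.log ‖(1 + Complex.exp (2 * (Real.pi : ℂ) * Complex.I * (θ 0 : ℂ))) *
            (1 + Complex.exp (2 * (Real.pi : ℂ) * Complex.I * (θ 1 : ℂ))) *
            (1 + Complex.exp (2 * (Real.pi : ℂ) * Complex.I * (θ 2 : ℂ))) +
          Complex.exp (2 * (Real.pi : ℂ) * Complex.I * (θ 3 : ℂ))‖ : ℝ) : ℂ) =
        -6 * deriv L (-1) - 48 / 7 * deriv riemannZeta (-2) := by
  have e : ∀ t : ℝ, Complex.exp (2 * (Real.pi : ℂ) * Complex.I * (t : ℂ)) = RV6.ee t := fun t => by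
    unfold RV6.ee; congr 1; push_cast; ring
  simp only [e]
  obtain ⟨a, h1, L, h2, h3, h4, h5, h6⟩ := RV7.main
  exact ⟨a, h1, L, h2, h3, h4, h5, RV7.int4, h6⟩

end Pool.Agent.Lib.RV7.Final
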