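import Pool.Agent.Lib.RV7.Blue
import Pool.Agent.Lib.RV5.Jen

/-! Jensen's formula in the last variable: `m4 = mP / 2`. -/

open Real Filter Topology Set MeasureTheory
open scoped ENNReal

namespace RV7

namespace Jen

open RV6

lemma log_le_nine {z : ℂ} (h : ‖z‖ ≤ 9) : 0 ≤ log 9 - log ‖z‖ := by
  rw [sub_nonneg]
  rcases (norm_nonneg z).eq_or_lt with h0 | h0
  · rw [← h0, log_zero]; exact log_nonneg (by norm_num)
  · exact log_le_log h0 h

lemma jensen1 {A : ℂ} (hA : ‖A‖ ≤ 8) :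
    ∫⁻ c, ENNReal.ofReal (log 9 - log ‖A + ee c‖) ∂nu = ENNReal.ofReal (log 9 - log⁺ ‖A‖) := by
  have e : ∀ c, A + ee c = circleMap 0 1 (2 * π * c) - -A := fun c => by
    simp only [circleMap, ee]; push_cast; ring
  have h2 : IntervalIntegrable (fun c => log ‖A + ee c‖) volume 0 1 := by
    have := (circleIntegrable_log_norm_sub_const (a := -A) (c := 0) 1).comp_mul_left (c := 2 * π)
    simp_rw [e]
    simpa [pi_pos.ne'] using this
  have h3 : ∫ c in (0 : ℝ)..1, log ‖A + ee c‖ = log⁺ ‖A‖ := by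
    have := circleAverage_log_norm_sub_const_eq_log_radius_add_posLog (a := -A) (c := 0)
      (one_ne_zero (α := ℝ))
    simp_rw [e]
    rw [intervalIntegral.integral_comp_mul_left
      (fun θ => log ‖circleMap 0 1 θ - -A‖) two_pi_pos.ne', mul_zero, mul_one,
      ← circleAverage_def (f := fun z => log ‖z - -A‖), this]
    simp
  rw [nu, ← restrict_Ioc_eq_restrict_Icc, ← ofReal_integral_eq_lintegral_ofReal
    (intervalIntegrable_const.sub h2).1 (.of_forall fun c => ?_),
    ← intervalIntegral.integral_of_le zero_le_one,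
    intervalIntegral.integral_sub intervalIntegrable_const h2, h3]
  · simp
  · refine log_le_nine ((norm_add_le _ _).trans ?_)
    rw [norm_ee]; linarith

/-- the product of the three linear factors -/
noncomputable def A3 (a b c : ℝ) : ℂ := (1 + ee a) * (1 + ee b) * (1 + ee c)

lemma norm_one_add (a : ℝ) : ‖1 + ee a‖ ≤ 2 := by
  refine (norm_add_le _ _).trans ?_
  rw [norm_ee, norm_one]; norm_num

lemma norm_A3 (a b c : ℝ) : ‖A3 a b c‖ ≤ 8 := by
  rw [A3, norm_mul, norm_mul]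
  calc _ ≤ (2 : ℝ) * 2 * 2 :=
        mul_le_mul (mul_le_mul (norm_one_add a) (norm_one_add b) (norm_nonneg _) (by norm_num))
          (norm_one_add c) (norm_nonneg _) (by norm_num)
    _ = 8 := by norm_num

lemma lint4 : ∫⁻ x : Fin 4 → ℝ, ENNReal.ofReal (log 9 - log ‖A3 (x 0) (x 1) (x 2) + ee (x 3)‖)
    ∂Measure.pi (fun _ => nu) =
    ∫⁻ x : Fin 3 → ℝ, ENNReal.ofReal (log 9 - log⁺ ‖A3 (x 0) (x 1) (x 2)‖)
      ∂Measure.pi (fun _ => nu) := by
  have hee := measurable_ee
  have hm : Measurable fun z : ℝ × (Fin 3 → ℝ) =>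
      ENNReal.ofReal (log 9 - log ‖A3 (z.2 0) (z.2 1) (z.2 2) + ee z.1‖) := by
    unfold A3; fun_prop
  have h1 := (measurePreserving_piFinSuccAbove (fun _ : Fin (3 + 1) => nu) 3).lintegral_comp hm
  rw [lintegral_prod_symm _ hm.aemeasurable] at h1
  refine Eq.trans (lintegral_congr fun x => rfl) (h1.trans (lintegral_congr fun x => ?_))
  exact jensen1 (norm_A3 _ _ _)

lemma posLog_le {r : ℝ} (h0 : 0 ≤ r) (h : r ≤ 9) : 0 ≤ log 9 - log⁺ r := by
  rw [sub_nonneg, posLog_eq_log_max_one h0]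
  exact log_le_log (by positivity) (max_le (by norm_num) h)

end Jen

open RV6 Jen in
theorem jen : JEN := by
  have hee := measurable_ee
  have hcp : Continuous fun x : Fin 3 → ℝ => log⁺ ‖A3 (x 0) (x 1) (x 2)‖ := by
    have := continuous_ee
    exact continuous_posLog.comp (by unfold A3; fun_prop)
  have hn3 : ∀ x : Fin 3 → ℝ, 0 ≤ log 9 - log⁺ ‖A3 (x 0) (x 1) (x 2)‖ := fun x =>
    Jen.posLog_le (norm_nonneg _) ((norm_A3 _ _ _).trans (by norm_num))
  have hn4 : ∀ x : Fin 4 → ℝ, 0 ≤ log 9 - log ‖A3 (x 0) (x 1) (x 2) + ee (x 3)‖ := fun x =>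
    log_le_nine ((norm_add_le _ _).trans (by
      rw [norm_ee]; linarith [norm_A3 (x 0) (x 1) (x 2)]))
  have hi3 : Integrable (fun x : Fin 3 → ℝ => log⁺ ‖A3 (x 0) (x 1) (x 2)‖)
      (Measure.pi fun _ => nu) := by
    refine (integrable_const (log 9)).mono' hcp.aestronglyMeasurable (.of_forall fun x => ?_)
    rw [Real.norm_of_nonneg posLog_nonneg]
    linarith [hn3 x]
  have hi3' : Integrable (fun x : Fin 3 → ℝ => log 9 - log⁺ ‖A3 (x 0) (x 1) (x 2)‖)
      (Measure.pi fun _ => nu) := (integrable_const _).sub hi3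
  have hl := Jen.lint4
  rw [← ofReal_integral_eq_lintegral_ofReal hi3' (.of_forall hn3)] at hl
  have hm : Measurable fun x : Fin 4 → ℝ =>
      log 9 - log ‖A3 (x 0) (x 1) (x 2) + ee (x 3)‖ := by unfold A3; fun_prop
  have hi : Integrable (fun x : Fin 4 → ℝ => log 9 - log ‖A3 (x 0) (x 1) (x 2) + ee (x 3)‖)
      (Measure.pi fun _ => nu) := by
    refine ⟨hm.aestronglyMeasurable, ?_⟩
    rw [hasFiniteIntegral_iff_ofReal (.of_forall hn4), hl]
    exact ENNReal.ofReal_lt_top
  have h1 := integral_eq_lintegral_of_nonneg_ae (μ := Measure.pi fun _ => nu) (.of_forall hn4)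
    hm.aestronglyMeasurable
  rw [hl, ENNReal.toReal_ofReal (integral_nonneg hn3),
    integral_sub (integrable_const _) hi3] at h1
  have h2 := integral_sub (integrable_const (log 9)) hi
  simp only [sub_sub_cancel, integral_const, probReal_univ, smul_eq_mul, one_mul] at h1 h2
  have h3 : mP = 2 * ∫ x : Fin 3 → ℝ, log⁺ ‖A3 (x 0) (x 1) (x 2)‖ ∂Measure.pi fun _ => nu := by
    rw [mP, RV5.Jen.vol_restr, ← integral_const_mul]
    refine integral_congr_ae (.of_forall fun x => ?_)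
    simp only [sN, posLog_pow, A3]
    norm_num
  have h4 : m4 = ∫ x : Fin 4 → ℝ, log ‖A3 (x 0) (x 1) (x 2) + ee (x 3)‖
      ∂Measure.pi fun _ => nu := by
    rw [m4, RV5.Jen.vol_restr]; rfl
  rw [JEN, h4, h2, h1, h3]
  ring

end RV7
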