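import Mathlib

/-! Representation numbers of the form `x^2 + x y + 2 y^2` (class number one, discriminant `-7`). -/

namespace RV7.ZK

/-- the quadratic character modulo `7` -/
def c7 (n : ℕ) : ℤ :=
  if n % 7 = 0 then 0 else if n % 7 = 1 ∨ n % 7 = 2 ∨ n % 7 = 4 then 1 else -1

/-- the norm form -/
def N (p : ℤ × ℤ) : ℤ := p.1 ^ 2 + p.1 * p.2 + 2 * p.2 ^ 2

/-- multiplication in `ℤ[θ]`, `θ² = θ - 2` -/
def mul (u v : ℤ × ℤ) : ℤ × ℤ := (u.1 * v.1 - 2 * u.2 * v.2, u.1 * v.2 + u.2 * v.1 + u.2 * v.2)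

def R (n : ℕ) : Set (ℤ × ℤ) := {p | N p = n}

noncomputable def r (n : ℕ) : ℕ := (R n).ncard

def sg (n : ℕ) : ℤ := ∑ d ∈ n.divisors, c7 d

theorem c7_mul (a b : ℕ) : c7 (a * b) = c7 a * c7 b := by
  unfold c7
  rw [Nat.mul_mod]
  have ha : a % 7 < 7 := Nat.mod_lt _ (by norm_num)
  have hb : b % 7 < 7 := Nat.mod_lt _ (by norm_num)
  generalize a % 7 = x at *
  generalize b % 7 = y at *
  interval_cases x <;> interval_cases y <;> simp

theorem N_mul (u v : ℤ × ℤ) : N (mul u v) = N u * N v := by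
  unfold N mul; ring

theorem N_nonneg (p : ℤ × ℤ) : 0 ≤ N p := by
  unfold N; nlinarith [sq_nonneg (2 * p.1 + p.2), sq_nonneg p.2]

theorem N_eq_zero {p : ℤ × ℤ} (h : N p = 0) : p = 0 := by
  unfold N at h
  have h2 : p.2 = 0 := by nlinarith [sq_nonneg (2 * p.1 + p.2), sq_nonneg p.2]
  have h1 : p.1 = 0 := by rw [h2] at h; simpa using h
  exact Prod.ext h1 h2

theorem R_finite (n : ℕ) : (R n).Finite := by
  refine ((Set.finite_Icc (-(2 * n : ℤ)) (2 * n)).prod
    (Set.finite_Icc (-(2 * n : ℤ)) (2 * n))).subset ?_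
  rintro ⟨x, y⟩ h
  simp only [R, N, Set.mem_ofPred_eq] at h
  have hy : y ^ 2 ≤ n := by nlinarith [sq_nonneg (2 * x + y), sq_nonneg y]
  have hx : x ^ 2 ≤ 2 * n := by nlinarith [sq_nonneg (x + 2 * y), sq_nonneg x]
  have h0 : (0 : ℤ) ≤ n := by positivity
  refine ⟨⟨?_, ?_⟩, ?_, ?_⟩ <;> simp only <;> nlinarith [sq_nonneg (x + 1), sq_nonneg (x - 1),
    sq_nonneg (y + 1), sq_nonneg (y - 1), Int.le_self_sq x, Int.le_self_sq (-x),
    Int.le_self_sq y, Int.le_self_sq (-y)]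

theorem mul_inj {u : ℤ × ℤ} (hu : N u ≠ 0) : Function.Injective (mul u) := by
  intro v w h
  have h1 := congrArg Prod.fst h
  have h2 := congrArg Prod.snd h
  simp only [mul] at h1 h2
  have e1 : N u * (v.1 - w.1) = 0 := by
    unfold N; linear_combination (u.1 + u.2) * h1 + 2 * u.2 * h2
  have e2 : N u * (v.2 - w.2) = 0 := by
    unfold N; linear_combination (-u.2) * h1 + u.1 * h2
  exact Prod.ext (by simpa [hu, sub_eq_zero] using e1) (by simpa [hu, sub_eq_zero] using e2)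

/-- descent: class number one -/
theorem descent : ∀ a : ℕ, 0 < a → ∀ t : ℤ, (a : ℤ) ∣ N (t, 1) →
    ∃ u v : ℤ × ℤ, N u = a ∧ mul u v = (t, 1) := by
  intro a
  induction a using Nat.strong_induction_on with
  | _ a ih =>
    intro ha t ht
    rcases eq_or_ne a 1 with rfl | h1
    · exact ⟨(1, 0), (t, 1), by simp [N], by simp [mul]⟩
    have ha2 : (2 : ℤ) ≤ a := by omega
    obtain ⟨k, s, hs, hs1, hs2⟩ : ∃ k s : ℤ, t = s + a * k ∧ -(a : ℤ) ≤ 2 * s + 1 ∧
        2 * s + 1 ≤ a := by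
      have h0 : (a : ℤ) ≠ 0 := by omega
      have e := Int.emod_add_mul_ediv t a
      have l1 := Int.emod_nonneg t h0
      have l2 := Int.emod_lt_of_pos t (by omega : (0 : ℤ) < a)
      by_cases hc : 2 * (t % a) + 1 ≤ a
      · exact ⟨t / a, t % a, by linarith, by omega, hc⟩
      · exact ⟨t / a + 1, t % a - a, by linarith, by omega, by omega⟩
    have hd : (a : ℤ) ∣ N (s, 1) := by
      have : N (s, 1) = N (t, 1) - a * (k * (2 * s + 1 + a * k)) := by
        simp only [N, hs]; ring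
      rw [this]; exact dvd_sub ht (dvd_mul_right _ _)
    obtain ⟨c, hc⟩ := hd
    have hN : 4 * N (s, 1) = (2 * s + 1) ^ 2 + 7 := by simp only [N]; ring
    have hsq : (2 * s + 1) ^ 2 ≤ (a : ℤ) ^ 2 := sq_le_sq' hs1 hs2
    have hc0 : 0 < c := by
      by_contra hh
      have : (a : ℤ) * c ≤ 0 := mul_nonpos_of_nonneg_of_nonpos (by omega) (by omega)
      nlinarith [sq_nonneg (2 * s + 1)]
    have hca : c < a := by
      by_contra hh
      have : (a : ℤ) * a ≤ a * c := mul_le_mul_of_nonneg_left (by omega) (by omega)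
      nlinarith
    obtain ⟨c', rfl⟩ := Int.eq_ofNat_of_zero_le hc0.le
    obtain ⟨g, d, hg, hgd⟩ := ih c' (by omega) (by omega) s ⟨a, by rw [hc]; ring⟩
    have hNd : N d = a := by
      have := N_mul g d
      rw [hgd, hc, hg, mul_comm] at this
      exact (mul_left_cancel₀ (by omega) this).symm
    refine ⟨d, (g.1 + k * (d.1 + d.2), g.2 - k * d.2), hNd, ?_⟩
    have h1 := congrArg Prod.fst hgd
    have h2 := congrArg Prod.snd hgd
    simp only [mul] at h1 h2
    unfold N at hNd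
    refine Prod.ext ?_ ?_
    · simp only [mul]; rw [hs]; linear_combination h1 + k * hNd
    · simp only [mul]; linear_combination h2

theorem rep_of_dvd {p : ℕ} (hp : p.Prime) {w : ℤ × ℤ} (hw : (p : ℤ) ∣ N w)
    (h : ¬ ((p : ℤ) ∣ w.1 ∧ (p : ℤ) ∣ w.2)) : ∃ u : ℤ × ℤ, N u = p := by
  have hp' : Prime (p : ℤ) := Nat.prime_iff_prime_int.1 hp
  have hy : ¬ (p : ℤ) ∣ w.2 := by
    intro hy
    refine h ⟨hp'.dvd_of_dvd_pow (n := 2) ?_, hy⟩
    have : w.1 ^ 2 = N w - w.2 * (w.1 + 2 * w.2) := by unfold N; ring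
    rw [this]; exact dvd_sub hw (dvd_mul_of_dvd_left hy _)
  obtain ⟨m, k, hmk⟩ := (hp'.irreducible.coprime_iff_not_dvd.2 hy)
  obtain ⟨u, -, hu, -⟩ := descent p hp.pos (k * w.1) (by
    have : N (k * w.1, 1) = k ^ 2 * N w + p * (m * (k * w.1 + 2 * (1 + k * w.2))) := by
      unfold N; simp only
      have e : (1 : ℤ) = m * p + k * w.2 := hmk.symm
      linear_combination (k * w.1 + 2 * (1 + k * w.2)) * e
    rw [this]; exact dvd_add (dvd_mul_of_dvd_right hw _) (dvd_mul_right _ _))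
  exact ⟨u, hu⟩

theorem c7_of_rep {n : ℕ} {u : ℤ × ℤ} (hu : N u = n) : c7 n ≠ -1 := by
  have e : (2 * u.1 + u.2) ^ 2 + 7 * u.2 ^ 2 = 4 * n := by rw [← hu]; unfold N; ring
  generalize 2 * u.1 + u.2 = z at e
  generalize u.2 ^ 2 = w at e
  have hz : z ^ 2 % 7 = 0 ∨ z ^ 2 % 7 = 1 ∨ z ^ 2 % 7 = 2 ∨ z ^ 2 % 7 = 4 := by
    have : z % 7 = 0 ∨ z % 7 = 1 ∨ z % 7 = 2 ∨ z % 7 = 3 ∨ z % 7 = 4 ∨ z % 7 = 5 ∨ z % 7 = 6 := by
      omega
    rcases this with h | h | h | h | h | h | h <;> simp [pow_two, Int.mul_emod, h]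
  unfold c7
  split_ifs with h1 h2
  · norm_num
  · norm_num
  · exfalso; omega

theorem rep_of_c7 {p : ℕ} (hp : p.Prime) (hc : c7 p = 1) : ∃ u : ℤ × ℤ, N u = p := by
  rcases eq_or_ne p 2 with rfl | h2
  · exact ⟨(0, 1), by simp [N]⟩
  have := Fact.mk hp
  have : Fact (Nat.Prime 7) := ⟨by norm_num⟩
  have hm : p % 7 = 1 ∨ p % 7 = 2 ∨ p % 7 = 4 := by
    unfold c7 at hc
    split_ifs at hc with h1 h2
    · omega
    · exact h2
  have h7 : legendreSym 7 p = 1 := by
    rw [legendreSym.mod, show ((7 : ℕ) : ℤ) = 7 by rfl]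
    rcases hm with h | h | h
    · rw [show (p : ℤ) % 7 = 1 by omega]; norm_num
    · rw [show (p : ℤ) % 7 = 2 by omega]; norm_num
    · rw [show (p : ℤ) % 7 = 4 by omega]; norm_num
  have ho : p % 2 = 1 := (hp.eq_two_or_odd).resolve_left h2
  have hs : legendreSym p (-7) = 1 := by
    rw [show (-7 : ℤ) = -1 * ((7 : ℕ) : ℤ) by norm_num, legendreSym.mul,
      legendreSym.at_neg_one h2]
    rcases (by omega : p % 4 = 1 ∨ p % 4 = 3) with h | h
    · rw [ZMod.χ₄_nat_one_mod_four h,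
        ← legendreSym.quadratic_reciprocity_one_mod_four h (by norm_num), h7]; norm_num
    · rw [ZMod.χ₄_nat_three_mod_four h,
        legendreSym.quadratic_reciprocity_three_mod_four (by norm_num : 7 % 4 = 3) h, h7]; norm_num
  have hne : ((-7 : ℤ) : ZMod p) ≠ 0 := by
    intro h0
    rw [ZMod.intCast_zmod_eq_zero_iff_dvd] at h0
    have : p ∣ 7 := by
      have := Int.natAbs_dvd_natAbs.2 h0
      simpa using this
    have := (Nat.prime_dvd_prime_iff_eq hp (by norm_num)).1 this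
    omega
  obtain ⟨s, hs'⟩ := (legendreSym.eq_one_iff p hne).1 hs
  obtain ⟨z, rfl⟩ := ZMod.intCast_surjective s
  have hd : (p : ℤ) ∣ z * z + 7 := by
    rw [← ZMod.intCast_zmod_eq_zero_iff_dvd]
    push_cast at hs' ⊢
    rw [← hs']; ring
  refine rep_of_dvd hp (w := (z - 1, 2)) ?_ ?_
  · have : N (z - 1, 2) = z * z + 7 := by unfold N; ring
    rw [this]; exact hd
  · rintro ⟨-, h⟩
    have : p ∣ 2 := by simpa using Int.natAbs_dvd_natAbs.2 h
    exact h2 ((Nat.prime_dvd_prime_iff_eq hp Nat.prime_two).1 this)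

/-- the representations of `p m` with both coordinates divisible by `p` -/
theorem ncard_both {p : ℕ} (hp : p.Prime) (m : ℕ) :
    ({w | N w = (p * m : ℕ) ∧ (p : ℤ) ∣ w.1 ∧ (p : ℤ) ∣ w.2} : Set (ℤ × ℤ)).ncard =
      if p ∣ m then r (m / p) else 0 := by
  have hp0 : (p : ℤ) ≠ 0 := by exact_mod_cast hp.ne_zero
  split_ifs with h
  · obtain ⟨k, rfl⟩ := h
    rw [Nat.mul_div_cancel_left _ hp.pos, r,
      ← Set.ncard_image_of_injective (R k) (mul_inj (u := ((p : ℤ), 0)) (by simpa [N] using hp0))]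
    congr 1
    ext ⟨x, y⟩
    simp only [Set.mem_ofPred_eq, Set.mem_image, R]
    constructor
    · rintro ⟨h, ⟨a, rfl⟩, ⟨b, rfl⟩⟩
      refine ⟨(a, b), ?_, by simp [mul]⟩
      apply mul_left_cancel₀ (pow_ne_zero 2 hp0)
      unfold N at h ⊢
      push_cast at h
      linear_combination h
    · rintro ⟨⟨a, b⟩, h, e⟩
      have e1 := congrArg Prod.fst e
      have e2 := congrArg Prod.snd e
      simp only [mul] at e1 e2
      refine ⟨?_, ⟨a, by linear_combination -e1⟩, ⟨b, by linear_combination -e2⟩⟩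
      rw [← e, N_mul, h]; simp [N]; ring
  · rw [Set.ncard_eq_zero ((R_finite (p * m)).subset fun _ hw => hw.1)]
    ext ⟨x, y⟩
    simp only [Set.mem_ofPred_eq, Set.mem_empty_iff_false, iff_false]
    rintro ⟨h1, ⟨a, rfl⟩, ⟨b, rfl⟩⟩
    apply h
    have : (m : ℤ) = p * N (a, b) := by
      apply mul_left_cancel₀ hp0
      unfold N at h1 ⊢
      push_cast at h1
      linear_combination -h1
    exact Int.natCast_dvd_natCast.1 ⟨_, this⟩

/-- the multiples of `u` of norm `p m` -/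
theorem ncard_one {p : ℕ} (hp : p.Prime) (m : ℕ) {u : ℤ × ℤ} (hu : N u = p) :
    ({w | N w = (p * m : ℕ) ∧ (p : ℤ) ∣ u.1 * w.2 - u.2 * w.1} : Set (ℤ × ℤ)).ncard = r m := by
  have hp0 : (p : ℤ) ≠ 0 := by exact_mod_cast hp.ne_zero
  have hp' : Prime (p : ℤ) := Nat.prime_iff_prime_int.1 hp
  rw [r, ← Set.ncard_image_of_injective (R m) (mul_inj (u := u) (by rw [hu]; exact hp0))]
  congr 1
  ext w
  simp only [Set.mem_ofPred_eq, Set.mem_image, R]
  constructor
  · rintro ⟨h, ⟨b, hb⟩⟩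
    have hN := N_mul (u.1 + u.2, -u.2) w
    have hc : N (u.1 + u.2, -u.2) = p := by rw [← hu]; unfold N; ring
    rw [hc] at hN
    have h2 : (mul (u.1 + u.2, -u.2) w).2 = p * b := by simp only [mul]; linear_combination hb
    obtain ⟨a, ha⟩ : (p : ℤ) ∣ (mul (u.1 + u.2, -u.2) w).1 := by
      refine hp'.dvd_of_dvd_pow (n := 2) ⟨N w - b * ((mul (u.1 + u.2, -u.2) w).1 + 2 * p * b), ?_⟩
      unfold N at hN ⊢
      rw [h2] at hN
      linear_combination hN
    have e : mul u (a, b) = w := by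
      simp only [mul] at ha h2
      unfold N at hu
      refine Prod.ext (mul_left_cancel₀ hp0 ?_) (mul_left_cancel₀ hp0 ?_)
      · simp only [mul]; linear_combination (-u.1) * ha + 2 * u.2 * h2 + w.1 * hu
      · simp only [mul]; linear_combination (-u.2) * ha - (u.1 + u.2) * h2 + w.2 * hu
    refine ⟨(a, b), mul_left_cancel₀ hp0 ?_, e⟩
    have := N_mul u (a, b)
    rw [e, hu, h] at this
    push_cast at this
    exact this.symm
  · rintro ⟨v, h, rfl⟩
    refine ⟨by rw [N_mul, hu, h]; push_cast; ring, v.2, ?_⟩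
    rw [← hu]; simp only [mul, N]; ring

theorem r_rec {p : ℕ} (hp : p.Prime) (m : ℕ) :
    (r (p * m) : ℤ) + c7 p * (if p ∣ m then r (m / p) else 0 : ℕ) = (1 + c7 p) * r m := by
  have hp' : Prime (p : ℤ) := Nat.prime_iff_prime_int.1 hp
  have key : ∀ u : ℤ × ℤ, N u = p → ∀ w : ℤ × ℤ, N w = (p * m : ℕ) →
      (p : ℤ) ∣ u.1 * w.2 - u.2 * w.1 ∨ (p : ℤ) ∣ (u.1 + u.2) * w.2 - (-u.2) * w.1 := by
    intro u hu w hw
    refine hp'.dvd_or_dvd ⟨w.2 ^ 2 - u.2 ^ 2 * m, ?_⟩
    unfold N at hu hw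
    push_cast at hw
    linear_combination w.2 ^ 2 * hu - u.2 ^ 2 * hw
  by_cases h0 : p % 7 = 0
  · have h7 : p = 7 :=
      ((Nat.prime_dvd_prime_iff_eq (by norm_num) hp).1 (Nat.dvd_of_mod_eq_zero h0)).symm
    have hc : c7 p = 0 := by simp [c7, h0]
    have hu : N (-1, 2) = p := by rw [h7]; simp [N]
    rw [hc, ← ncard_one hp m hu, r]
    simp only [zero_mul, add_zero, one_mul, Nat.cast_inj]
    congr 1
    ext w
    refine ⟨fun hw => ⟨hw, ?_⟩, fun hw => hw.1⟩
    rcases key _ hu w hw with h | h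
    · exact h
    · obtain ⟨c, hc⟩ := h
      exact ⟨-c, by simp only at hc ⊢; linear_combination -hc⟩
  by_cases h1 : c7 p = 1
  · obtain ⟨u, hu⟩ := rep_of_c7 hp h1
    have hc : N (u.1 + u.2, -u.2) = p := by rw [← hu]; unfold N; ring
    have hA := ncard_one hp m hu
    have hB := ncard_one hp m hc
    have hU := Set.ncard_union_add_ncard_inter
      ({w | N w = (p * m : ℕ) ∧ (p : ℤ) ∣ u.1 * w.2 - u.2 * w.1} : Set (ℤ × ℤ))
      ({w | N w = (p * m : ℕ) ∧ (p : ℤ) ∣ (u.1 + u.2) * w.2 - (-u.2) * w.1} : Set (ℤ × ℤ))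
      ((R_finite (p * m)).subset fun _ hw => hw.1) ((R_finite (p * m)).subset fun _ hw => hw.1)
    simp only at hB
    rw [hA, hB] at hU
    have e1 : ({w | N w = (p * m : ℕ) ∧ (p : ℤ) ∣ u.1 * w.2 - u.2 * w.1} : Set (ℤ × ℤ)) ∪
        {w | N w = (p * m : ℕ) ∧ (p : ℤ) ∣ (u.1 + u.2) * w.2 - (-u.2) * w.1} = R (p * m) := by
      ext w
      refine ⟨fun hw => hw.elim (fun h => h.1) (fun h => h.1), fun hw => ?_⟩
      exact (key u hu w hw).imp (fun h => ⟨hw, h⟩) (fun h => ⟨hw, h⟩)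
    have e2 : ({w | N w = (p * m : ℕ) ∧ (p : ℤ) ∣ u.1 * w.2 - u.2 * w.1} : Set (ℤ × ℤ)) ∩
        {w | N w = (p * m : ℕ) ∧ (p : ℤ) ∣ (u.1 + u.2) * w.2 - (-u.2) * w.1} =
        {w | N w = (p * m : ℕ) ∧ (p : ℤ) ∣ w.1 ∧ (p : ℤ) ∣ w.2} := by
      ext w
      constructor
      · rintro ⟨⟨hw, ha⟩, -, hb⟩
        have hu2 : ¬ (p : ℤ) ∣ u.2 := by
          rintro ⟨b, hb⟩
          obtain ⟨a, ha⟩ : (p : ℤ) ∣ u.1 := by
            refine hp'.dvd_of_dvd_pow (n := 2) ⟨1 - b * (u.1 + 2 * p * b), ?_⟩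
            unfold N at hu
            rw [hb] at hu
            linear_combination hu
          have : (p : ℤ) ∣ 1 := by
            refine ⟨N (a, b), mul_left_cancel₀ hp'.ne_zero ?_⟩
            unfold N at hu ⊢
            rw [ha, hb] at hu
            linear_combination -hu
          exact hp'.not_dvd_one this
        have hy : (p : ℤ) ∣ w.2 := by
          have : (p : ℤ) ∣ (2 * u.1 + u.2) * w.2 := by
            obtain ⟨a, ha⟩ := ha
            obtain ⟨b, hb⟩ := hb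
            exact ⟨a + b, by linear_combination ha + hb⟩
          refine (hp'.dvd_or_dvd this).resolve_left ?_
          rintro ⟨c, hc⟩
          have h7 : (p : ℤ) ∣ 7 * u.2 ^ 2 := by
            refine ⟨4 - p * c ^ 2, ?_⟩
            unfold N at hu
            linear_combination 4 * hu - (2 * u.1 + u.2 + p * c) * hc
          rcases hp'.dvd_or_dvd h7 with h | h
          · have : p ∣ 7 := by simpa using Int.natAbs_dvd_natAbs.2 h
            have := (Nat.prime_dvd_prime_iff_eq hp (by norm_num)).1 this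
            omega
          · exact hu2 (hp'.dvd_of_dvd_pow h)
        refine ⟨hw, ?_, hy⟩
        have : (p : ℤ) ∣ u.2 * w.1 := by
          obtain ⟨a, ha⟩ := ha
          obtain ⟨b, hb⟩ := hy
          exact ⟨u.1 * b - a, by linear_combination u.1 * hb - ha⟩
        exact (hp'.dvd_or_dvd this).resolve_left hu2
      · rintro ⟨hw, hx, hy⟩
        exact ⟨⟨hw, dvd_sub (dvd_mul_of_dvd_right hy _) (dvd_mul_of_dvd_right hx _)⟩, hw,
          dvd_sub (dvd_mul_of_dvd_right hy _) (dvd_mul_of_dvd_right hx _)⟩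
    rw [e1, e2, ncard_both hp m] at hU
    rw [h1, r]
    push_cast [← Nat.cast_inj (R := ℤ)] at hU ⊢
    linear_combination hU
  · have hc : c7 p = -1 := by
      unfold c7 at h1 ⊢
      split_ifs at h1 ⊢ <;> simp_all
    have e : R (p * m) = {w | N w = (p * m : ℕ) ∧ (p : ℤ) ∣ w.1 ∧ (p : ℤ) ∣ w.2} := by
      ext w
      refine ⟨fun hw => ⟨hw, ?_⟩, fun hw => hw.1⟩
      by_contra hh
      obtain ⟨u, hu⟩ := rep_of_dvd hp (w := w) ⟨m, by rw [hw]; push_cast; ring⟩ hh
      exact c7_of_rep hu hc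
    rw [hc, r, e, ncard_both hp m]
    ring

theorem sg_rec {p : ℕ} (hp : p.Prime) {m : ℕ} (hm : m ≠ 0) :
    sg (p * m) + c7 p * (if p ∣ m then sg (m / p) else 0) = (1 + c7 p) * sg m := by
  have hinj : ∀ s : Finset ℕ, Set.InjOn (fun d => p * d) s := fun _ a _ b _ h =>
    Nat.eq_of_mul_eq_mul_left hp.pos h
  have him : ∀ k : ℕ, ∑ d ∈ k.divisors.image (fun d => p * d), c7 d = c7 p * sg k := by
    intro k
    rw [Finset.sum_image (hinj _), sg, Finset.mul_sum]
    exact Finset.sum_congr rfl fun d _ => c7_mul p d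
  have hU := Finset.sum_union_inter (s₁ := m.divisors) (s₂ := m.divisors.image fun d => p * d)
    (f := c7)
  have e1 : m.divisors ∪ m.divisors.image (fun d => p * d) = (p * m).divisors := by
    ext d
    simp only [Finset.mem_union, Finset.mem_image, Nat.mem_divisors]
    constructor
    · rintro (⟨h, -⟩ | ⟨e, ⟨h, -⟩, rfl⟩)
      · exact ⟨h.mul_left p, mul_ne_zero hp.ne_zero hm⟩
      · exact ⟨Nat.mul_dvd_mul_left p h, mul_ne_zero hp.ne_zero hm⟩
    · rintro ⟨h, -⟩
      by_cases hd : p ∣ d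
      · obtain ⟨e, rfl⟩ := hd
        exact Or.inr ⟨e, ⟨Nat.dvd_of_mul_dvd_mul_left hp.pos h, hm⟩, rfl⟩
      · exact Or.inl ⟨((Nat.Prime.coprime_iff_not_dvd hp).2 hd).symm.dvd_of_dvd_mul_left h, hm⟩
  rw [e1, him] at hU
  split_ifs with h
  · obtain ⟨k, rfl⟩ := h
    have e2 : (p * k).divisors ∩ (p * k).divisors.image (fun d => p * d) =
        k.divisors.image fun d => p * d := by
      ext d
      simp only [Finset.mem_inter, Finset.mem_image, Nat.mem_divisors]
      constructor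
      · rintro ⟨⟨h, -⟩, e, -, rfl⟩
        exact ⟨e, ⟨Nat.dvd_of_mul_dvd_mul_left hp.pos h, right_ne_zero_of_mul hm⟩, rfl⟩
      · rintro ⟨e, ⟨h, -⟩, rfl⟩
        exact ⟨⟨Nat.mul_dvd_mul_left p h, hm⟩, e, ⟨h.mul_left p, hm⟩, rfl⟩
    rw [e2, him] at hU
    rw [Nat.mul_div_cancel_left _ hp.pos]
    unfold sg at hU ⊢
    linear_combination hU
  · have e2 : m.divisors ∩ m.divisors.image (fun d => p * d) = ∅ := by
      ext d
      simp only [Finset.mem_inter, Finset.mem_image, Nat.mem_divisors, Finset.notMem_empty,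
        iff_false]
      rintro ⟨⟨hd, -⟩, e, -, rfl⟩
      exact h ((dvd_mul_right p e).trans hd)
    rw [e2] at hU
    unfold sg at hU ⊢
    simp only [Finset.sum_empty] at hU
    linear_combination hU

/-- `r(n) = 2 ∑_{d ∣ n} χ(d)` -/
theorem r_eq : ∀ n : ℕ, n ≠ 0 → (r n : ℤ) = 2 * sg n := by
  intro n
  induction n using Nat.strong_induction_on with
  | _ n ih =>
    intro hn
    rcases eq_or_ne n 1 with rfl | h1
    · have : R 1 = {(1, 0), (-1, 0)} := by
        ext ⟨x, y⟩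
        simp only [R, N, Set.mem_ofPred_eq, Set.mem_insert_iff, Set.mem_singleton_iff,
          Prod.mk.injEq]
        constructor
        · intro h
          have hy : y = 0 := by
            by_contra hy
            have : 0 < y ^ 2 := by positivity
            push_cast at h
            nlinarith [sq_nonneg (2 * x + y)]
          subst hy
          have : x ^ 2 = 1 := by simpa using h
          simpa using this
        · rintro (⟨rfl, rfl⟩ | ⟨rfl, rfl⟩) <;> simp
      rw [r, this, Set.ncard_pair (by simp)]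
      simp [sg, c7]
    obtain ⟨p, hp, m, rfl⟩ := Nat.exists_prime_and_dvd h1
    have hm : m ≠ 0 := right_ne_zero_of_mul hn
    have hlt : m < p * m := by
      have := hp.two_le
      have := Nat.pos_of_ne_zero hm
      nlinarith
    have a := r_rec hp m
    have b := sg_rec hp hm
    rw [ih m hlt hm] at a
    split_ifs at a b with h
    · rw [ih (m / p) (lt_of_le_of_lt (Nat.div_le_self _ _) hlt)
        (Nat.div_pos (Nat.le_of_dvd (Nat.pos_of_ne_zero hm) h) hp.pos).ne'] at a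
      linear_combination a - 2 * b
    · push_cast at a
      linear_combination a - 2 * b

end RV7.ZK
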